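import Pool.Agent.H7.WB.Defs

namespace Pool.Agent.H7.WB

open Finset BigOperators

abbrev Vec := Fin 3 → ℂ

theorem ev_append (us ws : List Vec) (F : List (Fin 3) → ℂ) :
    ev (us ++ ws) F = ev us (fun l => ev ws (fun l' => F (l ++ l'))) := by
  induction us generalizing F with
  | nil => simp [ev]
  | cons u us ih =>
    simp only [List.cons_append, ev]
    refine Finset.sum_congr rfl fun p _ => ?_
    rw [ih]

theorem ev_congr (us : List Vec) (F G : List (Fin 3) → ℂ)
    (h : ∀ l : List (Fin 3), l.length = us.length → F l = G l) : ev us F = ev us G := by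
  induction us generalizing F G with
  | nil => simpa [ev] using h [] rfl
  | cons u us ih =>
    simp only [ev]
    refine Finset.sum_congr rfl fun p _ => ?_
    rw [ih (fun l => F (p :: l)) (fun l => G (p :: l)) fun l hl => h _ (by simp [hl])]

theorem ev_sub (us : List Vec) (F G : List (Fin 3) → ℂ) :
    ev us (fun l => F l - G l) = ev us F - ev us G := by
  induction us generalizing F G with
  | nil => simp [ev]
  | cons u us ih =>
    simp only [ev]
    rw [← Finset.sum_sub_distrib]
    refine Finset.sum_congr rfl fun p _ => ?_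
    rw [ih, mul_sub]

theorem ev_mul_const (us : List Vec) (F : List (Fin 3) → ℂ) (c : ℂ) :
    ev us (fun l => F l * c) = ev us F * c := by
  induction us generalizing F with
  | nil => simp [ev]
  | cons u us ih =>
    simp only [ev]
    rw [Finset.sum_mul]
    refine Finset.sum_congr rfl fun p _ => ?_
    rw [ih, mul_assoc]

theorem ev_const_mul (us : List Vec) (F : List (Fin 3) → ℂ) (c : ℂ) :
    ev us (fun l => c * F l) = c * ev us F := by
  induction us generalizing F with
  | nil => simp [ev]
  | cons u us ih =>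
    simp only [ev]
    rw [Finset.mul_sum]
    refine Finset.sum_congr rfl fun p _ => ?_
    rw [ih]; ring

/-- insertion -/
theorem ev_insert (l s r : List Vec) (F F' G : List (Fin 3) → ℂ)
    (h : ∀ a b c : List (Fin 3), a.length = l.length → b.length = s.length → c.length = r.length →
      G (a ++ b ++ c) = F (a ++ c) * F' b) :
    ev (l ++ s ++ r) G = ev (l ++ r) F * ev s F' := by
  rw [List.append_assoc, ev_append, ev_append l r, ← ev_mul_const]
  refine ev_congr _ _ _ fun a ha => ?_
  rw [ev_append]
  rw [show ev r (fun l' => F (a ++ l')) * ev s F' =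
    ev s (fun b => ev r (fun l' => F (a ++ l')) * F' b) from (ev_const_mul _ _ _).symm]
  refine ev_congr _ _ _ fun b hb => ?_
  rw [← ev_mul_const]
  refine ev_congr _ _ _ fun c hc => ?_
  rw [← h a b c ha hb hc, List.append_assoc]

/-- two neighbouring ends -/
theorem ev_two (u w : Vec) (r : List Vec) (F : List (Fin 3) → ℂ) :
    ev (u :: w :: r) F = ∑ p, ∑ q, u p * (w q * ev r (fun l => F (p :: q :: l))) := by
  simp only [ev, Finset.mul_sum]

theorem ev_swap (l : List Vec) (u w : Vec) (r : List Vec) (F G : List (Fin 3) → ℂ)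
    (h : ∀ (a c : List (Fin 3)) (p q : Fin 3), a.length = l.length → c.length = r.length →
      G (a ++ p :: q :: c) = F (a ++ q :: p :: c) - F (a ++ p :: q :: c)) :
    ev (l ++ u :: w :: r) G = ev (l ++ w :: u :: r) F - ev (l ++ u :: w :: r) F := by
  rw [ev_append, ev_append l (w :: u :: r), ev_append l (u :: w :: r), ← ev_sub]
  refine ev_congr _ _ _ fun a ha => ?_
  rw [ev_two, ev_two, ev_two, Finset.sum_comm, ← Finset.sum_sub_distrib]
  rw [Finset.sum_comm]
  have e1 : ∀ p q : Fin 3, ev r (fun l' => G (a ++ p :: q :: l')) =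
      ev r (fun l' => F (a ++ q :: p :: l')) - ev r (fun l' => F (a ++ p :: q :: l')) := by
    intro p q
    rw [← ev_sub]
    exact ev_congr _ _ _ fun c hc => h a c p q ha hc
  have e2 : ∑ x, ∑ y, w x * (u y * ev r (fun l' => F (a ++ x :: y :: l'))) =
      ∑ p, ∑ q, u p * (w q * ev r (fun l' => F (a ++ q :: p :: l'))) := by
    rw [Finset.sum_comm]
    refine Finset.sum_congr rfl fun p _ => Finset.sum_congr rfl fun q _ => ?_
    ring
  rw [Finset.sum_sub_distrib, e2, ← Finset.sum_sub_distrib]
  refine Finset.sum_congr rfl fun p _ => ?_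
  rw [← Finset.sum_sub_distrib]
  refine Finset.sum_congr rfl fun q _ => ?_
  rw [e1]; ring

theorem exists_ins (F F' : List (Fin 3) → ℂ) (a b : ℕ) : ∃ G : List (Fin 3) → ℂ,
    ∀ l s r : List (Fin 3), l.length = a → s.length = b → G (l ++ s ++ r) = F (l ++ r) * F' s := by
  refine ⟨fun t => F (t.take a ++ t.drop (a + b)) * F' ((t.drop a).take b), fun l s r hl hs => ?_⟩
  subst hl hs
  have e1 : (l ++ s ++ r).take l.length = l := by
    rw [List.append_assoc]; exact List.take_left
  have e2 : (l ++ s ++ r).drop (l.length + s.length) = r := by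
    rw [← List.length_append]; exact List.drop_left
  have e3 : ((l ++ s ++ r).drop l.length).take s.length = s := by
    rw [List.append_assoc, List.drop_left, List.take_left]
  simp only [e1, e2, e3]

theorem exists_join (F : List (Fin 3) → ℂ) (a : ℕ) : ∃ G : List (Fin 3) → ℂ,
    ∀ l r : List (Fin 3), l.length = a → G (l ++ r) = ∑ p, F (l ++ p :: p :: r) := by
  refine ⟨fun t => ∑ p, F (t.take a ++ p :: p :: t.drop a), fun l r hl => ?_⟩
  subst hl
  simp

theorem sgn_table (p q r : Fin 3) : sgn p q r =
    if p = q ∨ q = r ∨ p = r then 0 else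
      (if (p = 0 ∧ q = 1) ∨ (p = 1 ∧ q = 2) ∨ (p = 2 ∧ q = 0) then 1 else -1) := by
  unfold sgn
  rw [Matrix.det_fin_three]
  fin_cases p <;> fin_cases q <;> fin_cases r <;> simp

theorem sgn_contract (f : Fin 3 → Fin 3 → ℂ) (c d : Fin 3) :
    ∑ s, (∑ p, ∑ q, f p q * sgn p s q) * sgn s c d = f d c - f c d := by
  fin_cases c <;> fin_cases d <;> simp [Fin.sum_univ_three, sgn_table] <;> ring

/-- the determinant as an evaluation -/
theorem ev_sgn (u w z : Vec) (F : List (Fin 3) → ℂ) (hF : ∀ p q r, F [p, q, r] = sgn p q r) :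
    ev [u, w, z] F = (Matrix.of fun a b : Fin 3 => (![u, w, z] a) b).det := by
  simp only [ev, hF]
  rw [Matrix.det_fin_three]
  simp [Fin.sum_univ_three, sgn_table]
  ring

end Pool.Agent.H7.WB
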