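import Pool.Agent.H7.WB.Wrap

namespace Pool.Agent.H7.WB

open Finset BigOperators

theorem starWeb_all {m : ℕ} (o : Fin m) (n : ℕ) : ∀ A : List (Fin m × Fin m), A.length = n →
    (∀ p ∈ A, o < p.1 ∧ p.1 < p.2) →
    (∀ p ∈ A, ∀ q ∈ A, ¬ (p.1 < q.1 ∧ q.1 < p.2 ∧ p.2 < q.2)) → StarWeb o A := by
  induction n using Nat.strong_induction_on with
  | _ n ih =>
    intro A hn hA hc
    rcases A.eq_nil_or_concat with rfl | ⟨A0, p00, hA0⟩
    · exact starWeb_nil o
    have hne : A.toFinset.Nonempty := ⟨p00, by simp [hA0]⟩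
    obtain ⟨⟨a, b⟩, hp0, hmax⟩ := A.toFinset.exists_max_image
      (fun p : Fin m × Fin m => (p.2 : ℕ) - (p.1 : ℕ)) hne
    rw [List.mem_toFinset] at hp0
    have hmax' : ∀ q ∈ A, (q.2 : ℕ) - (q.1 : ℕ) ≤ (b : ℕ) - (a : ℕ) := fun q hq =>
      hmax q (by simpa using hq)
    have hab := hA _ hp0
    simp only at hab
    set R := A.erase (a, b) with hR
    have hperm : A.Perm ((a, b) :: R) := List.perm_cons_erase hp0
    have hRA : ∀ q ∈ R, q ∈ A := fun q hq => List.mem_of_mem_erase hq
    have hlen : R.length + 1 = n := by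
      have := hperm.length_eq
      simp at this; omega
    -- position of the others
    have hpos : ∀ q ∈ R, q.2 ≤ a ∨ (a ≤ q.1 ∧ q.2 ≤ b) ∨ b ≤ q.1 := by
      intro q hq
      have h1 := hA q (hRA q hq)
      have h2 := hc _ hp0 q (hRA q hq)
      have h3 := hc q (hRA q hq) _ hp0
      have h4 := hmax' q (hRA q hq)
      simp only [Fin.lt_def, Fin.le_def] at *
      omega
    set Lf := R.filter (fun q => decide (q.2 ≤ a)) with hLf
    set R1 := R.filter (fun q => !decide (q.2 ≤ a)) with hR1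
    set In := R1.filter (fun q => decide (q.2 ≤ b)) with hIn
    set Rt := R1.filter (fun q => !decide (q.2 ≤ b)) with hRt
    have pm1 : (Lf ++ R1).Perm R := List.filter_append_perm _ _
    have pm2 : (In ++ Rt).Perm R1 := List.filter_append_perm _ _
    have mLf : ∀ q ∈ Lf, q ∈ R ∧ q.2 ≤ a := fun q hq => by
      simpa [hLf] using List.mem_filter.1 hq
    have mR1 : ∀ q ∈ R1, q ∈ R ∧ ¬ q.2 ≤ a := fun q hq => by
      have := List.mem_filter.1 hq
      refine ⟨this.1, ?_⟩
      have h2 := this.2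
      simpa using h2
    have mIn : ∀ q ∈ In, q ∈ R ∧ ¬ q.2 ≤ a ∧ q.2 ≤ b := fun q hq => by
      have := List.mem_filter.1 hq
      exact ⟨(mR1 q this.1).1, (mR1 q this.1).2, by simpa using this.2⟩
    have mRt : ∀ q ∈ Rt, q ∈ R ∧ ¬ q.2 ≤ a ∧ ¬ q.2 ≤ b := fun q hq => by
      have := List.mem_filter.1 hq
      refine ⟨(mR1 q this.1).1, (mR1 q this.1).2, ?_⟩
      have h2 := this.2
      simpa using h2
    have hsum : Lf.length + (In.length + Rt.length) = R.length := by
      have h1 := pm1.length_eq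
      have h2 := pm2.length_eq
      simp at h1 h2
      omega
    have wLf : StarWeb o Lf := ih Lf.length (by omega) Lf rfl
      (fun q hq => hA q (hRA q (mLf q hq).1))
      (fun p hp q hq => hc p (hRA p (mLf p hp).1) q (hRA q (mLf q hq).1))
    have wIn : StarWeb o In := ih In.length (by omega) In rfl
      (fun q hq => hA q (hRA q (mIn q hq).1))
      (fun p hp q hq => hc p (hRA p (mIn p hp).1) q (hRA q (mIn q hq).1))
    have wRt : StarWeb o Rt := ih Rt.length (by omega) Rt rfl
      (fun q hq => hA q (hRA q (mRt q hq).1))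
      (fun p hp q hq => hc p (hRA p (mRt p hp).1) q (hRA q (mRt q hq).1))
    have bIn : ∀ q ∈ In, a ≤ q.1 ∧ q.1 ≤ b ∧ a ≤ q.2 ∧ q.2 ≤ b := by
      intro q hq
      have h1 := hpos q (mIn q hq).1
      have h2 := mIn q hq
      have h3 := hA q (hRA q h2.1)
      simp only [Fin.lt_def, Fin.le_def] at *
      omega
    have bRt : ∀ q ∈ Rt, b ≤ q.1 ∧ q.1 < q.2 := by
      intro q hq
      have h1 := hpos q (mRt q hq).1
      have h2 := mRt q hq
      have h3 := hA q (hRA q h2.1)
      simp only [Fin.lt_def, Fin.le_def] at *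
      omega
    have bLf : ∀ q ∈ Lf, q.1 < q.2 ∧ q.2 ≤ a := fun q hq =>
      ⟨(hA q (hRA q (mLf q hq).1)).2, (mLf q hq).2⟩
    have w1 : StarWeb o ((a, b) :: In) := starWeb_wrap o a b In hab.1 hab.2 bIn wIn
    have w2 : StarWeb o (((a, b) :: In) ++ Rt) := by
      refine starWeb_union o _ _ ?_ w1 wRt
      intro p hp q hq
      have g := bRt q hq
      have hpb : p.1 ≤ b ∧ p.2 ≤ b := by
        rcases List.mem_cons.1 hp with rfl | hp
        · exact ⟨hab.2.le, le_rfl⟩
        · exact ⟨(bIn p hp).2.1, (bIn p hp).2.2.2⟩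
      simp only [Fin.lt_def, Fin.le_def] at *
      omega
    have w3 : StarWeb o (Lf ++ (((a, b) :: In) ++ Rt)) := by
      refine starWeb_union o _ _ ?_ wLf w2
      intro p hp q hq
      have g := bLf p hp
      have hqa : a ≤ q.1 ∧ a ≤ q.2 := by
        rcases List.mem_append.1 hq with hq | hq
        · rcases List.mem_cons.1 hq with rfl | hq
          · exact ⟨le_rfl, hab.2.le⟩
          · exact ⟨(bIn q hq).1, (bIn q hq).2.2.1⟩
        · have := bRt q hq
          have := hab.2
          simp only [Fin.lt_def, Fin.le_def] at *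
          omega
      simp only [Fin.lt_def, Fin.le_def] at *
      omega
    refine starWeb_perm o ?_ w3
    have p1 : (Lf ++ (((a, b) :: In) ++ Rt)).Perm ((a, b) :: (Lf ++ (In ++ Rt))) := by
      simp only [List.cons_append]
      exact List.perm_middle
    have p2 : ((a, b) :: (Lf ++ (In ++ Rt))).Perm ((a, b) :: R) :=
      List.Perm.cons _ ((List.Perm.append_left Lf pm2).trans pm1)
    exact p1.trans (p2.trans hperm.symm)

end Pool.Agent.H7.WB
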