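import Mathlib

/-!
Planar sl_3 webs and web invariants (MP_f2dd61_al).
-/

namespace Pool.Agent.H7.WB

open Finset BigOperators

/-- Sign of the permutation `(p, q, r)` of the three labels; it is `0` if two labels agree. -/
def sgn (p q r : Fin 3) : ℂ :=
  (Matrix.of fun i j : Fin 3 => if (![p, q, r] i) = j then (1 : ℂ) else 0).det

/-- `Planar S E V F`: a tensor diagram drawn in a disk without crossings, whose edges to the
boundary are still free. `V` is its set of interior vertices (trivalent), `E` the list of its edges
between interior vertices, written (white vertex, black vertex); `S` is the list of its free ends in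
clockwise order (read from a base point of the boundary circle), each given by its interior vertex
and the colour of that vertex (`true` = white); `F` is the state sum: for labels of the
free ends, the sum over all labellings of the edges in `E` of the product over the interior vertices
of the signs read off clockwise. The diagrams are generated by: the empty diagram; one vertex with
its three free ends; a diagram placed into a gap of another one; joining two neighbouring free ends
of opposite colours to an edge (two cases); moving the base point past one free end. -/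
inductive Planar : List (ℕ × Bool) → List (ℕ × ℕ) → Finset ℕ → (List (Fin 3) → ℂ) → Prop
  | empty (F : List (Fin 3) → ℂ) (hF : F [] = 1) : Planar [] [] ∅ F
  | star (x : ℕ) (c : Bool) (F : List (Fin 3) → ℂ) (hF : ∀ p q r, F [p, q, r] = sgn p q r) :
      Planar [(x, c), (x, c), (x, c)] [] {x} F
  | insert (L R S : List (ℕ × Bool)) (E E' : List (ℕ × ℕ)) (V V' : Finset ℕ)
      (F F' G : List (Fin 3) → ℂ) (hA : Planar (L ++ R) E V F) (hB : Planar S E' V' F')
      (hd : Disjoint V V')
      (hG : ∀ l s r : List (Fin 3), l.length = L.length → s.length = S.length →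
        r.length = R.length → G (l ++ s ++ r) = F (l ++ r) * F' s) :
      Planar (L ++ S ++ R) (E ++ E') (V ∪ V') G
  | joinWB (L R : List (ℕ × Bool)) (E : List (ℕ × ℕ)) (V : Finset ℕ) (F G : List (Fin 3) → ℂ)
      (w b : ℕ) (hA : Planar (L ++ (w, true) :: (b, false) :: R) E V F)
      (hG : ∀ l r : List (Fin 3), l.length = L.length → r.length = R.length →
        G (l ++ r) = ∑ p, F (l ++ p :: p :: r)) :
      Planar (L ++ R) ((w, b) :: E) V G
  | joinBW (L R : List (ℕ × Bool)) (E : List (ℕ × ℕ)) (V : Finset ℕ) (F G : List (Fin 3) → ℂ)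
      (w b : ℕ) (hA : Planar (L ++ (b, false) :: (w, true) :: R) E V F)
      (hG : ∀ l r : List (Fin 3), l.length = L.length → r.length = R.length →
        G (l ++ r) = ∑ p, F (l ++ p :: p :: r)) :
      Planar (L ++ R) ((w, b) :: E) V G
  | rotate (a : ℕ × Bool) (L : List (ℕ × Bool)) (E : List (ℕ × ℕ)) (V : Finset ℕ)
      (F G : List (Fin 3) → ℂ) (hA : Planar (a :: L) E V F)
      (hG : ∀ (p : Fin 3) (l : List (Fin 3)), l.length = L.length → G (l ++ [p]) = F (p :: l)) :
      Planar (L ++ [a]) E V G

/-- Attach the free ends (in order) to the vectors `us`: the sum over the labellings of the ends of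
`F` times the product of the coordinates. -/
def ev : List (Fin 3 → ℂ) → (List (Fin 3) → ℂ) → ℂ
  | [], F => F []
  | u :: us, F => ∑ p, u p * ev us (fun l => F (p :: l))

/-- No multiple edge and no cycle of length four among the interior vertices. -/
def NonElliptic (E : List (ℕ × ℕ)) : Prop :=
  E.Nodup ∧ ∀ w w' b b' : ℕ, w ≠ w' → b ≠ b' →
    ¬ ((w, b) ∈ E ∧ (w', b) ∈ E ∧ (w, b') ∈ E ∧ (w', b') ∈ E)

/-- `f` is `[W]` for a non-elliptic web `W` with `m` boundary vertices. `S` lists the edges at the
boundary vertices in clockwise order, as (white interior vertex, boundary vertex). -/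
def IsWebInvariant (m : ℕ) (f : (Fin m → Fin 3 → ℂ) → ℂ) : Prop :=
  ∃ (S : List (ℕ × Fin m)) (E : List (ℕ × ℕ)) (V : Finset ℕ) (F : List (Fin 3) → ℂ),
    Planar (S.map fun s => (s.1, true)) E V F ∧ NonElliptic E ∧
    (S.map Prod.snd).Pairwise (· ≤ ·) ∧ S.Nodup ∧
    ∀ v : Fin m → Fin 3 → ℂ, f v = ev (S.map fun s => v s.2) F

/-- The Pluecker coordinate `P_{ijk}` of the vectors `v`. -/
def pluecker {m : ℕ} (v : Fin m → Fin 3 → ℂ) (i j k : Fin m) : ℂ :=
  (Matrix.of fun a b : Fin 3 => v (![i, j, k] a) b).det

/-- Weak separation of two sets of indices. -/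
def WeaklySeparated {m : ℕ} (I J : Finset (Fin m)) : Prop :=
  ¬ ∃ a b c d : Fin m, a < b ∧ b < c ∧ c < d ∧
    ((a ∈ I \ J ∧ b ∈ J \ I ∧ c ∈ I \ J ∧ d ∈ J \ I) ∨
      (a ∈ J \ I ∧ b ∈ I \ J ∧ c ∈ J \ I ∧ d ∈ I \ J))

end Pool.Agent.H7.WB
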