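import Pool.Agent.H7.WB.Defs

/-!
Web invariants on a set of boundary vertices, and noncrossing sets (MP_f2dd61_al).
-/

namespace Pool.Agent.H7.WB

open Finset BigOperators

/-- `f` is `[W]` for a non-elliptic web `W` whose edges end at boundary vertices in `P` only
(see `IsWebInvariant`). -/
def IsWebInvariantOn (m : ℕ) (P : Finset (Fin m)) (f : (Fin m → Fin 3 → ℂ) → ℂ) : Prop :=
  ∃ (S : List (ℕ × Fin m)) (E : List (ℕ × ℕ)) (V : Finset ℕ) (F : List (Fin 3) → ℂ),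
    Planar (S.map fun s => (s.1, true)) E V F ∧ NonElliptic E ∧
    (S.map Prod.snd).Pairwise (· ≤ ·) ∧ S.Nodup ∧ (∀ s ∈ S, s.2 ∈ P) ∧
    ∀ v : Fin m → Fin 3 → ℂ, f v = ev (S.map fun s => v s.2) F

/-- Noncrossing sets of indices. -/
def NonCrossing {m : ℕ} (P Q : Finset (Fin m)) : Prop :=
  ¬ ∃ a b c d : Fin m, a < b ∧ b < c ∧ c < d ∧
    ((a ∈ P ∧ b ∈ Q ∧ c ∈ P ∧ d ∈ Q) ∨ (a ∈ Q ∧ b ∈ P ∧ c ∈ Q ∧ d ∈ P))

end Pool.Agent.H7.WB
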