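import Pool.Agent.H7.WB.All

namespace Pool.Agent.H7.WB

open Finset BigOperators

theorem split_block {m : ℕ} (c : Fin m) (S : List (ℕ × Fin m))
    (hS : (S.map Prod.snd).Pairwise (· ≤ ·)) : ∃ (Sl : List (ℕ × Fin m)) (B : List ℕ)
      (Sr : List (ℕ × Fin m)), S = Sl ++ (B.map (fun b => (b, c)) ++ Sr) ∧
      (∀ s ∈ Sl, s.2 < c) ∧ (∀ s ∈ Sr, c < s.2) := by
  induction S with
  | nil => exact ⟨[], [], [], by simp, by simp, by simp⟩
  | cons s S ih =>
    rw [List.map_cons, List.pairwise_cons] at hS
    obtain ⟨Sl, B, Sr, h1, h2, h3⟩ := ih hS.2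
    have hs : ∀ t ∈ S, s.2 ≤ t.2 := fun t ht => hS.1 t.2 (List.mem_map.2 ⟨t, ht, rfl⟩)
    rcases lt_trichotomy s.2 c with h | h | h
    · exact ⟨s :: Sl, B, Sr, by simp [h1], by
        intro t ht
        rcases List.mem_cons.1 ht with rfl | ht
        · exact h
        · exact h2 t ht, h3⟩
    · have : Sl = [] := by
        rcases Sl.eq_nil_or_concat with h' | ⟨Sl', t, h'⟩
        · exact h'
        · exfalso
          have ht : t ∈ S := by rw [h1, h']; simp
          have := hs t ht
          have := h2 t (by rw [h']; simp)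
          rw [h] at *
          exact absurd (lt_of_le_of_lt ‹c ≤ t.2› this) (lt_irrefl _)
      subst this
      refine ⟨[], s.1 :: B, Sr, ?_, by simp, h3⟩
      rw [h1, ← h]
      simp
    · have hS0 : Sl = [] ∧ B = [] := by
        constructor
        · rcases Sl.eq_nil_or_concat with h' | ⟨Sl', t, h'⟩
          · exact h'
          · exfalso
            have ht : t ∈ S := by rw [h1, h']; simp
            exact absurd (h.trans_le (hs t ht)) (h2 t (by rw [h']; simp)).asymm
        · rcases B.eq_nil_or_concat with h' | ⟨B', t, h'⟩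
          · exact h'
          · exfalso
            have ht : (t, c) ∈ S := by rw [h1, h']; simp
            exact absurd (h.trans_le (hs _ ht)) (lt_irrefl _)
      obtain ⟨rfl, rfl⟩ := hS0
      refine ⟨[], [], s :: Sr, by simp [h1], by simp, ?_⟩
      intro t ht
      rcases List.mem_cons.1 ht with rfl | ht
      · exact h
      · exact h3 t ht

/-- multiplying with a frozen variable -/
theorem frozen_mul {m : ℕ} (f : (Fin m → Vec) → ℂ) (hf : IsWebInvariant m f) (j j1 j2 : Fin m)
    (h1 : (j1 : ℕ) = j + 1) (h2 : (j2 : ℕ) = j + 2) :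
    IsWebInvariant m (fun v => pluecker v j j1 j2 * f v) := by
  obtain ⟨S, E, V, F, hP, hE, hs, hn, hv⟩ := hf
  obtain ⟨Sl, B, Sr, hS, hl, hr⟩ := split_block j1 S hs
  subst hS
  obtain ⟨c, hc⟩ := Infinite.exists_notMem_finset V
  have hmem := planar_mem hP
  have hP0 : Planar (wl Sl ++ (wh B ++ wl Sr)) E V F := by
    have : (Sl ++ (B.map (fun b => (b, j1)) ++ Sr)).map (fun s => (s.1, true)) =
        wl Sl ++ (wh B ++ wl Sr) := by simp [Function.comp_def]
    rw [this] at hP
    exact hP
  obtain ⟨G, hG1, hG2⟩ := insert_star hP0 c true hc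
  have hG1' : Planar ((wl Sl ++ [(c, true), (c, true)]) ++ (c, true) :: (wh B ++ wl Sr)) E
      (V ∪ {c}) G := by simpa using hG1
  have hBV : ∀ b' ∈ B, b' ∈ V := fun b' hb' => hmem.2 (b', true) (by
    simp only [List.mem_map]
    exact ⟨(b', j1), by simp [hb'], rfl⟩)
  have hSV : ∀ s ∈ Sl ++ Sr, s.1 ∈ V := by
    intro s hs'
    refine hmem.2 (s.1, true) (List.mem_map.2 ⟨s, ?_, rfl⟩)
    rcases List.mem_append.1 hs' with h | h <;> simp [h]
  have hn' := hn
  rw [List.nodup_append, List.nodup_append] at hn'
  obtain ⟨nl, ⟨nB, nr, nBr⟩, nlr⟩ := hn'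
  have hBn : B.Nodup := List.Nodup.of_map _ nB
  obtain ⟨Y, z', E', V', F', q1, q2, q3, q4, q5, q6, q7, q8, q9, q10⟩ :=
    ladder B (wl Sl ++ [(c, true), (c, true)]) (wl Sr) E (V ∪ {c}) G c hG1' hE
      (fun e he => ⟨Finset.mem_union_left _ (hmem.1 e he).1,
        Finset.mem_union_left _ (hmem.1 e he).2⟩)
      (by simp) (fun b' hb' => Finset.mem_union_left _ (hBV b' hb')) hBn
      (fun h => hc (hBV c h)) (fun b' _ t ht => absurd (hmem.1 _ ht).1 hc)
  have hz'V : z' ∉ V := by
    rcases q9 with h | h
    · rw [h]; exact hc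
    · exact fun h' => h (Finset.mem_union_left _ h')
  have hjj1 : j < j1 := by rw [Fin.lt_def]; omega
  have hj12 : j1 < j2 := by rw [Fin.lt_def]; omega
  have hlj : ∀ s ∈ Sl, s.2 ≤ j := fun s hs' => by
    have := hl s hs'
    rw [Fin.lt_def] at this
    rw [Fin.le_def]; omega
  have hrj : ∀ s ∈ Sr, j2 ≤ s.2 := fun s hs' => by
    have := hr s hs'
    rw [Fin.lt_def] at this
    rw [Fin.le_def]; omega
  refine ⟨Sl ++ ((c, j) :: (c, j1) :: (Y.map (fun y => (y, j1)) ++ (z', j2) :: Sr)), E', V', F',
    ?_, q2, ?_, ?_, ?_⟩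
  · simpa [Function.comp_def] using q1
  · have hsl : (Sl.map Prod.snd).Pairwise (· ≤ ·) := by
      rw [List.map_append, List.pairwise_append] at hs
      exact hs.1
    have hsr : (Sr.map Prod.snd).Pairwise (· ≤ ·) := by
      rw [List.map_append, List.pairwise_append, List.map_append, List.pairwise_append] at hs
      exact hs.2.1.2.1
    simp only [List.map_append, List.map_cons, List.map_map, Function.comp_def,
      List.pairwise_append, List.pairwise_cons, List.mem_append, List.mem_cons, List.mem_map]
    refine ⟨hsl, ⟨?_, ?_, ?_, ⟨?_, hsr⟩, ?_⟩, ?_⟩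
    · rintro x (rfl | ⟨y, _, rfl⟩ | rfl | ⟨s, hs', rfl⟩)
      · exact hjj1.le
      · exact hjj1.le
      · exact (hjj1.trans hj12).le
      · exact ((hjj1.trans hj12).le).trans (hrj s hs')
    · rintro x (⟨y, _, rfl⟩ | rfl | ⟨s, hs', rfl⟩)
      · exact le_rfl
      · exact hj12.le
      · exact hj12.le.trans (hrj s hs')
    · rw [List.pairwise_map]
      exact List.pairwise_of_forall fun _ _ => le_rfl
    · rintro x ⟨s, hs', rfl⟩
      exact hrj s hs'
    · rintro x ⟨y, _, rfl⟩ z (rfl | ⟨s, hs', rfl⟩)
      · exact hj12.le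
      · exact hj12.le.trans (hrj s hs')
    · rintro x ⟨s, hs', rfl⟩ y (rfl | rfl | ⟨y', _, rfl⟩ | rfl | ⟨t, ht, rfl⟩)
      · exact hlj s hs'
      · exact (hlj s hs').trans hjj1.le
      · exact (hlj s hs').trans hjj1.le
      · exact (hlj s hs').trans (hjj1.trans hj12).le
      · exact ((hlj s hs').trans (hjj1.trans hj12).le).trans (hrj t ht)
  · rw [List.nodup_append]
    refine ⟨nl, ?_, ?_⟩
    · refine List.nodup_cons.2 ⟨?_, List.nodup_cons.2 ⟨?_, ?_⟩⟩
      · simp only [List.mem_cons, List.mem_append, List.mem_map, Prod.mk.injEq, not_or]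
        refine ⟨fun h => hjj1.ne h.2, ?_, fun h => (hjj1.trans hj12).ne h.2, fun h =>
          hc (hSV _ (List.mem_append_right _ h))⟩
        rintro ⟨y, _, _, h⟩
        exact hjj1.ne h.symm
      · simp only [List.mem_cons, List.mem_append, List.mem_map, Prod.mk.injEq, not_or]
        refine ⟨?_, fun h => hj12.ne h.2, fun h => hc (hSV _ (List.mem_append_right _ h))⟩
        rintro ⟨y, hy, rfl, _⟩
        exact (q7 y hy).1 (by simp)
      · rw [List.nodup_append]
        refine ⟨q6.map fun a b h => by simpa using h, List.nodup_cons.2 ⟨fun h =>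
          hz'V (hSV _ (List.mem_append_right _ h)), nr⟩, ?_⟩
        intro x hx y hy hxy
        simp only [List.mem_map] at hx
        obtain ⟨y0, hy0, rfl⟩ := hx
        rcases List.mem_cons.1 hy with h | h
        · rw [h, Prod.mk.injEq] at hxy
          exact hj12.ne hxy.2
        · have := hrj y h
          rw [← hxy] at this
          exact absurd (hj12.trans_le this) (lt_irrefl _)
    · intro x hx y hy hxy
      subst hxy
      have hxV := hSV x (List.mem_append_left _ hx)
      have hxl := hlj x hx
      simp only [List.mem_cons, List.mem_append, List.mem_map] at hy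
      rcases hy with rfl | rfl | ⟨y, hy, rfl⟩ | rfl | hy
      · exact hc hxV
      · exact hc hxV
      · exact (q7 y hy).1 (Finset.mem_union_left _ hxV)
      · exact hz'V hxV
      · have := hrj x hy
        exact absurd ((hjj1.trans hj12).trans_le (this.trans hxl)) (lt_irrefl _)
  · intro v
    have hGe : ∀ (u1 u2 u3 : Vec) (r : List Vec),
        ev ((Sl.map fun s => v s.2) ++ u1 :: u2 :: u3 :: r) G =
          ev ((Sl.map fun s => v s.2) ++ r) F *
            (Matrix.of fun a b : Fin 3 => (![u1, u2, u3] a) b).det := by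
      intro u1 u2 u3 r
      let Fs : List (Fin 3) → ℂ := fun t => match t with
        | [p, q, s] => sgn p q s
        | _ => 0
      have h := ev_insert (Sl.map fun s => v s.2) [u1, u2, u3] r F Fs G (by
        intro a b c' ha hb _
        match b, hb with
        | [p, q, s], _ =>
          have := hG2 a c' p q s (by simpa using ha)
          simpa [Fs] using this)
      rw [ev_sgn u1 u2 u3 Fs fun p q r => rfl] at h
      simpa using h
    have hZ : ∀ w : List Vec, w.length = B.length + (wl Sr).length →
        ev (((Sl.map fun s => v s.2) ++ [v j, v j1]) ++ v j1 :: w) G = 0 := by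
      intro w _
      have := hGe (v j) (v j1) (v j1) w
      have e0 : (Matrix.of fun a b : Fin 3 => (![v j, v j1, v j1] a) b).det = 0 := by
        refine Matrix.det_zero_of_row_eq (i := 1) (j := 2) (by decide) ?_
        ext k
        simp
      rw [e0, mul_zero] at this
      simpa using this
    have key := q10 ((Sl.map fun s => v s.2) ++ [v j, v j1]) (Sr.map fun s => v s.2) (v j1) (v j2)
      (by simp) (by simp) hZ
    have e1 : ((Sl ++ ((c, j) :: (c, j1) :: (Y.map (fun y => (y, j1)) ++ (z', j2) :: Sr))).map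
        fun s => v s.2) = ((Sl.map fun s => v s.2) ++ [v j, v j1]) ++
        (List.replicate B.length (v j1) ++ v j2 :: (Sr.map fun s => v s.2)) := by
      simp [Function.comp_def, ← List.map_const']
      rw [List.map_const', List.map_const', q5]
    show pluecker v j j1 j2 * f v = _
    rw [e1, key, hv v]
    have := hGe (v j) (v j1) (v j2)
      (List.replicate B.length (v j1) ++ Sr.map fun s => v s.2)
    rw [List.append_assoc]
    simp only [List.cons_append, List.nil_append]
    rw [this, pluecker_eq, mul_comm]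
    congr 2
    simp [Function.comp_def]

end Pool.Agent.H7.WB
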