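import Pool.Agent.H7.WB.GA

/-!
PROOF of DV.rev: induction on h. For the step apply DV.step in the order dual with
 L, Pr, Q, R := R.reverse, Q, Pr, L.reverse (mapped by toDual), z := the reversed triple; the new list of
labels is the reversed old one (simp [List.reverse_append]). StepV for the reversed functions: given
 l pr q r x1 x2 x3 a b c, apply hS to r.reverse, q, pr, l.reverse (labels mapped by ofDual), x3 x2 x1,
 c b a; the conditions are symmetric (a' = b, b = c', a' = c' permuted). CarR does not use the order.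
PROOF of DV.vanish': DV.vanish for DV.rev h with S.reverse.
-/

namespace Pool.Agent.H7.WB

open Finset BigOperators

theorem CarR.mapGB {β γ : Type} (e : β → γ) {q : List (β × Vec)} {c c' : Vec} {q' : List (β × Vec)}
    (h : CarR q c c' q') :
    CarR (q.map fun s => (e s.1, s.2)) c c' (q'.map fun s => (e s.1, s.2)) := by
  induction h with
  | nil c => exact CarR.nil c
  | keep y q c c' q' h ih => exact CarR.keep (e y.1, y.2) _ c c' _ ih
  | swap y q c c' q' h ih => exact CarR.swap (e y.1, y.2) _ c c' _ ih

theorem DV.rev {α : Type} [LinearOrder α] {T : List (α × α × α)} {labs : List α}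
    {f : List Vec → ℂ} (h : DV T labs f) :
    DV (α := αᵒᵈ) (T.map fun t => (OrderDual.toDual t.2.2, OrderDual.toDual t.2.1,
      OrderDual.toDual t.1)) (labs.reverse.map OrderDual.toDual) (fun u => f u.reverse) := by
  induction h with
  | nil f => exact DV.nil _
  | step T L Pr Q R f g z hD h12 h23 hL hP hQ hR hPs hQs hW hS ih =>
    have e1 : (L ++ (Pr.reverse ++ (Q ++ R))).reverse.map OrderDual.toDual =
        R.reverse.map OrderDual.toDual ++ ((Q.map OrderDual.toDual).reverse ++
          (Pr.map OrderDual.toDual ++ L.reverse.map OrderDual.toDual)) := by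
      simp
    have e2 : (L ++ z.1 :: (Pr.reverse ++ z.2.1 :: (Q ++ z.2.2 :: R))).reverse.map OrderDual.toDual =
        R.reverse.map OrderDual.toDual ++ OrderDual.toDual z.2.2 :: ((Q.map OrderDual.toDual).reverse ++
          OrderDual.toDual z.2.1 :: (Pr.map OrderDual.toDual ++ OrderDual.toDual z.1 ::
            L.reverse.map OrderDual.toDual)) := by
      simp
    rw [e1] at ih
    rw [e2, List.map_cons]
    refine DV.step (α := αᵒᵈ) _ (R.reverse.map OrderDual.toDual) (Q.map OrderDual.toDual)
      (Pr.map OrderDual.toDual) (L.reverse.map OrderDual.toDual) _ _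
      (OrderDual.toDual z.2.2, OrderDual.toDual z.2.1, OrderDual.toDual z.1) ih ?_ ?_ ?_ ?_ ?_ ?_ ?_ ?_ ?_ ?_
    · exact OrderDual.toDual_lt_toDual.mpr h23
    · exact OrderDual.toDual_lt_toDual.mpr h12
    · intro y hy
      obtain ⟨y0, hy0, rfl⟩ := List.mem_map.mp hy
      exact OrderDual.toDual_le_toDual.mpr (hR y0 (List.mem_reverse.mp hy0))
    · intro y hy
      obtain ⟨y0, hy0, rfl⟩ := List.mem_map.mp hy
      exact ⟨OrderDual.toDual_lt_toDual.mpr (hQ y0 hy0).2, OrderDual.toDual_le_toDual.mpr (hQ y0 hy0).1⟩
    · intro y hy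
      obtain ⟨y0, hy0, rfl⟩ := List.mem_map.mp hy
      exact ⟨OrderDual.toDual_le_toDual.mpr (hP y0 hy0).2, OrderDual.toDual_lt_toDual.mpr (hP y0 hy0).1⟩
    · intro y hy
      obtain ⟨y0, hy0, rfl⟩ := List.mem_map.mp hy
      exact OrderDual.toDual_le_toDual.mpr (hL y0 (List.mem_reverse.mp hy0))
    · rw [List.pairwise_map]
      exact hQs.imp (fun hab => OrderDual.toDual_le_toDual.mpr hab)
    · rw [List.pairwise_map]
      exact hPs.imp (fun hab => OrderDual.toDual_le_toDual.mpr hab)
    · intro t ht p q hp hq h1 h2 h3 h4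
      obtain ⟨t0, ht0, rfl⟩ := List.mem_map.mp ht
      have hp' : Mem3 (OrderDual.ofDual p) t0 := by
        rcases hp with hp | hp | hp
        · exact Or.inr (Or.inr hp)
        · exact Or.inr (Or.inl hp)
        · exact Or.inl hp
      have hq' : Mem3 (OrderDual.ofDual q) t0 := by
        rcases hq with hq | hq | hq
        · exact Or.inr (Or.inr hq)
        · exact Or.inr (Or.inl hq)
        · exact Or.inl hq
      have := hW t0 ht0 (OrderDual.ofDual p) (OrderDual.ofDual q) hp' hq' h2 h1 h4 h3
      exact this
    · intro l pr q r x1 x2 x3 a b c hl hpr hq hr H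
      have hl' : ((r.reverse.map fun s => (OrderDual.ofDual s.1, s.2)) : List (α × Vec)).map Prod.fst = L := by
        have h1 := congrArg (fun u => (u.reverse).map OrderDual.ofDual) hr
        simpa [List.map_map, Function.comp_def] using h1
      have hpr' : ((q.map fun s => (OrderDual.ofDual s.1, s.2)) : List (α × Vec)).map Prod.fst = Pr := by
        have h1 := congrArg (fun u => u.map OrderDual.ofDual) hq
        simpa [List.map_map, Function.comp_def] using h1
      have hq' : ((pr.map fun s => (OrderDual.ofDual s.1, s.2)) : List (α × Vec)).map Prod.fst = Q := by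
        have h1 := congrArg (fun u => u.map OrderDual.ofDual) hpr
        simpa [List.map_map, Function.comp_def] using h1
      have hr' : ((l.reverse.map fun s => (OrderDual.ofDual s.1, s.2)) : List (α × Vec)).map Prod.fst = R := by
        have h1 := congrArg (fun u => (u.reverse).map OrderDual.ofDual) hl
        simpa [List.map_map, Function.comp_def] using h1
      have key := hS (r.reverse.map fun s => (OrderDual.ofDual s.1, s.2))
        (q.map fun s => (OrderDual.ofDual s.1, s.2)) (pr.map fun s => (OrderDual.ofDual s.1, s.2))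
        (l.reverse.map fun s => (OrderDual.ofDual s.1, s.2)) (OrderDual.ofDual x3) (OrderDual.ofDual x2)
        (OrderDual.ofDual x1) c b a hl' hpr' hq' hr' ?_
      · have e3 : ((l ++ (x1, a) :: (pr.reverse ++ (x2, b) :: (q ++ (x3, c) :: r))).map Prod.snd).reverse =
            (((r.reverse.map fun s => (OrderDual.ofDual s.1, s.2)) ++ (OrderDual.ofDual x3, c) ::
              ((q.map fun s => (OrderDual.ofDual s.1, s.2)).reverse ++ (OrderDual.ofDual x2, b) ::
              ((pr.map fun s => (OrderDual.ofDual s.1, s.2)) ++ (OrderDual.ofDual x1, a) ::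
              (l.reverse.map fun s => (OrderDual.ofDual s.1, s.2)))) : List (α × Vec)).map Prod.snd) := by
          simp [List.map_map, Function.comp_def]
        show g ((l ++ (x1, a) :: (pr.reverse ++ (x2, b) :: (q ++ (x3, c) :: r))).map Prod.snd).reverse = 0
        rw [e3]
        exact key
      · intro a1 p1 c1 q1 hA hB
        have hA' := CarR.mapGB (OrderDual.toDual : α → αᵒᵈ) hA
        have hB' := CarR.mapGB (OrderDual.toDual : α → αᵒᵈ) hB
        have e4 : ∀ u : List (αᵒᵈ × Vec), (u.map fun s => (OrderDual.ofDual s.1, s.2)).map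
            (fun s => ((OrderDual.toDual s.1, s.2) : αᵒᵈ × Vec)) = u := by
          intro u
          simp [List.map_map, Function.comp_def]
        rw [e4] at hA' hB'
        have h2 := H c1 _ a1 _ hB' hA'
        rcases h2 with h2 | h2 | h2 | h2
        · exact Or.inr (Or.inl h2.symm)
        · exact Or.inl h2.symm
        · exact Or.inr (Or.inr (Or.inl h2.symm))
        · right; right; right
          have e5 : ((l ++ ((q1.map fun s => ((OrderDual.toDual s.1, s.2) : αᵒᵈ × Vec)).reverse ++
              ((p1.map fun s => ((OrderDual.toDual s.1, s.2) : αᵒᵈ × Vec)) ++ r))).map Prod.snd).reverse =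
              (((r.reverse.map fun s => (OrderDual.ofDual s.1, s.2)) ++ (p1.reverse ++ (q1 ++
                (l.reverse.map fun s => (OrderDual.ofDual s.1, s.2)))) : List (α × Vec)).map Prod.snd) := by
            simp [List.map_map, Function.comp_def]
          rw [← e5]
          exact h2

theorem DV.vanish' {α : Type} [LinearOrder α] {T : List (α × α × α)} {labs : List α}
    {f : List Vec → ℂ} (h : DV T labs f) (x bd : α) (w : Vec) (S : List (α × Vec))
    (hS : S.map Prod.fst = labs) (hT : ∀ t ∈ T, ∀ p, Mem3 p t → bd < p → p < x → Mem3 x t)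
    (hB : ∀ s ∈ S, s.1 = x → s.2 = w) (hw : ∃ s ∈ S, bd < s.1 ∧ s.1 < x ∧ s.2 = w) :
    f (S.map Prod.snd) = 0 := by
  have hm : ∀ (p : α) (t : α × α × α), Mem3 (OrderDual.toDual p)
      ((OrderDual.toDual t.2.2, OrderDual.toDual t.2.1, OrderDual.toDual t.1) : αᵒᵈ × αᵒᵈ × αᵒᵈ) ↔ Mem3 p t := by
    intro p t
    constructor
    · rintro (hp | hp | hp)
      · exact Or.inr (Or.inr hp)
      · exact Or.inr (Or.inl hp)
      · exact Or.inl hp
    · rintro (hp | hp | hp)
      · exact Or.inr (Or.inr hp)
      · exact Or.inr (Or.inl hp)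
      · exact Or.inl hp
  have key := DV.vanish h.rev (OrderDual.toDual x) (OrderDual.toDual bd) w
    (S.reverse.map fun s => ((OrderDual.toDual s.1, s.2) : αᵒᵈ × Vec)) ?_ ?_ ?_ ?_
  · have e : ((S.reverse.map fun s => ((OrderDual.toDual s.1, s.2) : αᵒᵈ × Vec)).map Prod.snd).reverse =
        S.map Prod.snd := by
      simp [List.map_map, Function.comp_def]
    have key' : f ((S.reverse.map fun s => ((OrderDual.toDual s.1, s.2) : αᵒᵈ × Vec)).map Prod.snd).reverse = 0 := key
    rw [e] at key'
    exact key'
  · rw [← hS]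
    simp [List.map_map, Function.comp_def]
  · intro t ht p hp h1 h2
    obtain ⟨t0, ht0, rfl⟩ := List.mem_map.mp ht
    rw [hm]
    exact hT t0 ht0 (OrderDual.ofDual p) ((hm (OrderDual.ofDual p) t0).mp hp) h2 h1
  · intro s hs hx
    obtain ⟨s0, hs0, rfl⟩ := List.mem_map.mp hs
    exact hB s0 (List.mem_reverse.mp hs0) hx
  · obtain ⟨s, hs, h1, h2, h3⟩ := hw
    exact ⟨(OrderDual.toDual s.1, s.2), List.mem_map.mpr ⟨s, List.mem_reverse.mpr hs, rfl⟩,
      OrderDual.toDual_lt_toDual.mpr h2, OrderDual.toDual_lt_toDual.mpr h1, h3⟩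

end Pool.Agent.H7.WB
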