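import Pool.Agent.H7.WB.GDefs

/-!
z = (z1, z2, z3), t = (t1, t2, t3), increasing, weakly separated, t3 - t1 >= z3 - z1 (omega on values).
Use the negation hw with these a < b < c < d:
 ws_one: p <> q in t strictly between z1 and z3. {p, q} = {t1, t3}: span too small. {t1, t2}: span gives
   t3 > z3; e = the one of t1, t2 different from z2: z1 < e < z3 < t3. {t2, t3}: t1 < z1; e = the
   one of t2, t3 different from z2: t1 < z1 < e < z3.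
 ws_left: p in t, z1 < p < z2, z1 not in t; by ws_one the other two are not strictly between z1 and z3.
   p = t1: z1 < t1 < z2 < t3. p = t2: t1 < z1 < t2 < z2. p = t3: t1 < z1 < t3 < z2.
 ws_right: p in t, z2 < p < z3, z3 not in t. p = t3: t1 < z2 < t3 < z3 (t1, t2 <= z1; if t1 = z1 ... use
   a = t1 or t2, the one that is < z1 is t1). p = t2: z2 < t2 < z3 < t3. p = t1: z2 < t1 < z3 < t3.
-/

namespace Pool.Agent.H7.WB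

open Finset BigOperators

theorem ws_natA {m : ℕ} (z t : Fin m × Fin m × Fin m)
    (hw : WeaklySeparated ({t.1, t.2.1, t.2.2} : Finset (Fin m)) {z.1, z.2.1, z.2.2}) :
    ∀ a b c d : Fin m, Mem3 a t → Mem3 b z → Mem3 c t → Mem3 d z → ¬ (a < b ∧ b < c ∧ c < d ∧
      ¬ Mem3 a z ∧ ¬ Mem3 b t ∧ ¬ Mem3 c z ∧ ¬ Mem3 d t) := by
  rintro a b c d ha hb hc hd ⟨h1, h2, h3, ha', hb', hc', hd'⟩
  apply hw
  refine ⟨a, b, c, d, h1, h2, h3, Or.inl ⟨?_, ?_, ?_, ?_⟩⟩ <;>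
    rw [Finset.mem_sdiff, Finset.mem_insert, Finset.mem_insert, Finset.mem_singleton,
      Finset.mem_insert, Finset.mem_insert, Finset.mem_singleton]
  · exact ⟨ha, ha'⟩
  · exact ⟨hb, hb'⟩
  · exact ⟨hc, hc'⟩
  · exact ⟨hd, hd'⟩

theorem ws_natB {m : ℕ} (z t : Fin m × Fin m × Fin m)
    (hw : WeaklySeparated ({t.1, t.2.1, t.2.2} : Finset (Fin m)) {z.1, z.2.1, z.2.2}) :
    ∀ a b c d : Fin m, Mem3 a z → Mem3 b t → Mem3 c z → Mem3 d t → ¬ (a < b ∧ b < c ∧ c < d ∧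
      ¬ Mem3 a t ∧ ¬ Mem3 b z ∧ ¬ Mem3 c t ∧ ¬ Mem3 d z) := by
  rintro a b c d ha hb hc hd ⟨h1, h2, h3, ha', hb', hc', hd'⟩
  apply hw
  refine ⟨a, b, c, d, h1, h2, h3, Or.inr ⟨?_, ?_, ?_, ?_⟩⟩ <;>
    rw [Finset.mem_sdiff, Finset.mem_insert, Finset.mem_insert, Finset.mem_singleton,
      Finset.mem_insert, Finset.mem_insert, Finset.mem_singleton]
  · exact ⟨ha, ha'⟩
  · exact ⟨hb, hb'⟩
  · exact ⟨hc, hc'⟩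
  · exact ⟨hd, hd'⟩

theorem mem3_1 {α : Type} (t : α × α × α) : Mem3 t.1 t := Or.inl rfl

theorem mem3_2 {α : Type} (t : α × α × α) : Mem3 t.2.1 t := Or.inr (Or.inl rfl)

theorem mem3_3 {α : Type} (t : α × α × α) : Mem3 t.2.2 t := Or.inr (Or.inr rfl)

theorem ws_one {m : ℕ} (z t : Fin m × Fin m × Fin m) (hz : z.1 < z.2.1 ∧ z.2.1 < z.2.2)
    (ht : t.1 < t.2.1 ∧ t.2.1 < t.2.2)
    (hw : WeaklySeparated ({t.1, t.2.1, t.2.2} : Finset (Fin m)) {z.1, z.2.1, z.2.2})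
    (hs : (z.2.2 : ℕ) - (z.1 : ℕ) ≤ (t.2.2 : ℕ) - (t.1 : ℕ)) :
    ∀ p q : Fin m, Mem3 p t → Mem3 q t → z.1 < p → p < z.2.2 → z.1 < q → q < z.2.2 → p = q := by
  have e1 := ws_natB z t hw z.1 t.1 z.2.2 t.2.2 (mem3_1 z) (mem3_1 t) (mem3_3 z) (mem3_3 t)
  have e2 := ws_natB z t hw z.1 t.2.1 z.2.2 t.2.2 (mem3_1 z) (mem3_2 t) (mem3_3 z) (mem3_3 t)
  have e3 := ws_natA z t hw t.1 z.1 t.2.1 z.2.2 (mem3_1 t) (mem3_1 z) (mem3_2 t) (mem3_3 z)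
  have e4 := ws_natA z t hw t.1 z.1 t.2.2 z.2.2 (mem3_1 t) (mem3_1 z) (mem3_3 t) (mem3_3 z)
  intro p q hp hq g1 g2 g3 g4
  simp only [Mem3, Fin.ext_iff, Fin.lt_def] at *
  clear hw
  omega

theorem ws_left {m : ℕ} (z t : Fin m × Fin m × Fin m) (hz : z.1 < z.2.1 ∧ z.2.1 < z.2.2)
    (ht : t.1 < t.2.1 ∧ t.2.1 < t.2.2)
    (hw : WeaklySeparated ({t.1, t.2.1, t.2.2} : Finset (Fin m)) {z.1, z.2.1, z.2.2})
    (hs : (z.2.2 : ℕ) - (z.1 : ℕ) ≤ (t.2.2 : ℕ) - (t.1 : ℕ)) :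
    ∀ p : Fin m, Mem3 p t → z.1 < p → p < z.2.1 → Mem3 z.1 t := by
  have h1 := ws_one z t hz ht hw hs
  have e1 := ws_natB z t hw z.1 t.1 z.2.1 t.2.2 (mem3_1 z) (mem3_1 t) (mem3_2 z) (mem3_3 t)
  have e2 := ws_natA z t hw t.1 z.1 t.2.1 z.2.1 (mem3_1 t) (mem3_1 z) (mem3_2 t) (mem3_2 z)
  have e3 := ws_natA z t hw t.1 z.1 t.2.2 z.2.1 (mem3_1 t) (mem3_1 z) (mem3_3 t) (mem3_2 z)
  have f12 : ¬ (z.1 < t.1 ∧ t.1 < z.2.2 ∧ z.1 < t.2.1 ∧ t.2.1 < z.2.2) := by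
    rintro ⟨a1, a2, a3, a4⟩
    exact absurd (h1 t.1 t.2.1 (mem3_1 t) (mem3_2 t) a1 a2 a3 a4) (ne_of_lt ht.1)
  have f13 : ¬ (z.1 < t.1 ∧ t.1 < z.2.2 ∧ z.1 < t.2.2 ∧ t.2.2 < z.2.2) := by
    rintro ⟨a1, a2, a3, a4⟩
    exact absurd (h1 t.1 t.2.2 (mem3_1 t) (mem3_3 t) a1 a2 a3 a4) (ne_of_lt (ht.1.trans ht.2))
  have f23 : ¬ (z.1 < t.2.1 ∧ t.2.1 < z.2.2 ∧ z.1 < t.2.2 ∧ t.2.2 < z.2.2) := by
    rintro ⟨a1, a2, a3, a4⟩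
    exact absurd (h1 t.2.1 t.2.2 (mem3_2 t) (mem3_3 t) a1 a2 a3 a4) (ne_of_lt ht.2)
  clear h1
  intro p hp g1 g2
  simp only [Mem3, Fin.ext_iff, Fin.lt_def] at *
  clear hw
  omega

theorem ws_right {m : ℕ} (z t : Fin m × Fin m × Fin m) (hz : z.1 < z.2.1 ∧ z.2.1 < z.2.2)
    (ht : t.1 < t.2.1 ∧ t.2.1 < t.2.2)
    (hw : WeaklySeparated ({t.1, t.2.1, t.2.2} : Finset (Fin m)) {z.1, z.2.1, z.2.2})
    (hs : (z.2.2 : ℕ) - (z.1 : ℕ) ≤ (t.2.2 : ℕ) - (t.1 : ℕ)) :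
    ∀ p : Fin m, Mem3 p t → z.2.1 < p → p < z.2.2 → Mem3 z.2.2 t := by
  have h1 := ws_one z t hz ht hw hs
  have e1 := ws_natA z t hw t.1 z.2.1 t.2.2 z.2.2 (mem3_1 t) (mem3_2 z) (mem3_3 t) (mem3_3 z)
  have e2 := ws_natB z t hw z.2.1 t.2.1 z.2.2 t.2.2 (mem3_2 z) (mem3_2 t) (mem3_3 z) (mem3_3 t)
  have e3 := ws_natB z t hw z.2.1 t.1 z.2.2 t.2.2 (mem3_2 z) (mem3_1 t) (mem3_3 z) (mem3_3 t)
  have f12 : ¬ (z.1 < t.1 ∧ t.1 < z.2.2 ∧ z.1 < t.2.1 ∧ t.2.1 < z.2.2) := by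
    rintro ⟨a1, a2, a3, a4⟩
    exact absurd (h1 t.1 t.2.1 (mem3_1 t) (mem3_2 t) a1 a2 a3 a4) (ne_of_lt ht.1)
  have f13 : ¬ (z.1 < t.1 ∧ t.1 < z.2.2 ∧ z.1 < t.2.2 ∧ t.2.2 < z.2.2) := by
    rintro ⟨a1, a2, a3, a4⟩
    exact absurd (h1 t.1 t.2.2 (mem3_1 t) (mem3_3 t) a1 a2 a3 a4) (ne_of_lt (ht.1.trans ht.2))
  have f23 : ¬ (z.1 < t.2.1 ∧ t.2.1 < z.2.2 ∧ z.1 < t.2.2 ∧ t.2.2 < z.2.2) := by
    rintro ⟨a1, a2, a3, a4⟩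
    exact absurd (h1 t.2.1 t.2.2 (mem3_2 t) (mem3_3 t) a1 a2 a3 a4) (ne_of_lt ht.2)
  clear h1
  intro p hp g1 g2
  simp only [Mem3, Fin.ext_iff, Fin.lt_def] at *
  clear hw
  omega

end Pool.Agent.H7.WB
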