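import Pool.Agent.H7.WB.GDefs

/-!
Copy the proof of `ladder` in Pool/Agent/H7/WB/Ladder.lean (same induction, same vertices x, y). Differences:
(1) the condition on the edges comes from planar_mem (Star.lean).
(2) new clause: every edge of E' is in E or its black vertex is not in V and its white vertex is in B, is z
    or is not in V. For the step the new edges are (y, x), (b, x), (z, x) with x, y not in V.
(3) evaluation for arbitrary vectors: q = y1 :: q1. The H move gives (hsw in Ladder.lean)
    ev (l ++ u :: w :: t) F1 = ev (l ++ w :: u :: t) F - ev (l ++ u :: w :: t) F.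
    Induction hypothesis for l ++ [y1], q1: its hypothesis for CarN q1 c c' q' follows, because
    F1 (l ++ y1 :: c' :: (q' ++ r)) = F (l ++ c' :: y1 :: (q' ++ r)) - F (l ++ y1 :: c' :: (q' ++ r)), the first term
    is zero by CarN.keep, the second one by CarN.swap (and CarN.toR). Then
    F1 (l ++ y1 :: c :: (q1 ++ r)) = F (l ++ c :: y1 :: (q1 ++ r)) - F (l ++ y1 :: c :: (q1 ++ r)), the second
    term is zero by CarN.swap with CarR.refl.
-/

namespace Pool.Agent.H7.WB

open Finset BigOperators

theorem ladderR (B : List ℕ) : ∀ (L R : List (ℕ × Bool)) (E : List (ℕ × ℕ)) (V : Finset ℕ)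
    (F : List (Fin 3) → ℂ) (z : ℕ),
    Planar (L ++ (z, true) :: (wh B ++ R)) E V F → NonElliptic E → z ∈ V → (∀ b ∈ B, b ∈ V) →
    B.Nodup → z ∉ B → (∀ b ∈ B, ∀ t, (z, t) ∈ E → (b, t) ∉ E) →
    ∃ (Y : List ℕ) (z' : ℕ) (E' : List (ℕ × ℕ)) (V' : Finset ℕ) (F' : List (Fin 3) → ℂ),
      Planar (L ++ (wh Y ++ (z', true) :: R)) E' V' F' ∧ NonElliptic E' ∧
      V ⊆ V' ∧ Y.length = B.length ∧ Y.Nodup ∧
      (∀ y ∈ Y, y ∉ V ∧ y ∈ V') ∧ z' ∈ V' ∧ (z' = z ∨ z' ∉ V) ∧
      (∀ e ∈ E', e ∈ E ∨ (e.2 ∉ V ∧ (e.1 ∈ B ∨ e.1 = z ∨ e.1 ∉ V))) ∧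
      ∀ (β : Type) (l r q : List (β × Vec)) (lab : β) (c : Vec), l.length = L.length →
        r.length = R.length → q.length = B.length →
        (∀ c' q', CarN q c c' q' → ev ((l ++ (lab, c') :: (q' ++ r)).map Prod.snd) F = 0) →
        ev ((l ++ (q ++ (lab, c) :: r)).map Prod.snd) F' =
          ev ((l ++ (lab, c) :: (q ++ r)).map Prod.snd) F := by
  induction B with
  | nil =>
    intro L R E V F z hP hE hz _ _ _ _
    refine ⟨[], z, E, V, F, by simpa using hP, hE, Finset.Subset.refl _, rfl, List.nodup_nil,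
      by simp, hz, Or.inl rfl, fun e he => Or.inl he, ?_⟩
    intro β l r q lab c _ _ hq _
    have hq0 : q = [] := List.length_eq_zero_iff.1 (by simpa using hq)
    subst hq0
    simp
  | cons b B ih =>
    intro L R E V F z hP hE hz hB hBn hzB hc
    have hV : ∀ e ∈ E, e.1 ∈ V ∧ e.2 ∈ V := (planar_mem hP).1
    obtain ⟨x, hx⟩ := Infinite.exists_notMem_finset V
    obtain ⟨y, hy'⟩ := Infinite.exists_notMem_finset (V ∪ {x})
    have hy : y ∉ V := fun h => hy' (Finset.mem_union_left _ h)
    have hxy : x ≠ y := fun h => hy' (by simp [h])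
    have hzb : z ≠ b := fun h => hzB (by simp [h])
    have hbV : b ∈ V := hB b (by simp)
    have hBV : ∀ b' ∈ B, b' ∈ V := fun b' h => hB b' (by simp [h])
    have hP' : Planar (L ++ (z, true) :: (b, true) :: (wh B ++ R)) E V F := by simpa using hP
    obtain ⟨F1, hP1, hF1⟩ := H_step hP' x y hx hy hxy
    have hE1 : NonElliptic ((y, x) :: (b, x) :: (z, x) :: E) :=
      nonElliptic_H hE hV hz hbV hzb hx hy (hc b (by simp))
    obtain ⟨Y, z', E', V', F', q1, q2, q4, q5, q6, q7, q8, q9, qe, q10⟩ :=
      ih (L ++ [(y, true)]) R ((y, x) :: (b, x) :: (z, x) :: E) (V ∪ {x} ∪ {y}) F1 y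
        (by simpa using hP1) hE1 (by simp)
        (fun b' h => by simp [hBV b' h]) (List.nodup_cons.1 hBn).2
        (fun h => hy (hBV y h)) (by
          intro b' hb' t ht ht'
          have hyt : t = x := by
            simp only [List.mem_cons, Prod.mk.injEq] at ht
            rcases ht with h | h | h | h
            · exact h.2
            · exact h.2
            · exact h.2
            · exact absurd (hV _ h).1 hy
          subst hyt
          simp only [List.mem_cons, Prod.mk.injEq] at ht'
          rcases ht' with h | h | h | h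
          · exact hy (h.1 ▸ hBV b' hb')
          · exact (List.nodup_cons.1 hBn).1 (h.1 ▸ hb')
          · exact hzB (by rw [← h.1]; simp [hb'])
          · exact hx (hV _ h).2)
    refine ⟨y :: Y, z', E', V', F', by simpa using q1, q2,
      fun a ha => q4 (by simp [ha]), by simp [q5], ?_, ?_, q8, ?_, ?_, ?_⟩
    · refine List.nodup_cons.2 ⟨fun h => (q7 y h).1 (by simp), q6⟩
    · intro a ha
      rcases List.mem_cons.1 ha with rfl | ha
      · exact ⟨hy, q4 (by simp)⟩
      · exact ⟨fun h => (q7 a ha).1 (by simp [h]), (q7 a ha).2⟩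
    · right
      rcases q9 with h | h
      · rw [h]; exact hy
      · intro h'; exact h (by simp [h'])
    · intro e he
      rcases qe e he with h | ⟨h1, h2⟩
      · simp only [List.mem_cons] at h
        rcases h with rfl | rfl | rfl | h
        · exact Or.inr ⟨hx, Or.inr (Or.inr hy)⟩
        · exact Or.inr ⟨hx, Or.inl (by simp)⟩
        · exact Or.inr ⟨hx, Or.inr (Or.inl rfl)⟩
        · exact Or.inl h
      · refine Or.inr ⟨fun h => h1 (by simp [h]), ?_⟩
        rcases h2 with h2 | h2 | h2
        · exact Or.inl (by simp [h2])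
        · exact Or.inr (Or.inr (by rw [h2]; exact hy))
        · exact Or.inr (Or.inr fun h => h2 (by simp [h]))
    · intro β l r q lab c hl hr hq hZ
      obtain _ | ⟨y1, q1'⟩ := q
      · simp at hq
      have hq1 : q1'.length = B.length := by simpa using hq
      have hsw : ∀ (u w : Vec) (t : List Vec), t.length = B.length + R.length →
          ev (l.map Prod.snd ++ u :: w :: t) F1 =
            ev (l.map Prod.snd ++ w :: u :: t) F - ev (l.map Prod.snd ++ u :: w :: t) F := by
        intro u w t ht
        refine ev_swap (l.map Prod.snd) u w t F F1 fun a c p q ha hc' => hF1 a c p q ?_ ?_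
        · rw [ha, List.length_map, hl]
        · simp [wh, hc', ht]
      have hZ1 : ∀ c' q', CarN q1' c c' q' →
          ev (((l ++ [y1]) ++ (lab, c') :: (q' ++ r)).map Prod.snd) F1 = 0 := by
        intro c' q' hN
        have hlen : q'.length = B.length := by
          have := congrArg List.length hN.toR.labels
          rw [List.length_map, List.length_map] at this
          rw [this, hq1]
        have h1 := hZ c' (y1 :: q') (CarN.keep y1 q1' c c' q' hN)
        have h2 := hZ y1.2 ((y1.1, c') :: q') (CarN.swap y1 q1' c c' q' hN.toR)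
        have h3 := hsw y1.2 c' ((q' ++ r).map Prod.snd) (by simp [hlen, hr])
        have e0 : ((l ++ [y1]) ++ (lab, c') :: (q' ++ r)).map Prod.snd =
            l.map Prod.snd ++ y1.2 :: c' :: (q' ++ r).map Prod.snd := by simp
        have e1 : (l ++ (lab, c') :: (y1 :: q' ++ r)).map Prod.snd =
            l.map Prod.snd ++ c' :: y1.2 :: (q' ++ r).map Prod.snd := by simp
        have e2 : (l ++ (lab, y1.2) :: ((y1.1, c') :: q' ++ r)).map Prod.snd =
            l.map Prod.snd ++ y1.2 :: c' :: (q' ++ r).map Prod.snd := by simp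
        rw [e1] at h1
        rw [e2] at h2
        rw [e0, h3, h1, h2, sub_zero]
      have key := q10 β (l ++ [y1]) r q1' lab c (by simp [hl]) hr hq1 hZ1
      have h2 := hZ y1.2 ((y1.1, c) :: q1') (CarN.swap y1 q1' c c q1' (CarR.refl q1' c))
      have h3 := hsw y1.2 c ((q1' ++ r).map Prod.snd) (by simp [hq1, hr])
      have e0 : (l ++ (y1 :: q1' ++ (lab, c) :: r)).map Prod.snd =
          ((l ++ [y1]) ++ (q1' ++ (lab, c) :: r)).map Prod.snd := by simp
      have e1 : ((l ++ [y1]) ++ (lab, c) :: (q1' ++ r)).map Prod.snd =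
          l.map Prod.snd ++ y1.2 :: c :: (q1' ++ r).map Prod.snd := by simp
      have e2 : (l ++ (lab, y1.2) :: ((y1.1, c) :: q1' ++ r)).map Prod.snd =
          l.map Prod.snd ++ y1.2 :: c :: (q1' ++ r).map Prod.snd := by simp
      have e3 : (l ++ (lab, c) :: (y1 :: q1' ++ r)).map Prod.snd =
          l.map Prod.snd ++ c :: y1.2 :: (q1' ++ r).map Prod.snd := by simp
      rw [e2] at h2
      rw [e0, key, e1, h3, h2, sub_zero, e3]

end Pool.Agent.H7.WB
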