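import Pool.Agent.H7.WB.Star

namespace Pool.Agent.H7.WB

open Finset BigOperators

/-- `CarR q c c' q'`: the leg of a new vertex passes the ends `q` (listed from the vertex outwards,
with labels and vectors) and has the target vector `c`. After resolving every crossing in one of two ways,
the leg has the vector `c'` and the passed ends have the vectors in `q'`. -/
inductive CarR {β : Type} : List (β × Vec) → Vec → Vec → List (β × Vec) → Prop
  | nil (c : Vec) : CarR [] c c []
  | keep (y : β × Vec) (q : List (β × Vec)) (c c' : Vec) (q' : List (β × Vec)) (h : CarR q c c' q') :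
      CarR (y :: q) c c' (y :: q')
  | swap (y : β × Vec) (q : List (β × Vec)) (c c' : Vec) (q' : List (β × Vec)) (h : CarR q c c' q') :
      CarR (y :: q) c y.2 ((y.1, c') :: q')

/-- the same with at least one crossing smoothed -/
inductive CarN {β : Type} : List (β × Vec) → Vec → Vec → List (β × Vec) → Prop
  | keep (y : β × Vec) (q : List (β × Vec)) (c c' : Vec) (q' : List (β × Vec)) (h : CarN q c c' q') :
      CarN (y :: q) c c' (y :: q')
  | swap (y : β × Vec) (q : List (β × Vec)) (c c' : Vec) (q' : List (β × Vec)) (h : CarR q c c' q') :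
      CarN (y :: q) c y.2 ((y.1, c') :: q')

theorem CarR.refl {β : Type} (q : List (β × Vec)) (c : Vec) : CarR q c c q := by
  induction q with
  | nil => exact CarR.nil c
  | cons y q ih => exact CarR.keep y q c c q ih

theorem CarN.toR {β : Type} {q : List (β × Vec)} {c c' : Vec} {q' : List (β × Vec)}
    (h : CarN q c c' q') : CarR q c c' q' := by
  induction h with
  | keep y q c c' q' h ih => exact CarR.keep y q c c' q' ih
  | swap y q c c' q' h => exact CarR.swap y q c c' q' h

theorem CarR.labels {β : Type} {q : List (β × Vec)} {c c' : Vec} {q' : List (β × Vec)}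
    (h : CarR q c c' q') : q'.map Prod.fst = q.map Prod.fst := by
  induction h with
  | nil c => rfl
  | keep y q c c' q' h ih => simp [ih]
  | swap y q c c' q' h ih => simp [ih]

/-- being an element of a triple -/
def Mem3 {α : Type} (p : α) (t : α × α × α) : Prop := p = t.1 ∨ p = t.2.1 ∨ p = t.2.2

/-- vanishing relation between the functions before and after the insertion of a vertex -/
def StepV {α : Type} (L Pr Q R : List α) (f g : List Vec → ℂ) : Prop :=
  ∀ (l pr q r : List (α × Vec)) (x1 x2 x3 : α) (a b c : Vec), l.map Prod.fst = L →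
    pr.map Prod.fst = Pr → q.map Prod.fst = Q → r.map Prod.fst = R →
    (∀ a' pr' c' q', CarR pr a a' pr' → CarR q c c' q' →
      a' = b ∨ b = c' ∨ a' = c' ∨ f ((l ++ (pr'.reverse ++ (q' ++ r))).map Prod.snd) = 0) →
    g ((l ++ (x1, a) :: (pr.reverse ++ (x2, b) :: (q ++ (x3, c) :: r))).map Prod.snd) = 0

/-- diagrams of tripods, inserted one after the other: labels of the ends and state sum -/
inductive DV {α : Type} [LinearOrder α] : List (α × α × α) → List α → (List Vec → ℂ) → Prop
  | nil (f : List Vec → ℂ) : DV [] [] f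
  | step (T : List (α × α × α)) (L Pr Q R : List α) (f g : List Vec → ℂ) (z : α × α × α)
      (hD : DV T (L ++ (Pr.reverse ++ (Q ++ R))) f) (h12 : z.1 < z.2.1) (h23 : z.2.1 < z.2.2)
      (hL : ∀ y ∈ L, y ≤ z.1) (hP : ∀ y ∈ Pr, z.1 < y ∧ y ≤ z.2.1)
      (hQ : ∀ y ∈ Q, z.2.1 ≤ y ∧ y < z.2.2) (hR : ∀ y ∈ R, z.2.2 ≤ y)
      (hPs : Pr.Pairwise (fun a b => b ≤ a)) (hQs : Q.Pairwise (fun a b => a ≤ b))
      (hW : ∀ t ∈ T, ∀ p q : α, Mem3 p t → Mem3 q t → z.1 < p → p < z.2.2 → z.1 < q →
        q < z.2.2 → p = q)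
      (hS : StepV L Pr Q R f g) :
      DV (z :: T) (L ++ z.1 :: (Pr.reverse ++ z.2.1 :: (Q ++ z.2.2 :: R))) g

end Pool.Agent.H7.WB
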