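import Pool.Agent.H7.WB.GDefs

/-!
The mirror image of ladderR: the leg of a new vertex passes the white ends of B to the left.
-/

namespace Pool.Agent.H7.WB

open Finset BigOperators

theorem ladderL (B : List ℕ) : ∀ (L R : List (ℕ × Bool)) (E : List (ℕ × ℕ)) (V : Finset ℕ)
    (F : List (Fin 3) → ℂ) (z : ℕ),
    Planar (L ++ ((wh B).reverse ++ (z, true) :: R)) E V F → NonElliptic E → z ∈ V →
    (∀ b ∈ B, b ∈ V) → B.Nodup → z ∉ B → (∀ b ∈ B, ∀ t, (z, t) ∈ E → (b, t) ∉ E) →
    ∃ (Y : List ℕ) (z' : ℕ) (E' : List (ℕ × ℕ)) (V' : Finset ℕ) (F' : List (Fin 3) → ℂ),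
      Planar (L ++ (z', true) :: ((wh Y).reverse ++ R)) E' V' F' ∧ NonElliptic E' ∧
      V ⊆ V' ∧ Y.length = B.length ∧ Y.Nodup ∧
      (∀ y ∈ Y, y ∉ V ∧ y ∈ V') ∧ z' ∈ V' ∧ (z' = z ∨ z' ∉ V) ∧
      (∀ e ∈ E', e ∈ E ∨ (e.2 ∉ V ∧ (e.1 ∈ B ∨ e.1 = z ∨ e.1 ∉ V))) ∧
      ∀ (β : Type) (l r q : List (β × Vec)) (lab : β) (c : Vec), l.length = L.length →
        r.length = R.length → q.length = B.length →
        (∀ c' q', CarN q c c' q' →
          ev ((l ++ (q'.reverse ++ (lab, c') :: r)).map Prod.snd) F = 0) →
        ev ((l ++ (lab, c) :: (q.reverse ++ r)).map Prod.snd) F' =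
          ev ((l ++ (q.reverse ++ (lab, c) :: r)).map Prod.snd) F := by
  induction B with
  | nil =>
    intro L R E V F z hP hE hz _ _ _ _
    refine ⟨[], z, E, V, F, by simpa using hP, hE, Finset.Subset.refl _, rfl, List.nodup_nil,
      by simp, hz, Or.inl rfl, fun e he => Or.inl he, ?_⟩
    intro β l r q lab c _ _ hq _
    have hq0 : q = [] := List.length_eq_zero_iff.1 (by simpa using hq)
    subst hq0
    simp
  | cons b B ih =>
    intro L R E V F z hP hE hz hB hBn hzB hc
    have hV := (planar_mem hP).1
    obtain ⟨x, hx⟩ := Infinite.exists_notMem_finset V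
    obtain ⟨y, hy'⟩ := Infinite.exists_notMem_finset (V ∪ {x})
    have hy : y ∉ V := fun h => hy' (Finset.mem_union_left _ h)
    have hxy : x ≠ y := fun h => hy' (by simp [h])
    have hzb : z ≠ b := fun h => hzB (by simp [h])
    have hbV : b ∈ V := hB b (by simp)
    have hBV : ∀ b' ∈ B, b' ∈ V := fun b' h => hB b' (by simp [h])
    have hP' : Planar ((L ++ (wh B).reverse) ++ (b, true) :: (z, true) :: R) E V F := by
      simpa using hP
    obtain ⟨F1, hP1, hF1⟩ := H_step hP' x y hx hy hxy
    have hE1 : NonElliptic ((y, x) :: (z, x) :: (b, x) :: E) :=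
      nonElliptic_H hE hV hbV hz hzb.symm hx hy
        (fun t h1 h2 => hc b (by simp) t h2 h1)
    obtain ⟨Y, z', E', V', F', q1, q2, q4, q5, q6, q7, q8, q9, q11, q10⟩ :=
      ih L ((y, true) :: R) ((y, x) :: (z, x) :: (b, x) :: E) (V ∪ {x} ∪ {y}) F1 y
        (by simpa using hP1) hE1 (by simp)
        (fun b' h => by simp [hBV b' h]) (List.nodup_cons.1 hBn).2
        (fun h => hy (hBV y h)) (by
          intro b' hb' t ht ht'
          have hyt : t = x := by
            simp only [List.mem_cons, Prod.mk.injEq] at ht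
            rcases ht with h | h | h | h
            · exact h.2
            · exact h.2
            · exact h.2
            · exact absurd (hV _ h).1 hy
          subst hyt
          simp only [List.mem_cons, Prod.mk.injEq] at ht'
          rcases ht' with h | h | h | h
          · exact hy (h.1 ▸ hBV b' hb')
          · exact hzB (by rw [← h.1]; simp [hb'])
          · exact (List.nodup_cons.1 hBn).1 (h.1 ▸ hb')
          · exact hx (hV _ h).2)
    refine ⟨y :: Y, z', E', V', F', by simpa using q1, q2,
      fun a ha => q4 (by simp [ha]), by simp [q5], ?_, ?_, q8, ?_, ?_, ?_⟩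
    · refine List.nodup_cons.2 ⟨fun h => (q7 y h).1 (by simp), q6⟩
    · intro a ha
      rcases List.mem_cons.1 ha with rfl | ha
      · exact ⟨hy, q4 (by simp)⟩
      · exact ⟨fun h => (q7 a ha).1 (by simp [h]), (q7 a ha).2⟩
    · right
      rcases q9 with h | h
      · rw [h]; exact hy
      · intro h'; exact h (by simp [h'])
    · intro e he
      rcases q11 e he with h | ⟨h1, h2⟩
      · simp only [List.mem_cons] at h
        rcases h with rfl | rfl | rfl | h
        · exact Or.inr ⟨hx, Or.inr (Or.inr hy)⟩
        · exact Or.inr ⟨hx, Or.inr (Or.inl rfl)⟩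
        · exact Or.inr ⟨hx, Or.inl (by simp)⟩
        · exact Or.inl h
      · refine Or.inr ⟨fun h => h1 (by simp [h]), ?_⟩
        rcases h2 with h2 | h2 | h2
        · exact Or.inl (by simp [h2])
        · exact Or.inr (Or.inr (by rw [h2]; exact hy))
        · exact Or.inr (Or.inr fun h => h2 (by simp [h]))
    · intro β l r q lab c hl hr hq hZ
      obtain ⟨y1, q1', rfl⟩ : ∃ y1 q1', q = y1 :: q1' := by
        cases q with
        | nil => simp at hq
        | cons a t => exact ⟨a, t, rfl⟩
      have hq1 : q1'.length = B.length := by simpa using hq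
      have hsw : ∀ (a : List Vec) (u w : Vec) (t : List Vec), a.length = L.length + B.length →
          t.length = R.length →
          ev (a ++ u :: w :: t) F1 = ev (a ++ w :: u :: t) F - ev (a ++ u :: w :: t) F := by
        intro a u w t ha ht
        refine ev_swap a u w t F F1 fun a' c' p q ha' hc' => hF1 a' c' p q ?_ (by omega)
        simp [wh, ha', ha]
      have hlen : ∀ c' q', CarR q1' c c' q' → q'.length = B.length := by
        intro c' q' h
        have := congrArg List.length h.labels
        simpa [hq1] using this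
      -- the move at the two ends in vectors
      have hmv : ∀ (c' : Vec) (q' : List (β × Vec)), q'.length = B.length →
          ev ((l ++ (q'.reverse ++ (lab, c') :: (y1 :: r))).map Prod.snd) F1 =
            ev ((l ++ ((y1 :: q').reverse ++ (lab, c') :: r)).map Prod.snd) F -
              ev ((l ++ (((y1.1, c') :: q').reverse ++ (lab, y1.2) :: r)).map Prod.snd) F := by
        intro c' q' hq'
        have := hsw ((l ++ q'.reverse).map Prod.snd) c' y1.2 (r.map Prod.snd)
          (by simp [hl, hq']) (by simp [hr])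
        simpa using this
      have key := q10 β l (y1 :: r) q1' lab c hl (by simp [hr]) hq1 (by
        intro c' q' h
        rw [hmv c' q' (hlen c' q' h.toR), hZ c' (y1 :: q') (CarN.keep y1 q1' c c' q' h),
          hZ y1.2 ((y1.1, c') :: q') (CarN.swap y1 q1' c c' q' h.toR), sub_zero])
      have e1 : l ++ (lab, c) :: ((y1 :: q1').reverse ++ r) =
          l ++ (lab, c) :: (q1'.reverse ++ (y1 :: r)) := by simp
      rw [e1, key, hmv c q1' hq1,
        hZ y1.2 ((y1.1, c) :: q1') (CarN.swap y1 q1' c c q1' (CarR.refl q1' c)), sub_zero]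

end Pool.Agent.H7.WB
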