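import Pool.Agent.H7.WB.GB

/-!
PROOF. Use hM with l = L.map (fun y => (y, v y)), pr = Pr.map ..., q, r similarly, x1 x2 x3 = z1 z2 z3,
a = v z1, b = v z2, c = v z3.
First hypothesis: CarN pr a a' pr', CarR q c c' q'. Lemma K6 (induction on CarN): if Pr is decreasing
(weakly), all labels of pr are <= z2 and s.2 = v s.1 for all s in pr, then a' = v z2 or there is s in pr' with
s.1 < z2 and s.2 = a. (keep: ih. swap y: the leg has y.2 = v y.1; if y.1 = z2 done; otherwise y.1 < z2, all labels of the
rest are < z2, and by Lemma K7 the vector a is in (y.1, a') :: pr'.)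
Lemma K7 (induction): CarR p a a' p' implies a' = a or there is s in p' with s.2 = a.
If a' = v z2 = b done. Otherwise f (...) = 0 by DV.vanish hD with x = z1, bd = z2, w = v z1,
S = l ++ (pr'.reverse ++ (q' ++ r)) (labels by CarR.labels): elements with label z1 are in l only (labels in pr' are
> z1, in q' > z2, in r >= z3); hypothesis on T: hW2; the witness is in pr', its label is > z1.
Second hypothesis: CarN q c c' q': there is s in q' with s.2 = c (keep: ih; swap: K7), so f (...) = 0 by
DV.vanish' hD with x = z3, bd = z2, w = v z3: elements with label z3 are in r only; hypothesis on T: hW3.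
-/

namespace Pool.Agent.H7.WB

open Finset BigOperators

/-- main relation between the functions before and after the insertion of a vertex -/
def StepM {α : Type} (L Pr Q R : List α) (f g : List Vec → ℂ) : Prop :=
  ∀ (l pr q r : List (α × Vec)) (x1 x2 x3 : α) (a b c : Vec), l.map Prod.fst = L →
    pr.map Prod.fst = Pr → q.map Prod.fst = Q → r.map Prod.fst = R →
    (∀ a' pr' c' q', CarN pr a a' pr' → CarR q c c' q' →
      a' = b ∨ b = c' ∨ a' = c' ∨ f ((l ++ (pr'.reverse ++ (q' ++ r))).map Prod.snd) = 0) →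
    (∀ c' q', CarN q c c' q' →
      a = b ∨ b = c' ∨ a = c' ∨ f ((l ++ (pr.reverse ++ (q' ++ r))).map Prod.snd) = 0) →
    g ((l ++ (x1, a) :: (pr.reverse ++ (x2, b) :: (q ++ (x3, c) :: r))).map Prod.snd) =
      f ((l ++ (pr.reverse ++ (q ++ r))).map Prod.snd) *
        (Matrix.of fun i j : Fin 3 => (![a, b, c] i) j).det

private theorem k7 {β : Type} {q : List (β × Vec)} {c c' : Vec} {q' : List (β × Vec)}
    (h : CarR q c c' q') : c' = c ∨ ∃ s ∈ q', s.2 = c := by
  induction h with
  | nil c => exact Or.inl rfl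
  | keep y q c c' q' h ih =>
    rcases ih with ih | ⟨s, hs, hs2⟩
    · exact Or.inl ih
    · exact Or.inr ⟨s, List.mem_cons_of_mem _ hs, hs2⟩
  | swap y q c c' q' h ih =>
    right
    rcases ih with ih | ⟨s, hs, hs2⟩
    · exact ⟨(y.1, c'), List.mem_cons_self, ih⟩
    · exact ⟨s, List.mem_cons_of_mem _ hs, hs2⟩

private theorem k8 {β : Type} {q : List (β × Vec)} {c c' : Vec} {q' : List (β × Vec)}
    (h : CarN q c c' q') : ∃ s ∈ q', s.2 = c := by
  induction h with
  | keep y q c c' q' h ih =>
    obtain ⟨s, hs, hs2⟩ := ih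
    exact ⟨s, List.mem_cons_of_mem _ hs, hs2⟩
  | swap y q c c' q' h =>
    rcases k7 h with ih | ⟨s, hs, hs2⟩
    · exact ⟨(y.1, c'), List.mem_cons_self, ih⟩
    · exact ⟨s, List.mem_cons_of_mem _ hs, hs2⟩

private theorem fst_mem {β : Type} {p p' : List (β × Vec)} (h : p'.map Prod.fst = p.map Prod.fst)
    {s : β × Vec} (hs : s ∈ p') : s.1 ∈ p.map Prod.fst := by
  rw [← h]
  exact List.mem_map_of_mem hs

private theorem k6 {α : Type} [LinearOrder α] (v : α → Vec) (m : α) {p : List (α × Vec)}
    {a a' : Vec} {p' : List (α × Vec)} (h : CarN p a a' p')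
    (hp : (p.map Prod.fst).Pairwise (fun a b => b ≤ a)) (hm : ∀ y ∈ p.map Prod.fst, y ≤ m)
    (hv : ∀ s ∈ p, s.2 = v s.1) : a' = v m ∨ ∃ s ∈ p', s.1 < m ∧ s.2 = a := by
  induction h with
  | keep y q c c' q' h ih =>
    rw [List.map_cons, List.pairwise_cons] at hp
    rcases ih hp.2 (fun z hz => hm z (by rw [List.map_cons]; exact List.mem_cons_of_mem _ hz))
      (fun s hs => hv s (List.mem_cons_of_mem _ hs)) with ih | ⟨s, hs, hs2⟩
    · exact Or.inl ih
    · exact Or.inr ⟨s, List.mem_cons_of_mem _ hs, hs2⟩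
  | swap y q c c' q' h =>
    rw [List.map_cons, List.pairwise_cons] at hp
    have hy : y.1 ≤ m := hm y.1 (by rw [List.map_cons]; exact List.mem_cons_self)
    rcases hy.lt_or_eq with hy | hy
    · right
      rcases k7 h with ih | ⟨s, hs, hs2⟩
      · exact ⟨(y.1, c'), List.mem_cons_self, hy, ih⟩
      · refine ⟨s, List.mem_cons_of_mem _ hs, ?_, hs2⟩
        exact lt_of_le_of_lt (hp.1 s.1 (fst_mem h.labels hs)) hy
    · left
      rw [hv y List.mem_cons_self, hy]

theorem main_eval {α : Type} [LinearOrder α] (T : List (α × α × α)) (L Pr Q R : List α)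
    (f g : List Vec → ℂ) (z : α × α × α) (hD : DV T (L ++ (Pr.reverse ++ (Q ++ R))) f)
    (h12 : z.1 < z.2.1) (h23 : z.2.1 < z.2.2)
    (hL : ∀ y ∈ L, y ≤ z.1) (hP : ∀ y ∈ Pr, z.1 < y ∧ y ≤ z.2.1)
    (hQ : ∀ y ∈ Q, z.2.1 < y ∧ y < z.2.2) (hR : ∀ y ∈ R, z.2.2 ≤ y)
    (hPs : Pr.Pairwise (fun a b => b ≤ a))
    (hW2 : ∀ t ∈ T, ∀ p, Mem3 p t → z.1 < p → p < z.2.1 → Mem3 z.1 t)
    (hW3 : ∀ t ∈ T, ∀ p, Mem3 p t → z.2.1 < p → p < z.2.2 → Mem3 z.2.2 t)
    (hM : StepM L Pr Q R f g) (v : α → Vec) :
    g ((L ++ z.1 :: (Pr.reverse ++ z.2.1 :: (Q ++ z.2.2 :: R))).map v) =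
      f ((L ++ (Pr.reverse ++ (Q ++ R))).map v) *
        (Matrix.of fun i j : Fin 3 => (![v z.1, v z.2.1, v z.2.2] i) j).det := by
  have h13 : z.1 < z.2.2 := h12.trans h23
  have hfst : ∀ K : List α, (K.map fun y => (y, v y)).map Prod.fst = K := by
    intro K
    rw [List.map_map]
    exact List.map_id'' (fun _ => rfl) K
  have hval : ∀ K : List α, ∀ s ∈ K.map fun y => (y, v y), s.2 = v s.1 := by
    intro K s hs
    rw [List.mem_map] at hs
    obtain ⟨y, _, rfl⟩ := hs
    rfl
  have hkey := hM (L.map fun y => (y, v y)) (Pr.map fun y => (y, v y)) (Q.map fun y => (y, v y))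
    (R.map fun y => (y, v y)) z.1 z.2.1 z.2.2 (v z.1) (v z.2.1) (v z.2.2) (hfst L) (hfst Pr)
    (hfst Q) (hfst R) ?_ ?_
  · have e1 : (((L.map fun y => (y, v y)) ++ (z.1, v z.1) :: ((Pr.map fun y => (y, v y)).reverse ++
        (z.2.1, v z.2.1) :: ((Q.map fun y => (y, v y)) ++ (z.2.2, v z.2.2) ::
          (R.map fun y => (y, v y))))).map Prod.snd)
        = (L ++ z.1 :: (Pr.reverse ++ z.2.1 :: (Q ++ z.2.2 :: R))).map v := by
      simp [List.map_map, Function.comp_def, List.map_reverse]
    have e2 : (((L.map fun y => (y, v y)) ++ ((Pr.map fun y => (y, v y)).reverse ++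
        ((Q.map fun y => (y, v y)) ++ (R.map fun y => (y, v y))))).map Prod.snd)
        = (L ++ (Pr.reverse ++ (Q ++ R))).map v := by
      simp [List.map_map, Function.comp_def, List.map_reverse]
    rw [e1, e2] at hkey
    exact hkey
  · intro a' pr' c' q' hN hR'
    have hlp := hN.toR.labels
    have hlq := hR'.labels
    rcases k6 v z.2.1 hN (by rw [hfst]; exact hPs) (by
      intro y hy
      rw [hfst] at hy
      exact (hP y hy).2) (hval Pr) with h1 | ⟨s, hs, hs1, hs2⟩
    · exact Or.inl h1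
    · right; right; right
      have hsP : ∀ s ∈ pr', s.1 ∈ Pr := by
        intro s hs
        have := fst_mem hlp hs
        rwa [hfst] at this
      have hsQ : ∀ s ∈ q', s.1 ∈ Q := by
        intro s hs
        have := fst_mem hlq hs
        rwa [hfst] at this
      refine DV.vanish hD z.1 z.2.1 (v z.1) _ ?_ hW2 ?_ ⟨s, ?_, (hP _ (hsP s hs)).1, hs1, hs2⟩
      · rw [List.map_append, List.map_append, List.map_append, List.map_reverse, hlp, hlq, hfst,
          hfst, hfst, hfst]
      · intro t ht ht1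
        rw [List.mem_append, List.mem_append, List.mem_append, List.mem_reverse] at ht
        rcases ht with ht | ht | ht | ht
        · rw [hval L t ht, ht1]
        · exact absurd ht1 (hP _ (hsP t ht)).1.ne'
        · exact absurd ht1 (h12.trans (hQ _ (hsQ t ht)).1).ne'
        · have h5 : t.1 ∈ R := by
            have := List.mem_map_of_mem (f := Prod.fst) ht
            rwa [hfst] at this
          exact absurd ht1 (lt_of_lt_of_le h13 (hR _ h5)).ne'
      · rw [List.mem_append, List.mem_append, List.mem_reverse]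
        exact Or.inr (Or.inl hs)
  · intro c' q' hN
    right; right; right
    have hlq := hN.toR.labels
    have hsQ : ∀ s ∈ q', s.1 ∈ Q := by
      intro s hs
      have := fst_mem hlq hs
      rwa [hfst] at this
    obtain ⟨s, hs, hs2⟩ := k8 hN
    refine DV.vanish' hD z.2.2 z.2.1 (v z.2.2) _ ?_ hW3 ?_ ⟨s, ?_, (hQ _ (hsQ s hs)).1,
      (hQ _ (hsQ s hs)).2, hs2⟩
    · rw [List.map_append, List.map_append, List.map_append, List.map_reverse, hlq, hfst,
        hfst, hfst, hfst]
    · intro t ht ht1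
      rw [List.mem_append, List.mem_append, List.mem_append, List.mem_reverse] at ht
      rcases ht with ht | ht | ht | ht
      · have h5 : t.1 ∈ L := by
          have := List.mem_map_of_mem (f := Prod.fst) ht
          rwa [hfst] at this
        exact absurd ht1 (lt_of_le_of_lt (hL _ h5) h13).ne
      · have h5 : t.1 ∈ Pr := by
          have := List.mem_map_of_mem (f := Prod.fst) ht
          rwa [hfst] at this
        exact absurd ht1 (lt_of_le_of_lt (hP _ h5).2 h23).ne
      · exact absurd ht1 (hQ _ (hsQ t ht)).2.ne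
      · rw [hval R t ht, ht1]
    · rw [List.mem_append, List.mem_append, List.mem_append]
      exact Or.inr (Or.inr (Or.inl hs))

end Pool.Agent.H7.WB
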