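import Pool.Agent.H7.WB.GD
import Pool.Agent.H7.WB.GE
import Pool.Agent.H7.WB.GF

namespace Pool.Agent.H7.WB

open Finset BigOperators

theorem det_eq_zero (a b c : Vec) (h : a = b ∨ b = c ∨ a = c) :
    (Matrix.of fun i j : Fin 3 => (![a, b, c] i) j).det = 0 := by
  rw [Matrix.det_fin_three]
  rcases h with rfl | rfl | rfl <;> simp <;> ring

theorem StepM.toV {α : Type} {L Pr Q R : List α} {f g : List Vec → ℂ} (h : StepM L Pr Q R f g) :
    StepV L Pr Q R f g := by
  intro l pr q r x1 x2 x3 a b c hl hp hq hr H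
  rw [h l pr q r x1 x2 x3 a b c hl hp hq hr (fun a' pr' c' q' h1 h2 => H a' pr' c' q' h1.toR h2)
    (fun c' q' h2 => H a pr c' q' (CarR.refl pr a) h2.toR)]
  rcases H a pr c q (CarR.refl pr a) (CarR.refl q c) with h | h | h | h
  · rw [det_eq_zero a b c (Or.inl h), mul_zero]
  · rw [det_eq_zero a b c (Or.inr (Or.inl h)), mul_zero]
  · rw [det_eq_zero a b c (Or.inr (Or.inr h)), mul_zero]
  · rw [h, zero_mul]

theorem insert_web (Bl Bp Bq Br : List ℕ) (E : List (ℕ × ℕ)) (V : Finset ℕ)
    (F : List (Fin 3) → ℂ) (hP : Planar (wh Bl ++ ((wh Bp).reverse ++ (wh Bq ++ wh Br))) E V F)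
    (hE : NonElliptic E) (hn : (Bp ++ Bq).Nodup) :
    ∃ (x zL zR : ℕ) (YL YR : List ℕ) (E' : List (ℕ × ℕ)) (V' : Finset ℕ)
      (F' : List (Fin 3) → ℂ),
      Planar (wh Bl ++ (zL, true) :: ((wh YL).reverse ++ (x, true) ::
        (wh YR ++ (zR, true) :: wh Br))) E' V' F' ∧ NonElliptic E' ∧
      YL.length = Bp.length ∧ YR.length = Bq.length ∧ YL.Nodup ∧ YR.Nodup ∧
      x ∉ V ∧ (∀ y ∈ YL, y ∉ V ∧ y ≠ x ∧ y ∉ YR ∧ y ≠ zR) ∧ (∀ y ∈ YR, y ∉ V ∧ y ≠ x) ∧
      (zL = x ∨ (zL ∉ V ∧ zL ≠ x ∧ zL ∉ YR ∧ zL ≠ zR)) ∧ zR ∉ V ∧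
      ∀ (α : Type) (L Pr Q R : List α), L.length = Bl.length → Pr.length = Bp.length →
        Q.length = Bq.length → R.length = Br.length →
        StepM L Pr Q R (fun u => ev u F) (fun u => ev u F') := by
  have hmem := planar_mem hP
  obtain ⟨x, hx⟩ := Infinite.exists_notMem_finset V
  have hP0 : Planar ((wh Bl ++ (wh Bp).reverse) ++ (wh Bq ++ wh Br)) E V F := by
    simpa using hP
  obtain ⟨F1, hP1, hF1⟩ := insert_star hP0 x true hx
  have hpV : ∀ b ∈ Bp, b ∈ V := fun b hb => hmem.2 (b, true) (by simp [hb])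
  have hqV : ∀ b ∈ Bq, b ∈ V := fun b hb => hmem.2 (b, true) (by simp [hb])
  have hnp : Bp.Nodup := (List.nodup_append.1 hn).1
  have hnq : Bq.Nodup := (List.nodup_append.1 hn).2.1
  have hpq : ∀ b ∈ Bp, b ∉ Bq := fun b hb hb' => (List.nodup_append.1 hn).2.2 b hb b hb' rfl
  have hP1' : Planar ((wh Bl ++ ((wh Bp).reverse ++ [(x, true), (x, true)])) ++
      (x, true) :: (wh Bq ++ wh Br)) E (V ∪ {x}) F1 := by
    simpa using hP1
  obtain ⟨YR, zR, E2, V2, F2, a1, a2, a3, a4, a5, a6, a7, a8, a9, a10⟩ :=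
    ladderR Bq _ (wh Br) E (V ∪ {x}) F1 x hP1' hE (by simp)
      (fun b hb => by simp [hqV b hb]) hnq (fun h => hx (hqV x h))
      (fun b _ t ht => absurd (hmem.1 _ ht).1 hx)
  have a1' : Planar (wh Bl ++ ((wh Bp).reverse ++ (x, true) ::
      ((x, true) :: (wh YR ++ (zR, true) :: wh Br)))) E2 V2 F2 := by
    simpa using a1
  have hVV2 : ∀ y, y ∈ V → y ∈ V2 := fun y hy => a3 (by simp [hy])
  have hxV2 : x ∈ V2 := a3 (by simp)
  have hcond : ∀ b ∈ Bp, ∀ t, (x, t) ∈ E2 → (b, t) ∉ E2 := by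
    intro b hb t h1 h2
    rcases a9 _ h1 with h1 | h1
    · exact hx (hmem.1 _ h1).1
    · rcases a9 _ h2 with h2 | h2
      · exact h1.1 (by simp [(hmem.1 _ h2).2])
      · rcases h2.2 with h | h | h
        · exact hpq b hb h
        · exact hx (by rw [← (show b = x from h)]; exact hpV b hb)
        · exact h (by simp [hpV b hb])
  obtain ⟨YL, zL, E3, V3, F3, b1, b2, b3, b4, b5, b6, b7, b8, b9, b10⟩ :=
    ladderL Bp _ ((x, true) :: (wh YR ++ (zR, true) :: wh Br)) E2 V2 F2 x a1' a2 hxV2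
      (fun b hb => hVV2 b (hpV b hb)) hnp (fun h => hx (hpV x h)) hcond
  refine ⟨x, zL, zR, YL, YR, E3, V3, F3, b1, b2, b4, a4, b5, a5, hx, ?_, ?_, ?_, ?_, ?_⟩
  · intro y hy
    have h := (b6 y hy).1
    exact ⟨fun h' => h (hVV2 y h'), fun h' => h (h' ▸ hxV2), fun h' => h (a6 y h').2,
      fun h' => h (h' ▸ a7)⟩
  · intro y hy
    have h := (a6 y hy).1
    exact ⟨fun h' => h (by simp [h']), fun h' => h (by simp [h'])⟩
  · rcases b8 with h | h
    · exact Or.inl h
    · right
      exact ⟨fun h' => h (hVV2 _ h'), fun h' => h (h' ▸ hxV2), fun h' => h (a6 _ h').2,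
        fun h' => h (h' ▸ a7)⟩
  · rcases a8 with h | h
    · rw [h]; exact hx
    · exact fun h' => h (by simp [h'])
  · intro α L Pr Q R hL hPr hQ hR l pr q r x1 x2 x3 a b c hl hp hq hr H1 H2
    have ll : l.length = Bl.length := by rw [← hL, ← hl, List.length_map]
    have lp : pr.length = Bp.length := by rw [← hPr, ← hp, List.length_map]
    have lq : q.length = Bq.length := by rw [← hQ, ← hq, List.length_map]
    have lr : r.length = Br.length := by rw [← hR, ← hr, List.length_map]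
    -- evaluation of F1
    have hdet : ∀ (l' r' : List (α × Vec)) (u1 u2 u3 : Vec), l'.length = Bl.length + Bp.length →
        r'.length = Bq.length + Br.length →
        ev ((l' ++ (x1, u1) :: (x2, u2) :: (x3, u3) :: r').map Prod.snd) F1 =
          ev ((l' ++ r').map Prod.snd) F *
            (Matrix.of fun i j : Fin 3 => (![u1, u2, u3] i) j).det := by
      intro l' r' u1 u2 u3 hl' hr'
      let Fs : List (Fin 3) → ℂ := fun t => match t with
        | [p, q, s] => sgn p q s
        | _ => 0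
      have := ev_insert (l'.map Prod.snd) [u1, u2, u3] (r'.map Prod.snd) F Fs F1 (by
        intro a' b' c' ha' hb' hc'
        obtain ⟨p1, p2, p3, rfl⟩ := List.length_eq_three.1 hb'
        have := hF1 a' c' p1 p2 p3 (by simp [ha', hl'])
        simpa using this)
      rw [ev_sgn u1 u2 u3 Fs fun p q r => rfl] at this
      have e : (l' ++ r').map Prod.snd = l'.map Prod.snd ++ r'.map Prod.snd := by simp
      rw [e]
      refine Eq.trans ?_ this
      simp
    have hz : ∀ (l' r' : List (α × Vec)) (u1 u2 u3 : Vec), l'.length = Bl.length + Bp.length →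
        r'.length = Bq.length + Br.length →
        (u1 = u2 ∨ u2 = u3 ∨ u1 = u3 ∨ ev ((l' ++ r').map Prod.snd) F = 0) →
        ev ((l' ++ (x1, u1) :: (x2, u2) :: (x3, u3) :: r').map Prod.snd) F1 = 0 := by
      intro l' r' u1 u2 u3 hl' hr' h
      rw [hdet l' r' u1 u2 u3 hl' hr']
      rcases h with h | h | h | h
      · rw [det_eq_zero _ _ _ (Or.inl h), mul_zero]
      · rw [det_eq_zero _ _ _ (Or.inr (Or.inl h)), mul_zero]
      · rw [det_eq_zero _ _ _ (Or.inr (Or.inr h)), mul_zero]
      · rw [h, zero_mul]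
    have carlen : ∀ {p : List (α × Vec)} {u u' : Vec} {p' : List (α × Vec)}, CarR p u u' p' →
        p'.length = p.length := by
      intro p u u' p' h
      have := congrArg List.length h.labels
      simpa using this
    -- F2 in terms of F1
    have e2 : ∀ (pr' : List (α × Vec)) (a' : Vec), pr'.length = Bp.length →
        (∀ c' q', CarN q c c' q' →
          ev (((l ++ pr'.reverse) ++ (x1, a') :: (x2, b) :: (x3, c') :: (q' ++ r)).map Prod.snd) F1
            = 0) →
        ev ((l ++ (pr'.reverse ++ (x1, a') :: ((x2, b) :: (q ++ (x3, c) :: r)))).map Prod.snd) F2 =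
          ev (((l ++ pr'.reverse) ++ (x1, a') :: (x2, b) :: (x3, c) :: (q ++ r)).map Prod.snd) F1 := by
      intro pr' a' hp' hh
      have := a10 α ((l ++ pr'.reverse) ++ [(x1, a'), (x2, b)]) r q x3 c
        (by simp [ll, hp']) (by simp [lr]) lq (by
          intro c' q' h
          have := hh c' q' h
          simpa using this)
      simpa using this
    have e3 := b10 α l ((x2, b) :: (q ++ (x3, c) :: r)) pr x1 a (by simp [ll])
      (by simp [lq, lr, a4]) lp (by
        intro a' pr' h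
        have hp' : pr'.length = Bp.length := by rw [carlen h.toR, lp]
        rw [e2 pr' a' hp' (by
          intro c' q' h'
          refine hz _ _ _ _ _ (by simp [ll, hp']) (by simp [carlen h'.toR, lq, lr]) ?_
          have := H1 a' pr' c' q' h h'.toR
          simpa using this)]
        refine hz _ _ _ _ _ (by simp [ll, hp']) (by simp [lq, lr]) ?_
        have := H1 a' pr' c q h (CarR.refl q c)
        simpa using this)
    show ev _ F3 = ev _ F * _
    rw [e3, e2 pr a lp (by
      intro c' q' h'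
      refine hz _ _ _ _ _ (by simp [ll, lp]) (by simp [carlen h'.toR, lq, lr]) ?_
      have := H2 c' q' h'
      simpa using this), hdet _ _ _ _ _ (by simp [ll, lp]) (by simp [lq, lr])]
    simp

end Pool.Agent.H7.WB
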