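import Pool.Agent.H7.WB.Star

namespace Pool.Agent.H7.WB

open Finset BigOperators

/-- white ends of a labelled list -/
abbrev wl {m : ℕ} (S : List (ℕ × Fin m)) : List (ℕ × Bool) := S.map fun s => (s.1, true)

/-- webs whose first ends go to `o`, the other ends have labels from the arcs `A` -/
def StarWeb {m : ℕ} (o : Fin m) (A : List (Fin m × Fin m)) : Prop :=
  ∃ (B : List ℕ) (S : List (ℕ × Fin m)) (E : List (ℕ × ℕ)) (V : Finset ℕ)
    (F : List (Fin 3) → ℂ),
    Planar (wh B ++ wl S) E V F ∧ NonElliptic E ∧ B.Nodup ∧ S.Nodup ∧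
    (S.map Prod.snd).Pairwise (· ≤ ·) ∧
    (∀ s ∈ S, ∃ p ∈ A, s.2 = p.1 ∨ s.2 = p.2) ∧
    ∀ v : Fin m → Vec, ev (List.replicate B.length (v o) ++ S.map fun s => v s.2) F =
      (A.map fun p => pluecker v o p.1 p.2).prod

theorem starWeb_nil {m : ℕ} (o : Fin m) : StarWeb o [] := by
  refine ⟨[], [], [], ∅, fun _ => 1, Planar.empty _ rfl, ⟨List.nodup_nil, by simp⟩,
    List.nodup_nil, List.nodup_nil, by simp, by simp, by simp [ev]⟩

theorem starWeb_perm {m : ℕ} (o : Fin m) {A A' : List (Fin m × Fin m)} (h : A.Perm A')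
    (hA : StarWeb o A) : StarWeb o A' := by
  obtain ⟨B, S, E, V, F, h1, h2, h3, h4, h5, h6, h7⟩ := hA
  refine ⟨B, S, E, V, F, h1, h2, h3, h4, h5, ?_, ?_⟩
  · intro s hs
    obtain ⟨p, hp, hp'⟩ := h6 s hs
    exact ⟨p, h.mem_iff.1 hp, hp'⟩
  · intro v
    rw [h7 v]
    exact (h.map _).prod_eq

theorem pluecker_eq {m : ℕ} (v : Fin m → Vec) (i j k : Fin m) :
    pluecker v i j k = (Matrix.of fun a b : Fin 3 => (![v i, v j, v k] a) b).det := by
  unfold pluecker
  rw [Matrix.det_fin_three, Matrix.det_fin_three]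
  simp

/-- the wrap: a new tripod around a web -/
theorem starWeb_wrap {m : ℕ} (o a b : Fin m) (A : List (Fin m × Fin m)) (_hoa : o < a)
    (hab : a < b) (hA : ∀ p ∈ A, a ≤ p.1 ∧ p.1 ≤ b ∧ a ≤ p.2 ∧ p.2 ≤ b) (hW : StarWeb o A) :
    StarWeb o ((a, b) :: A) := by
  obtain ⟨B, S, E, V, F, h1, h2, h3, h4, h5, h6, h7⟩ := hW
  have hmem := planar_mem h1
  obtain ⟨c, hc⟩ := Infinite.exists_notMem_finset V
  let Fs : List (Fin 3) → ℂ := fun t => match t with
    | [p, q, s] => sgn p q s
    | _ => 0
  have hst : Planar ([(c, true), (c, true)] ++ [(c, true)]) [] {c} Fs :=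
    Planar.star c true Fs fun p q r => rfl
  obtain ⟨G, hG⟩ := exists_ins Fs F 2 (wh B ++ wl S).length
  have hins := Planar.insert [(c, true), (c, true)] [(c, true)] (wh B ++ wl S) [] E {c} V Fs F G
    hst h1 (by simpa using hc) (fun l s r hl hs _ => hG l s r (by simpa using hl) hs)
  have hins' : Planar ([(c, true)] ++ (c, true) :: (wh B ++ (wl S ++ [(c, true)]))) E ({c} ∪ V) G := by
    simpa using hins
  have hBV : ∀ b' ∈ B, b' ∈ V := fun b' hb' => hmem.2 (b', true) (by simp [hb'])
  obtain ⟨Y, z', E', V', F', q1, q2, q3, q4, q5, q6, q7, q8, q9, q10⟩ :=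
    ladder B [(c, true)] (wl S ++ [(c, true)]) E ({c} ∪ V) G c hins' h2
      (fun e he => ⟨Finset.mem_union_right _ (hmem.1 e he).1,
        Finset.mem_union_right _ (hmem.1 e he).2⟩)
      (by simp) (fun b' hb' => Finset.mem_union_right _ (hBV b' hb')) h3
      (fun h => hc (hBV c h)) (fun b' _ t ht => absurd (hmem.1 _ ht).1 hc)
  have hz'V : z' ∉ V := by
    rcases q9 with h | h
    · rw [h]; exact hc
    · exact fun h' => h (Finset.mem_union_right _ h')
  have hSV : ∀ s ∈ S, s.1 ∈ V := fun s hs => hmem.2 (s.1, true) (by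
    simp only [List.mem_append]; right; exact List.mem_map.2 ⟨s, hs, rfl⟩)
  have hSl : ∀ s ∈ S, a ≤ s.2 ∧ s.2 ≤ b := by
    intro s hs
    obtain ⟨p, hp, hp'⟩ := h6 s hs
    have := hA p hp
    rcases hp' with h | h
    · rw [h]; exact ⟨this.1, this.2.1⟩
    · rw [h]; exact ⟨this.2.2.1, this.2.2.2⟩
  refine ⟨c :: Y, (z', a) :: (S ++ [(c, b)]), E', V', F', ?_, q2, ?_, ?_, ?_, ?_, ?_⟩
  · simpa using q1
  · exact List.nodup_cons.2 ⟨fun h => (q7 c h).1 (by simp), q6⟩
  · refine List.nodup_cons.2 ⟨?_, ?_⟩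
    · intro h
      rcases List.mem_append.1 h with h | h
      · exact hz'V (hSV _ h)
      · simp only [List.mem_singleton, Prod.mk.injEq] at h
        exact absurd h.2 hab.ne
    · rw [List.nodup_append]
      refine ⟨h4, by simp, ?_⟩
      intro s hs t ht hst'
      simp only [List.mem_singleton] at ht
      subst ht
      exact hc (by simpa [hst'] using hSV s hs)
  · simp only [List.map_cons, List.map_append, List.map_nil, List.pairwise_cons,
      List.pairwise_append, List.mem_append, List.mem_map, List.mem_singleton]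
    refine ⟨?_, h5, by simp, ?_⟩
    · rintro x (⟨s, hs, rfl⟩ | rfl)
      · exact (hSl s hs).1
      · exact hab.le
    · rintro x ⟨s, hs, rfl⟩ y rfl
      exact (hSl s hs).2
  · intro s hs
    rcases List.mem_cons.1 hs with rfl | hs
    · exact ⟨(a, b), by simp, Or.inl rfl⟩
    · rcases List.mem_append.1 hs with hs | hs
      · obtain ⟨p, hp, hp'⟩ := h6 s hs
        exact ⟨p, by simp [hp], hp'⟩
      · simp only [List.mem_singleton] at hs
        subst hs
        exact ⟨(a, b), by simp, Or.inr rfl⟩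
  · intro v
    have hins2 : ∀ (u1 u2 u3 : Vec) (s : List Vec), s.length = (wh B ++ wl S).length →
        ev ([u1, u2] ++ s ++ [u3]) G = ev ([u1, u2] ++ [u3]) Fs * ev s F := by
      intro u1 u2 u3 s hs
      exact ev_insert [u1, u2] s [u3] Fs F G fun a' b' c' ha' hb' _ =>
        hG a' b' c' (by simpa using ha') (by rw [hb', hs])
    have hZ : ∀ w : List Vec, w.length = B.length + (wl S ++ [(c, true)]).length →
        ev ([v o] ++ v o :: w) G = 0 := by
      intro w hw
      have hw0 : w ≠ [] := by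
        intro h; subst h; simp at hw
      obtain ⟨w1, u3, rfl⟩ : ∃ w1 u3, w = w1 ++ [u3] :=
        ⟨w.dropLast, w.getLast hw0, (List.dropLast_append_getLast hw0).symm⟩
      have := hins2 (v o) (v o) u3 w1 (by simp at hw ⊢; omega)
      have e0 : ev ([v o, v o] ++ [u3]) Fs = 0 := by
        have := ev_sgn (v o) (v o) u3 Fs fun p q r => rfl
        simp only [List.cons_append, List.nil_append]
        rw [this]
        refine Matrix.det_zero_of_row_eq (i := 0) (j := 1) (by decide) ?_
        ext j
        simp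
      rw [e0, zero_mul] at this
      simpa using this
    have key := q10 [v o] ((S.map fun s => v s.2) ++ [v b]) (v o) (v a) rfl (by simp) hZ
    have e1 : (List.replicate (c :: Y).length (v o) ++
        ((z', a) :: (S ++ [(c, b)])).map fun s => v s.2) =
        [v o] ++ (List.replicate B.length (v o) ++ v a :: ((S.map fun s => v s.2) ++ [v b])) := by
      simp [q5, List.replicate_succ]
    rw [e1, key]
    have e2 : [v o] ++ v a :: (List.replicate B.length (v o) ++
        ((S.map fun s => v s.2) ++ [v b])) =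
        [v o, v a] ++ (List.replicate B.length (v o) ++ S.map fun s => v s.2) ++ [v b] := by
      simp
    rw [e2, hins2 (v o) (v a) (v b) _ (by simp), h7 v]
    simp only [List.map_cons, List.prod_cons]
    congr 1
    rw [pluecker_eq]
    exact ev_sgn (v o) (v a) (v b) Fs fun p q r => rfl

/-- two webs side by side -/
theorem starWeb_union {m : ℕ} (o : Fin m) (A A' : List (Fin m × Fin m))
    (hAA : ∀ p ∈ A, ∀ q ∈ A', p.1 ≤ q.1 ∧ p.1 ≤ q.2 ∧ p.2 ≤ q.1 ∧ p.2 ≤ q.2)
    (hW : StarWeb o A) (hW' : StarWeb o A') : StarWeb o (A ++ A') := by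
  obtain ⟨B, S, E, V, F, h1, h2, h3, h4, h5, h6, h7⟩ := hW
  obtain ⟨B', S', E', V', F', g1, g2, g3, g4, g5, g6, g7⟩ := hW'
  -- shift the second one
  set k := V.sup id + 1 with hk
  have hVk : ∀ x ∈ V, x < k := by
    intro x hx
    have : x ≤ V.sup id := Finset.le_sup (f := id) hx
    omega
  have g1s := planar_shift k g1
  have hd : Disjoint (V'.image (· + k)) V := by
    rw [Finset.disjoint_left]
    intro x hx hx'
    simp only [Finset.mem_image] at hx
    obtain ⟨y, _, rfl⟩ := hx
    have := hVk _ hx'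
    omega
  set Es := E'.map fun e : ℕ × ℕ => (e.1 + k, e.2 + k) with hEs
  have g1s' : Planar (wh (B'.map (· + k)) ++ wl (S'.map fun s => (s.1 + k, s.2))) Es
      (V'.image (· + k)) F' := by
    simpa [Function.comp_def] using g1s
  obtain ⟨G, hG⟩ := exists_ins F' F B'.length (wh B ++ wl S).length
  have hins := Planar.insert (wh (B'.map (· + k))) (wl (S'.map fun s => (s.1 + k, s.2)))
    (wh B ++ wl S) Es E (V'.image (· + k)) V F' F G g1s' h1 hd
    (fun l s r hl hs _ => hG l s r (by simpa using hl) hs)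
  have hm1 := planar_mem h1
  have hm2 := planar_mem g1s'
  refine ⟨B'.map (· + k) ++ B, S ++ S'.map fun s => (s.1 + k, s.2), Es ++ E, (V'.image (· + k)) ∪ V, G, ?_,
    nonElliptic_append (nonElliptic_shift k g2) h2 hm2.1 hm1.1 hd, ?_, ?_, ?_, ?_, ?_⟩
  · simpa using hins
  · rw [List.nodup_append]
    refine ⟨g3.map (add_left_injective k), h3, ?_⟩
    intro x hx y hy hxy
    simp only [List.mem_map] at hx
    obtain ⟨x', _, rfl⟩ := hx
    have : y ∈ V := hm1.2 (y, true) (by simp [hy])
    have := hVk y this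
    omega
  · rw [List.nodup_append]
    refine ⟨h4, ?_, ?_⟩
    · refine g4.map ?_
      rintro ⟨a, b⟩ ⟨c, d⟩ h
      simp only [Prod.mk.injEq] at h
      ext <;> simp <;> omega
    · intro x hx y hy hxy
      simp only [List.mem_map] at hy
      obtain ⟨y', _, rfl⟩ := hy
      have h' : x.1 ∈ V := hm1.2 (x.1, true) (by
        simp only [List.mem_append]; right; exact List.mem_map.2 ⟨x, hx, rfl⟩)
      have := hVk _ h'
      have : x.1 = y'.1 + k := by rw [hxy]
      omega
  · rw [List.map_append, List.pairwise_append]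
    refine ⟨h5, by simpa [Function.comp_def] using g5, ?_⟩
    intro x hx y hy
    simp only [List.mem_map] at hx hy
    obtain ⟨s, hs, rfl⟩ := hx
    obtain ⟨t', ⟨t, ht, rfl⟩, rfl⟩ := hy
    obtain ⟨p, hp, hp'⟩ := h6 s hs
    obtain ⟨q, hq, hq'⟩ := g6 t ht
    have := hAA p hp q hq
    rcases hp' with h | h <;> rcases hq' with g | g <;> simp only [h, g]
    · exact this.1
    · exact this.2.1
    · exact this.2.2.1
    · exact this.2.2.2
  · intro s hs
    rcases List.mem_append.1 hs with hs | hs
    · obtain ⟨p, hp, hp'⟩ := h6 s hs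
      exact ⟨p, by simp [hp], hp'⟩
    · simp only [List.mem_map] at hs
      obtain ⟨t, ht, rfl⟩ := hs
      obtain ⟨q, hq, hq'⟩ := g6 t ht
      exact ⟨q, by simp [hq], hq'⟩
  · intro v
    have := ev_insert (List.replicate B'.length (v o))
      (List.replicate B.length (v o) ++ S.map fun s => v s.2) (S'.map fun s => v s.2) F' F G
      fun a b c ha hb _ => hG a b c (by simpa using ha) (by rw [hb]; simp)
    rw [g7 v, h7 v] at this
    have e0 : ((A ++ A').map fun p => pluecker v o p.1 p.2).prod =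
        (A'.map fun p => pluecker v o p.1 p.2).prod * (A.map fun p => pluecker v o p.1 p.2).prod := by
      rw [List.map_append, List.prod_append, mul_comm]
    rw [e0, ← this]
    congr 1
    simp only [List.length_append, List.length_map, List.replicate_add, List.map_append,
      List.map_map, Function.comp_def, List.append_assoc]

end Pool.Agent.H7.WB
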