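import Pool.Agent.H7.WB.GH
import Pool.Agent.H7.WB.GC

namespace Pool.Agent.H7.WB

open Finset BigOperators

theorem pw_all {m : ℕ} (T : List (Fin m × Fin m × Fin m))
    (h1 : ∀ t ∈ T, t.1 < t.2.1 ∧ t.2.1 < t.2.2)
    (h3 : ∀ s ∈ T, ∀ t ∈ T, WeaklySeparated ({s.1, s.2.1, s.2.2} : Finset (Fin m))
      {t.1, t.2.1, t.2.2})
    (hs : T.Pairwise fun s t => (s.2.2 : ℕ) - (s.1 : ℕ) ≤ (t.2.2 : ℕ) - (t.1 : ℕ)) : PW T := by
  induction T with
  | nil => exact pw_nil m
  | cons z T ih =>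
    rw [List.pairwise_cons] at hs
    have hz := h1 z (by simp)
    have hT : ∀ t ∈ T, t ∈ z :: T := fun t ht => by simp [ht]
    have hzz : z ∈ z :: T := by simp
    exact pw_step T z hz.1 hz.2
      (fun t ht => ws_one z t hz (h1 t (hT t ht)) (h3 t (hT t ht) z hzz) (hs.1 t ht))
      (fun t ht => ws_left z t hz (h1 t (hT t ht)) (h3 t (hT t ht) z hzz) (hs.1 t ht))
      (fun t ht => ws_right z t hz (h1 t (hT t ht)) (h3 t (hT t ht) z hzz) (hs.1 t ht))
      (ih (fun t ht => h1 t (hT t ht)) (fun s hs' t ht => h3 s (hT s hs') t (hT t ht)) hs.2)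

/-- Products of pairwise weakly separated Pluecker coordinates are web invariants. -/
theorem pluecker_monomials (m : ℕ) (T : List (Fin m × Fin m × Fin m))
    (h1 : ∀ t ∈ T, t.1 < t.2.1 ∧ t.2.1 < t.2.2)
    (h3 : ∀ s ∈ T, ∀ t ∈ T, WeaklySeparated ({s.1, s.2.1, s.2.2} : Finset (Fin m))
      {t.1, t.2.1, t.2.2}) :
    IsWebInvariant m (fun v => (T.map fun t => pluecker v t.1 t.2.1 t.2.2).prod) := by
  classical
  set le : (Fin m × Fin m × Fin m) → (Fin m × Fin m × Fin m) → Bool := fun s t =>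
    decide ((s.2.2 : ℕ) - (s.1 : ℕ) ≤ (t.2.2 : ℕ) - (t.1 : ℕ)) with hle
  have hp : (T.mergeSort le).Perm T := List.mergeSort_perm T le
  have hsort : (T.mergeSort le).Pairwise fun s t =>
      (s.2.2 : ℕ) - (s.1 : ℕ) ≤ (t.2.2 : ℕ) - (t.1 : ℕ) := by
    have := List.pairwise_mergeSort (le := le) (fun a b c h h' => by
      simp only [hle, decide_eq_true_eq] at h h' ⊢
      exact h.trans h') (fun a b => by
      simp only [hle, Bool.or_eq_true, decide_eq_true_eq]
      exact Nat.le_total _ _) T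
    exact this.imp fun h => by simpa [hle] using h
  obtain ⟨S, E, V, F, hP, hE, hs, ht, _, hv⟩ := pw_all (T.mergeSort le)
    (fun t ht => h1 t (hp.mem_iff.1 ht))
    (fun s hs t ht => h3 s (hp.mem_iff.1 hs) t (hp.mem_iff.1 ht)) hsort
  refine ⟨S, E, V, F, hP, hE, hs, ?_, ?_⟩
  · exact ht.imp fun h e => by
      subst e
      exact (h rfl).1 rfl
  · intro v
    rw [hv v]
    exact ((hp.map _).prod_eq).symm

end Pool.Agent.H7.WB
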