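import Pool.Agent.H7.WB.Step

namespace Pool.Agent.H7.WB

open Finset BigOperators

theorem nonElliptic_H {E : List (ℕ × ℕ)} {V : Finset ℕ} {z b x y : ℕ} (hE : NonElliptic E)
    (hV : ∀ e ∈ E, e.1 ∈ V ∧ e.2 ∈ V) (hz : z ∈ V) (hb : b ∈ V) (hzb : z ≠ b) (hx : x ∉ V)
    (hy : y ∉ V) (hc : ∀ t, (z, t) ∈ E → (b, t) ∉ E) :
    NonElliptic ((y, x) :: (b, x) :: (z, x) :: E) := by
  have hyb : y ≠ b := fun h => hy (h ▸ hb)
  have hyz : y ≠ z := fun h => hy (h ▸ hz)
  have nx : ∀ w, (w, x) ∉ E := fun w h => hx (hV _ h).2
  have ny : ∀ t, (y, t) ∉ E := fun t h => hy (hV _ h).1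
  refine ⟨?_, ?_⟩
  · simp only [List.nodup_cons, List.mem_cons, Prod.mk.injEq, not_or, not_and]
    exact ⟨⟨fun h => absurd h hyb, fun h => absurd h hyz, ny x⟩,
      ⟨fun h => absurd h.symm hzb, nx b⟩, nx z, hE.1⟩
  · intro w w' c c' hw hc' hh
    simp only [List.mem_cons, Prod.mk.injEq] at hh
    obtain ⟨h1, h2, h3, h4⟩ := hh
    by_cases hcx : c = x
    · subst hcx
      have hc'x : c' ≠ c := fun h => hc' h.symm
      have h3' : (w, c') ∈ E := by
        rcases h3 with h | h | h | h
        · exact absurd h.2 hc'x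
        · exact absurd h.2 hc'x
        · exact absurd h.2 hc'x
        · exact h
      have h4' : (w', c') ∈ E := by
        rcases h4 with h | h | h | h
        · exact absurd h.2 hc'x
        · exact absurd h.2 hc'x
        · exact absurd h.2 hc'x
        · exact h
      rcases h1 with h | h | h | h
      · exact ny _ (h.1 ▸ h3')
      · rcases h2 with g | g | g | g
        · exact ny _ (g.1 ▸ h4')
        · exact hw (h.1.trans g.1.symm)
        · exact hc _ (g.1 ▸ h4') (h.1 ▸ h3')
        · exact nx _ g
      · rcases h2 with g | g | g | g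
        · exact ny _ (g.1 ▸ h4')
        · exact hc _ (h.1 ▸ h3') (g.1 ▸ h4')
        · exact hw (h.1.trans g.1.symm)
        · exact nx _ g
      · exact nx _ h
    · have h1' : (w, c) ∈ E := by
        rcases h1 with h | h | h | h
        · exact absurd h.2 hcx
        · exact absurd h.2 hcx
        · exact absurd h.2 hcx
        · exact h
      have h2' : (w', c) ∈ E := by
        rcases h2 with h | h | h | h
        · exact absurd h.2 hcx
        · exact absurd h.2 hcx
        · exact absurd h.2 hcx
        · exact h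
      by_cases hcx' : c' = x
      · subst hcx'
        rcases h3 with h | h | h | h
        · exact ny _ (h.1 ▸ h1')
        · rcases h4 with g | g | g | g
          · exact ny _ (g.1 ▸ h2')
          · exact hw (h.1.trans g.1.symm)
          · exact hc _ (g.1 ▸ h2') (h.1 ▸ h1')
          · exact nx _ g
        · rcases h4 with g | g | g | g
          · exact ny _ (g.1 ▸ h2')
          · exact hc _ (h.1 ▸ h1') (g.1 ▸ h2')
          · exact hw (h.1.trans g.1.symm)
          · exact nx _ g
        · exact nx _ h
      · have h3' : (w, c') ∈ E := by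
          rcases h3 with h | h | h | h
          · exact absurd h.2 hcx'
          · exact absurd h.2 hcx'
          · exact absurd h.2 hcx'
          · exact h
        have h4' : (w', c') ∈ E := by
          rcases h4 with h | h | h | h
          · exact absurd h.2 hcx'
          · exact absurd h.2 hcx'
          · exact absurd h.2 hcx'
          · exact h
        exact hE.2 w w' c c' hw hc' ⟨h1', h2', h3', h4'⟩

/-- white ends -/
abbrev wh (B : List ℕ) : List (ℕ × Bool) := B.map fun b => (b, true)

theorem ladder (B : List ℕ) : ∀ (L R : List (ℕ × Bool)) (E : List (ℕ × ℕ)) (V : Finset ℕ)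
    (F : List (Fin 3) → ℂ) (z : ℕ),
    Planar (L ++ (z, true) :: (wh B ++ R)) E V F → NonElliptic E →
    (∀ e ∈ E, e.1 ∈ V ∧ e.2 ∈ V) → z ∈ V → (∀ b ∈ B, b ∈ V) → B.Nodup → z ∉ B →
    (∀ b ∈ B, ∀ t, (z, t) ∈ E → (b, t) ∉ E) →
    ∃ (Y : List ℕ) (z' : ℕ) (E' : List (ℕ × ℕ)) (V' : Finset ℕ) (F' : List (Fin 3) → ℂ),
      Planar (L ++ (wh Y ++ (z', true) :: R)) E' V' F' ∧ NonElliptic E' ∧
      (∀ e ∈ E', e.1 ∈ V' ∧ e.2 ∈ V') ∧ V ⊆ V' ∧ Y.length = B.length ∧ Y.Nodup ∧
      (∀ y ∈ Y, y ∉ V ∧ y ∈ V') ∧ z' ∈ V' ∧ (z' = z ∨ z' ∉ V) ∧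
      ∀ (l r : List Vec) (β ζ : Vec), l.length = L.length → r.length = R.length →
        (∀ w : List Vec, w.length = B.length + R.length → ev (l ++ β :: w) F = 0) →
        ev (l ++ (List.replicate B.length β ++ ζ :: r)) F' =
          ev (l ++ ζ :: (List.replicate B.length β ++ r)) F := by
  induction B with
  | nil =>
    intro L R E V F z hP hE hV hz _ _ _ _
    refine ⟨[], z, E, V, F, by simpa using hP, hE, hV, Finset.Subset.refl _, rfl, List.nodup_nil,
      by simp, hz, Or.inl rfl, ?_⟩
    intro l r β ζ _ _ _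
    simp
  | cons b B ih =>
    intro L R E V F z hP hE hV hz hB hBn hzB hc
    obtain ⟨x, hx⟩ := Infinite.exists_notMem_finset V
    obtain ⟨y, hy'⟩ := Infinite.exists_notMem_finset (V ∪ {x})
    have hy : y ∉ V := fun h => hy' (Finset.mem_union_left _ h)
    have hxy : x ≠ y := fun h => hy' (by simp [h])
    have hzb : z ≠ b := fun h => hzB (by simp [h])
    have hbV : b ∈ V := hB b (by simp)
    have hBV : ∀ b' ∈ B, b' ∈ V := fun b' h => hB b' (by simp [h])
    have hP' : Planar (L ++ (z, true) :: (b, true) :: (wh B ++ R)) E V F := by simpa using hP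
    obtain ⟨F1, hP1, hF1⟩ := H_step hP' x y hx hy hxy
    have hE1 : NonElliptic ((y, x) :: (b, x) :: (z, x) :: E) :=
      nonElliptic_H hE hV hz hbV hzb hx hy (hc b (by simp))
    have hV1 : ∀ e ∈ ((y, x) :: (b, x) :: (z, x) :: E),
        e.1 ∈ V ∪ {x} ∪ {y} ∧ e.2 ∈ V ∪ {x} ∪ {y} := by
      intro e he
      simp only [List.mem_cons] at he
      rcases he with rfl | rfl | rfl | he
      · simp
      · simp [hbV]
      · simp [hz]
      · have := hV e he
        simp [this.1, this.2]
    obtain ⟨Y, z', E', V', F', q1, q2, q3, q4, q5, q6, q7, q8, q9, q10⟩ :=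
      ih (L ++ [(y, true)]) R ((y, x) :: (b, x) :: (z, x) :: E) (V ∪ {x} ∪ {y}) F1 y
        (by simpa using hP1) hE1 hV1 (by simp)
        (fun b' h => by simp [hBV b' h]) (List.nodup_cons.1 hBn).2
        (fun h => hy (hBV y h)) (by
          intro b' hb' t ht ht'
          have hyt : t = x := by
            simp only [List.mem_cons, Prod.mk.injEq] at ht
            rcases ht with h | h | h | h
            · exact h.2
            · exact h.2
            · exact h.2
            · exact absurd (hV _ h).1 hy
          subst hyt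
          simp only [List.mem_cons, Prod.mk.injEq] at ht'
          rcases ht' with h | h | h | h
          · exact hy (h.1 ▸ hBV b' hb')
          · exact (List.nodup_cons.1 hBn).1 (h.1 ▸ hb')
          · exact hzB (by rw [← h.1]; simp [hb'])
          · exact hx (hV _ h).2)
    refine ⟨y :: Y, z', E', V', F', by simpa using q1, q2, q3,
      fun a ha => q4 (by simp [ha]), by simp [q5], ?_, ?_, q8, ?_, ?_⟩
    · refine List.nodup_cons.2 ⟨fun h => (q7 y h).1 (by simp), q6⟩
    · intro a ha
      rcases List.mem_cons.1 ha with rfl | ha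
      · exact ⟨hy, q4 (by simp)⟩
      · exact ⟨fun h => (q7 a ha).1 (by simp [h]), (q7 a ha).2⟩
    · right
      rcases q9 with h | h
      · rw [h]; exact hy
      · intro h'; exact h (by simp [h'])
    · intro l r β ζ hl hr hZ
      have hsw : ∀ (u w : Vec) (t : List Vec), t.length = B.length + R.length →
          ev (l ++ u :: w :: t) F1 = ev (l ++ w :: u :: t) F - ev (l ++ u :: w :: t) F := by
        intro u w t ht
        refine ev_swap l u w t F F1 fun a c p q ha hc' => hF1 a c p q (by omega) ?_
        simp [wh, hc', ht]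
      have hZ1 : ∀ w : List Vec, w.length = B.length + R.length →
          ev ((l ++ [β]) ++ β :: w) F1 = 0 := by
        intro w hw
        have := hsw β β w hw
        simpa using this
      have key := q10 (l ++ [β]) r β ζ (by simp [hl]) hr hZ1
      have e1 : l ++ (List.replicate (b :: B).length β ++ ζ :: r) =
          (l ++ [β]) ++ (List.replicate B.length β ++ ζ :: r) := by
        simp [List.replicate_succ]
      rw [e1, key]
      have e2 : (l ++ [β]) ++ ζ :: (List.replicate B.length β ++ r) =
          l ++ β :: ζ :: (List.replicate B.length β ++ r) := by simp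
      rw [e2, hsw β ζ _ (by simp [hr])]
      rw [hZ (ζ :: (List.replicate B.length β ++ r)) (by simp [hr]; omega), sub_zero]
      simp [List.replicate_succ]

end Pool.Agent.H7.WB
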