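import Pool.Agent.H7.WB.Frozen

namespace Pool.Agent.H7.WB

open Finset BigOperators

theorem web_one (m : ℕ) : IsWebInvariant m (fun _ => 1) := by
  refine ⟨[], [], ∅, fun _ => 1, ?_, ⟨List.nodup_nil, by simp⟩, by simp, List.nodup_nil, ?_⟩
  · exact Planar.empty _ rfl
  · intro v; rfl

theorem web_of_star {m : ℕ} (o : Fin m) (A : List (Fin m × Fin m))
    (hA : ∀ p ∈ A, o < p.1 ∧ p.1 < p.2) (h : StarWeb o A) :
    IsWebInvariant m (fun v => (A.map fun p => pluecker v o p.1 p.2).prod) := by
  obtain ⟨B, S, E, V, F, h1, h2, h3, h4, h5, h6, h7⟩ := h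
  have hSo : ∀ s ∈ S, o < s.2 := by
    intro s hs
    obtain ⟨p, hp, hp'⟩ := h6 s hs
    have := hA p hp
    rcases hp' with h | h
    · rw [h]; exact this.1
    · rw [h]; exact this.1.trans this.2
  refine ⟨B.map (fun b => (b, o)) ++ S, E, V, F, ?_, h2, ?_, ?_, ?_⟩
  · simpa [Function.comp_def] using h1
  · simp only [List.map_append, List.map_map, Function.comp_def, List.pairwise_append]
    refine ⟨?_, h5, ?_⟩
    · rw [List.pairwise_map]
      exact List.pairwise_of_forall fun _ _ => le_rfl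
    · intro x hx y hy
      simp only [List.mem_map] at hx hy
      obtain ⟨b, _, rfl⟩ := hx
      obtain ⟨s, hs, rfl⟩ := hy
      exact (hSo s hs).le
  · rw [List.nodup_append]
    refine ⟨h3.map fun a b h => by simpa using h, h4, ?_⟩
    intro x hx y hy hxy
    simp only [List.mem_map] at hx
    obtain ⟨b, _, rfl⟩ := hx
    have := hSo y hy
    rw [← hxy] at this
    exact lt_irrefl _ this
  · intro v
    show (A.map fun p => pluecker v o p.1 p.2).prod = _
    rw [← h7 v]
    simp [Function.comp_def]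

/-- the base case: common index first -/
theorem star_clusters (m : ℕ) (T : List (Fin m × Fin m × Fin m))
    (h1 : ∀ t ∈ T, t.1 < t.2.1 ∧ t.2.1 < t.2.2)
    (h2 : ∀ t ∈ T, (t.1 : ℕ) = 0 ∨ ((t.2.1 : ℕ) = t.1 + 1 ∧ (t.2.2 : ℕ) = t.1 + 2))
    (h3 : ∀ s ∈ T, ∀ t ∈ T, WeaklySeparated ({s.1, s.2.1, s.2.2} : Finset (Fin m))
      {t.1, t.2.1, t.2.2}) :
    IsWebInvariant m (fun v => (T.map fun t => pluecker v t.1 t.2.1 t.2.2).prod) := by
  classical
  set T0 := T.filter (fun t => decide ((t.1 : ℕ) = 0)) with hT0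
  set T1 := T.filter (fun t => !decide ((t.1 : ℕ) = 0)) with hT1
  have hp : (T0 ++ T1).Perm T := List.filter_append_perm _ _
  have m0 : ∀ t ∈ T0, t ∈ T ∧ (t.1 : ℕ) = 0 := fun t ht => by
    simpa [hT0] using List.mem_filter.1 ht
  have m1 : ∀ t ∈ T1, t ∈ T ∧ ¬ (t.1 : ℕ) = 0 := fun t ht => by
    simpa [hT1] using List.mem_filter.1 ht
  -- the star part
  have hstar : IsWebInvariant m (fun v => (T0.map fun t => pluecker v t.1 t.2.1 t.2.2).prod) := by
    rcases T0.eq_nil_or_concat with h0 | ⟨T0', t0, h0⟩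
    · rw [h0]; simpa using web_one m
    · have ht0 : t0 ∈ T0 := by rw [h0]; simp
      set o := t0.1 with ho
      have ho0 : (o : ℕ) = 0 := (m0 t0 ht0).2
      have hto : ∀ t ∈ T0, t.1 = o := fun t ht => Fin.ext (by rw [(m0 t ht).2, ho0])
      set A := T0.map (fun t => (t.2.1, t.2.2)) with hA
      have hA1 : ∀ p ∈ A, o < p.1 ∧ p.1 < p.2 := by
        intro p hp'
        rw [hA, List.mem_map] at hp'
        obtain ⟨t, ht, rfl⟩ := hp'
        have := h1 t (m0 t ht).1
        rw [hto t ht] at this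
        exact this
      have hA2 : ∀ p ∈ A, ∀ q ∈ A, ¬ (p.1 < q.1 ∧ q.1 < p.2 ∧ p.2 < q.2) := by
        intro p hp' q hq' hcr
        have op := hA1 p hp'
        have oq := hA1 q hq'
        rw [hA, List.mem_map] at hp' hq'
        obtain ⟨t, ht, rfl⟩ := hp'
        obtain ⟨s, hs, rfl⟩ := hq'
        have hw := h3 t (m0 t ht).1 s (m0 s hs).1
        rw [hto t ht, hto s hs] at hw
        simp only at hcr op oq
        apply hw
        refine ⟨t.2.1, s.2.1, t.2.2, s.2.2, hcr.1, hcr.2.1, hcr.2.2, Or.inl ?_⟩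
        simp only [Finset.mem_sdiff, Finset.mem_insert, Finset.mem_singleton, not_or]
        refine ⟨⟨by simp, op.1.ne', hcr.1.ne, (hcr.1.trans oq.2).ne⟩,
          ⟨by simp, oq.1.ne', hcr.1.ne', hcr.2.1.ne⟩,
          ⟨by simp, (op.1.trans op.2).ne', hcr.2.1.ne', hcr.2.2.ne⟩,
          ⟨by simp, (oq.1.trans oq.2).ne', (op.2.trans hcr.2.2).ne', hcr.2.2.ne'⟩⟩
      have := web_of_star o A hA1 (starWeb_all o A.length A rfl hA1 hA2)
      convert this using 3 with v
      rw [hA, List.map_map]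
      apply List.map_congr_left
      intro t ht
      simp [hto t ht]
  -- the frozen part
  have hfr : ∀ (U : List (Fin m × Fin m × Fin m)), (∀ t ∈ U, t ∈ T1) →
      IsWebInvariant m (fun v => (U.map fun t => pluecker v t.1 t.2.1 t.2.2).prod *
        (T0.map fun t => pluecker v t.1 t.2.1 t.2.2).prod) := by
    intro U
    induction U with
    | nil => intro _; simpa using hstar
    | cons t U ih =>
      intro hU
      have ht := m1 t (hU t (by simp))
      have h2' := (h2 t ht.1).resolve_left ht.2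
      have := frozen_mul _ (ih fun s hs => hU s (by simp [hs])) t.1 t.2.1 t.2.2 h2'.1 h2'.2
      convert this using 2 with v
      simp [mul_assoc]
  have := hfr T1 fun t ht => ht
  convert this using 2 with v
  rw [← (hp.map _).prod_eq, List.map_append, List.prod_append, mul_comm]

end Pool.Agent.H7.WB
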