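import Pool.Agent.H7.WB.PDefs
import Pool.Agent.H7.WB.GA

/-!
contains the same theorems DV.mem, DV.vanish for DV: copy them; differences: the members of t are a Finset, bd
is now a closed bound (p <= bd instead of p < bd; so restate k3, k5 of GA.lean with <=, names k3c, k5c, same
proofs), the hypothesis says in addition that t is a tripod (t.1 = true; it is used for the new case only).
New case poly. The hypothesis for the head (false, P) says: no element of P is in J = {p | x < p <= bd}, so the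
witness s is in l, pr, q or r (its label is in J; the labels of as, mid, cs are in P).
 s in l: x < s.1 <= p1. s in r: p4 <= s.1 <= bd, p4 not in J, so x >= p4. In both cases the induction hypothesis
   applies to l ++ (pr'.reverse ++ (q' ++ r)): no label of pr', q' is x.
 s in q: p3 <= s.1 <= bd and p3 not in J, so p3 <= x < s.1 < p4; by DP.mem s.1 is in some t in T, x in t.2 by the
   hypothesis, hW gives x = s.1, contradiction.
 s in pr: p1 < s.1 <= p2; s.1 in t.2, t in T, x in t.2. x < p1 is impossible (p1 would be in J); p1 < x < s.1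
   contradicts hW. So x = p1, the targets (all of as) have vector w. Lemma (induction on CarM, with CarR.labels for
   the sortedness): CarM ar p p'', all a in ar equal w, p sorted decreasingly imply
   (exists s in p, s.1 <= bd, s.2 = w) -> (exists s in p'', s.1 <= bd, s.2 = w); for one CarR this follows from k5c
   (three cases). So pr' has a witness (labels > p1 = x), no label of pr', q' is x, induction hypothesis.
-/

namespace Pool.Agent.H7.WB

open Finset BigOperators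

theorem k3c {α : Type} [LinearOrder α] (x bd : α) (w : Vec) {q : List (α × Vec)} {c c' : Vec}
    {q' : List (α × Vec)} (h : CarR q c c' q') (hs : q.Pairwise fun s t => s.1 ≤ t.1)
    (hx : ∀ s ∈ q, x ≤ s.1) (hb : ∀ s ∈ q, s.1 = x → s.2 = w)
    (hw : (∃ s ∈ q, x < s.1 ∧ s.1 ≤ bd ∧ s.2 = w) ∨ (c = w ∧ ∀ s ∈ q, s.1 ≤ bd)) :
    c' = w ∨ ∃ s ∈ q', x < s.1 ∧ s.1 ≤ bd ∧ s.2 = w := by
  induction h with
  | nil c =>
    rcases hw with ⟨s, hs, _⟩ | hw
    · simp at hs
    · exact Or.inl hw.1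
  | keep y q c c' q' h ih =>
    rw [List.pairwise_cons] at hs
    have hx' : ∀ s ∈ q, x ≤ s.1 := fun s h => hx s (by simp [h])
    have hb' : ∀ s ∈ q, s.1 = x → s.2 = w := fun s h => hb s (by simp [h])
    have key : (∃ s ∈ q, x < s.1 ∧ s.1 ≤ bd ∧ s.2 = w) ∨ (c = w ∧ ∀ s ∈ q, s.1 ≤ bd) →
        c' = w ∨ ∃ s ∈ y :: q', x < s.1 ∧ s.1 ≤ bd ∧ s.2 = w := by
      intro h'
      rcases ih hs.2 hx' hb' h' with h | ⟨s, h1, h2⟩
      · exact Or.inl h
      · exact Or.inr ⟨s, by simp [h1], h2⟩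
    rcases hw with ⟨s, h1, h2⟩ | hw
    · rcases List.mem_cons.1 h1 with rfl | h1
      · exact Or.inr ⟨s, by simp, h2⟩
      · exact key (Or.inl ⟨s, h1, h2⟩)
    · exact key (Or.inr ⟨hw.1, fun s h => hw.2 s (by simp [h])⟩)
  | swap y q c c' q' h ih =>
    rw [List.pairwise_cons] at hs
    have hx' : ∀ s ∈ q, x ≤ s.1 := fun s h => hx s (by simp [h])
    have hb' : ∀ s ∈ q, s.1 = x → s.2 = w := fun s h => hb s (by simp [h])
    rcases eq_or_lt_of_le (hx y (by simp)) with h0 | h0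
    · exact Or.inl (hb y (by simp) h0.symm)
    have key : y.1 ≤ bd → (∃ s ∈ q, x < s.1 ∧ s.1 ≤ bd ∧ s.2 = w) ∨ (c = w ∧ ∀ s ∈ q, s.1 ≤ bd) →
        y.2 = w ∨ ∃ s ∈ (y.1, c') :: q', x < s.1 ∧ s.1 ≤ bd ∧ s.2 = w := by
      intro hy h'
      rcases ih hs.2 hx' hb' h' with h | ⟨s, h1, h2⟩
      · exact Or.inr ⟨(y.1, c'), by simp, h0, hy, h⟩
      · exact Or.inr ⟨s, by simp [h1], h2⟩
    rcases hw with ⟨s, h1, h2⟩ | hw
    · rcases List.mem_cons.1 h1 with rfl | h1
      · exact Or.inl h2.2.2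
      · exact key ((hs.1 s h1).trans h2.2.1) (Or.inl ⟨s, h1, h2⟩)
    · exact key (hw.2 y (by simp)) (Or.inr ⟨hw.1, fun s h => hw.2 s (by simp [h])⟩)

theorem k5c {α : Type} [LinearOrder α] (bd : α) (w : Vec) {p : List (α × Vec)} {a a' : Vec}
    {p' : List (α × Vec)} (h : CarR p a a' p') (ha : a = w)
    (hs : p.Pairwise fun s t => t.1 ≤ s.1) :
    (∃ s ∈ p', s.1 ≤ bd ∧ s.2 = w) ∨ (a' = w ∧ p' = p) ∨
      ((∃ s ∈ p, bd < s.1) ∧ ((∃ s ∈ p, s.1 ≤ bd ∧ s.2 = w) → ∃ s ∈ p', s.1 ≤ bd ∧ s.2 = w)) := by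
  induction h with
  | nil c => exact Or.inr (Or.inl ⟨ha, rfl⟩)
  | keep y q c c' q' h ih =>
    rw [List.pairwise_cons] at hs
    rcases ih ha hs.2 with ⟨s, h1, h2⟩ | ⟨h1, h2⟩ | ⟨⟨s, h1, h2⟩, h3⟩
    · exact Or.inl ⟨s, by simp [h1], h2⟩
    · exact Or.inr (Or.inl ⟨h1, by rw [h2]⟩)
    · refine Or.inr (Or.inr ⟨⟨s, by simp [h1], h2⟩, ?_⟩)
      rintro ⟨t, h4, h5⟩
      rcases List.mem_cons.1 h4 with rfl | h4
      · exact ⟨t, by simp, h5⟩
      · obtain ⟨r, h6, h7⟩ := h3 ⟨t, h4, h5⟩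
        exact ⟨r, by simp [h6], h7⟩
  | swap y q c c' q' h ih =>
    rw [List.pairwise_cons] at hs
    rcases ih ha hs.2 with ⟨s, h1, h2⟩ | ⟨h1, h2⟩ | ⟨⟨s, h1, h2⟩, h3⟩
    · exact Or.inl ⟨s, by simp [h1], h2⟩
    · by_cases hy : y.1 ≤ bd
      · exact Or.inl ⟨(y.1, c'), by simp, hy, h1⟩
      · refine Or.inr (Or.inr ⟨⟨y, by simp, not_le.1 hy⟩, ?_⟩)
        rintro ⟨t, h4, h5⟩
        rcases List.mem_cons.1 h4 with rfl | h4
        · exact absurd h5.1 hy
        · exact ⟨t, by simp [h2, h4], h5⟩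
    · refine Or.inr (Or.inr ⟨⟨s, by simp [h1], h2⟩, ?_⟩)
      rintro ⟨t, h4, h5⟩
      rcases List.mem_cons.1 h4 with rfl | h4
      · exact absurd (h2.trans_le (hs.1 s h1)) (not_lt.2 h5.1)
      · obtain ⟨r, h6, h7⟩ := h3 ⟨t, h4, h5⟩
        exact ⟨r, by simp [h6], h7⟩

theorem DP.mem {α : Type} [LinearOrder α] {T : List (Bool × Finset α)} {labs : List α}
    {f : List Vec → ℂ} (h : DP T labs f) : ∀ y ∈ labs, ∃ t ∈ T, y ∈ t.2 := by
  induction h with
  | nil f => simp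
  | star T L Pr Q R f g z1 z2 z3 hD h12 h23 hL hP hQ hR hPs hQs hW hS ih =>
    intro y hy
    simp only [List.mem_append, List.mem_cons, List.mem_reverse] at hy ih
    have old : (y ∈ L ∨ y ∈ Pr ∨ y ∈ Q ∨ y ∈ R) →
        ∃ t ∈ (true, ({z1, z2, z3} : Finset α)) :: T, y ∈ t.2 := by
      intro h
      obtain ⟨t, ht, hm⟩ := ih y h
      exact ⟨t, List.mem_cons_of_mem _ ht, hm⟩
    have new : y ∈ ({z1, z2, z3} : Finset α) →
        ∃ t ∈ (true, ({z1, z2, z3} : Finset α)) :: T, y ∈ t.2 := fun h =>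
      ⟨_, List.mem_cons_self, h⟩
    rcases hy with h | rfl | h | rfl | h | rfl | h
    · exact old (Or.inl h)
    · exact new (by simp)
    · exact old (Or.inr (Or.inl h))
    · exact new (by simp)
    · exact old (Or.inr (Or.inr (Or.inl h)))
    · exact new (by simp)
    · exact old (Or.inr (Or.inr (Or.inr h)))
  | poly T L A Pr M Q C R f g P p1 p2 p3 p4 hD h12 h23 h34 m1 m2 m3 m4 hA hM hC hL hP hQ hR hPs hQs
      hF hW hS ih =>
    intro y hy
    simp only [List.mem_append, List.mem_reverse] at hy ih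
    have old : (y ∈ L ∨ y ∈ Pr ∨ y ∈ Q ∨ y ∈ R) → ∃ t ∈ (false, P) :: T, y ∈ t.2 := by
      intro h
      obtain ⟨t, ht, hm⟩ := ih y h
      exact ⟨t, List.mem_cons_of_mem _ ht, hm⟩
    have new : y ∈ P → ∃ t ∈ (false, P) :: T, y ∈ t.2 := fun h => ⟨_, List.mem_cons_self, h⟩
    rcases hy with h | h | h | h | h | h | h
    · exact old (Or.inl h)
    · exact new (by rw [hA y h]; exact m1)
    · exact old (Or.inr (Or.inl h))
    · exact new (hM y h).1
    · exact old (Or.inr (Or.inr (Or.inl h)))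
    · exact new (by rw [hC y h]; exact m4)
    · exact old (Or.inr (Or.inr (Or.inr h)))

/-- several legs with the same vector keep a witness -/
theorem CarM.wit {α : Type} [LinearOrder α] (bd : α) (w : Vec) {ar : List Vec}
    {p p' : List (α × Vec)} (h : CarM ar p p') (ha : ∀ a ∈ ar, a = w)
    (hs : p.Pairwise fun s t => t.1 ≤ s.1) (hw : ∃ s ∈ p, s.1 ≤ bd ∧ s.2 = w) :
    ∃ s ∈ p', s.1 ≤ bd ∧ s.2 = w := by
  induction h with
  | nil p => exact hw
  | cons a ar p a' p' p'' h h2 ih =>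
    have ha' : ∀ b ∈ ar, b = w := fun b hb => ha b (List.mem_cons_of_mem _ hb)
    have hs' : p'.Pairwise fun s t => t.1 ≤ s.1 := by
      have e : (p.map Prod.fst).Pairwise (fun s t => t ≤ s) := by
        rw [List.pairwise_map]; exact hs
      rw [← h.labels, List.pairwise_map] at e
      exact e
    rcases k5c bd w h (ha a List.mem_cons_self) hs with h1 | ⟨_, h1⟩ | ⟨_, h1⟩
    · exact ih ha' hs' h1
    · exact ih ha' hs' (h1 ▸ hw)
    · exact ih ha' hs' (h1 hw)

theorem CarM.memc {α : Type} {ar : List Vec} {p p' : List (α × Vec)}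
    (h : CarM ar p p') {P : List α} (hP : p.map Prod.fst = P) {Q : α → Prop}
    (hQ : ∀ y ∈ P, Q y) : ∀ s ∈ p', Q s.1 := by
  intro s hs
  apply hQ
  rw [← hP, ← h.labels]
  exact List.mem_map.2 ⟨s, hs, rfl⟩

theorem DP.vanish {α : Type} [LinearOrder α] {T : List (Bool × Finset α)} {labs : List α}
    {f : List Vec → ℂ} (h : DP T labs f) : ∀ (x bd : α) (w : Vec) (S : List (α × Vec)),
    S.map Prod.fst = labs → (∀ t ∈ T, ∀ p ∈ t.2, x < p → p ≤ bd → t.1 = true ∧ x ∈ t.2) →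
    (∀ s ∈ S, s.1 = x → s.2 = w) → (∃ s ∈ S, x < s.1 ∧ s.1 ≤ bd ∧ s.2 = w) →
    f (S.map Prod.snd) = 0 := by
  induction h with
  | nil f =>
    intro x bd w S hS _ _ hw
    obtain ⟨s, hs, _⟩ := hw
    have : S = [] := by simpa using hS
    subst this
    simp at hs
  | star T L Pr Q R f g z1 z2 z3 hD h12 h23 hL hP hQ hR hPs hQs hW hS ih =>
    intro x bd w S hSl hT hB hw
    obtain ⟨l, S1, rfl, hl, h1⟩ := List.map_eq_append_iff.1 hSl
    obtain ⟨s1, S2, rfl, e1, h2⟩ := List.map_eq_cons_iff.1 h1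
    obtain ⟨pr0, S3, rfl, hp0, h3⟩ := List.map_eq_append_iff.1 h2
    obtain ⟨s2, S4, rfl, e2, h4⟩ := List.map_eq_cons_iff.1 h3
    obtain ⟨q, S5, rfl, hq, h5⟩ := List.map_eq_append_iff.1 h4
    obtain ⟨s3, r, rfl, e3, hr⟩ := List.map_eq_cons_iff.1 h5
    obtain ⟨pr, rfl⟩ : ∃ pr : List (α × Vec), pr0 = pr.reverse := ⟨pr0.reverse, by simp⟩
    have hp : pr.map Prod.fst = Pr := by
      rw [List.map_reverse] at hp0
      exact List.reverse_injective hp0
    obtain ⟨y1, a⟩ := s1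
    obtain ⟨y2, b⟩ := s2
    obtain ⟨y3, c⟩ := s3
    simp only at e1 e2 e3
    subst e1 e2 e3
    have z13 := h12.trans h23
    -- labels of the pieces
    have ll : ∀ s ∈ l, s.1 ≤ y1 := fun s hs => hL _ (hl ▸ List.mem_map.2 ⟨s, hs, rfl⟩)
    have lp : ∀ s ∈ pr, y1 < s.1 ∧ s.1 ≤ y2 := fun s hs =>
      hP _ (hp ▸ List.mem_map.2 ⟨s, hs, rfl⟩)
    have lq : ∀ s ∈ q, y2 ≤ s.1 ∧ s.1 < y3 := fun s hs =>
      hQ _ (hq ▸ List.mem_map.2 ⟨s, hs, rfl⟩)
    have lr : ∀ s ∈ r, y3 ≤ s.1 := fun s hs => hR _ (hr ▸ List.mem_map.2 ⟨s, hs, rfl⟩)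
    have sp : pr.Pairwise fun s t => t.1 ≤ s.1 := by
      rw [← hp, List.pairwise_map] at hPs; exact hPs
    have sq : q.Pairwise fun s t => s.1 ≤ t.1 := by
      rw [← hq, List.pairwise_map] at hQs; exact hQs
    have Bl : ∀ s ∈ l, s.1 = x → s.2 = w := fun s hs => hB s (by simp [hs])
    have Bp : ∀ s ∈ pr, s.1 = x → s.2 = w := fun s hs => hB s (by simp [hs])
    have Bq : ∀ s ∈ q, s.1 = x → s.2 = w := fun s hs => hB s (by simp [hs])
    have Br : ∀ s ∈ r, s.1 = x → s.2 = w := fun s hs => hB s (by simp [hs])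
    have B1 : y1 = x → a = w := fun h => hB (y1, a) (by simp) h
    have B2 : y2 = x → b = w := fun h => hB (y2, b) (by simp) h
    have B3 : y3 = x → c = w := fun h => hB (y3, c) (by simp) h
    have hT' : ∀ t ∈ T, ∀ p ∈ t.2, x < p → p ≤ bd → t.1 = true ∧ x ∈ t.2 := fun t ht =>
      hT t (List.mem_cons_of_mem _ ht)
    have hz : ∀ p ∈ ({y1, y2, y3} : Finset α), x < p → p ≤ bd →
        x ∈ ({y1, y2, y3} : Finset α) := fun p hp h1 h2 =>
      (hT (true, {y1, y2, y3}) List.mem_cons_self p hp h1 h2).2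
    refine hS l pr q r y1 y2 y3 a b c hl hp hq hr ?_
    intro a' pr' c' q' cp cq
    have lp' : ∀ s ∈ pr', y1 < s.1 ∧ s.1 ≤ y2 := mem_car cp hp hP
    have lq' : ∀ s ∈ q', y2 ≤ s.1 ∧ s.1 < y3 := mem_car cq hq hQ
    have hlab : (l ++ (pr'.reverse ++ (q' ++ r))).map Prod.fst = L ++ (Pr.reverse ++ (Q ++ R)) := by
      simp only [List.map_append, List.map_reverse, cp.labels, cq.labels, hl, hp, hq, hr]
    have key : (∀ s ∈ pr', s.1 = x → s.2 = w) → (∀ s ∈ q', s.1 = x → s.2 = w) →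
        (∃ s, (s ∈ l ∨ s ∈ pr' ∨ s ∈ q' ∨ s ∈ r) ∧ x < s.1 ∧ s.1 ≤ bd ∧ s.2 = w) →
        a' = b ∨ b = c' ∨ a' = c' ∨ f ((l ++ (pr'.reverse ++ (q' ++ r))).map Prod.snd) = 0 := by
      intro k1 k2 k3
      refine Or.inr (Or.inr (Or.inr (ih x bd w _ hlab hT' ?_ ?_)))
      · intro s hs
        simp only [List.mem_append, List.mem_reverse] at hs
        rcases hs with h | h | h | h
        · exact Bl s h
        · exact k1 s h
        · exact k2 s h
        · exact Br s h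
      · obtain ⟨s, hs, h'⟩ := k3
        exact ⟨s, by simpa [List.mem_append, List.mem_reverse] using hs, h'⟩
    -- the witness
    obtain ⟨s, hs, hx1, hx2, hsw⟩ := hw
    simp only [List.mem_append, List.mem_cons, List.mem_reverse] at hs
    by_cases c1 : x = y1
    · have ha : a = w := B1 c1.symm
      have P' : ∀ s ∈ pr', s.1 = x → s.2 = w := fun s hs h =>
        absurd h (by rw [c1]; exact (lp' s hs).1.ne')
      have Q' : ∀ s ∈ q', s.1 = x → s.2 = w := fun s hs h =>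
        absurd h (by rw [c1]; exact (h12.trans_le (lq' s hs).1).ne')
      rcases k5c bd w cp ha sp with ⟨t, h1, h2⟩ | ⟨h1, h2⟩ | ⟨⟨t, h1, h2⟩, h3⟩
      · exact key P' Q' ⟨t, Or.inr (Or.inl h1), by rw [c1]; exact (lp' t h1).1, h2⟩
      · -- nothing selected on the left
        have hq3 : ((∃ s ∈ q, x < s.1 ∧ s.1 ≤ bd ∧ s.2 = w) ∨ (c = w ∧ ∀ s ∈ q, s.1 ≤ bd)) →
            a' = b ∨ b = c' ∨ a' = c' ∨
              f ((l ++ (pr'.reverse ++ (q' ++ r))).map Prod.snd) = 0 := by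
          intro h
          rcases k3c x bd w cq sq (fun s hs => by rw [c1]; exact (h12.trans_le (lq s hs).1).le)
            Bq h with h | ⟨t, h4, h5⟩
          · exact Or.inr (Or.inr (Or.inl (h1.trans h.symm)))
          · exact key P' Q' ⟨t, Or.inr (Or.inr (Or.inl h4)), h5⟩
        rcases hs with hs | rfl | hs | rfl | hs | rfl | hs
        · exact absurd (ll s hs) (by rw [← c1]; exact not_le.2 hx1)
        · exact absurd hx1 (by rw [c1]; exact lt_irrefl _)
        · exact key P' Q' ⟨s, Or.inr (Or.inl (h2 ▸ hs)), hx1, hx2, hsw⟩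
        · exact Or.inl (h1.trans hsw.symm)
        · exact hq3 (Or.inl ⟨s, hs, hx1, hx2, hsw⟩)
        · exact hq3 (Or.inr ⟨hsw, fun t ht => ((lq t ht).2.trans_le hx2).le⟩)
        · exact key P' Q' ⟨s, Or.inr (Or.inr (Or.inr hs)), hx1, hx2, hsw⟩
      · have hbz : bd < y2 := h2.trans_le (lp t h1).2
        rcases hs with hs | rfl | hs | rfl | hs | rfl | hs
        · exact absurd (ll s hs) (by rw [← c1]; exact not_le.2 hx1)
        · exact absurd hx1 (by rw [c1]; exact lt_irrefl _)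
        · obtain ⟨t', h4, h5⟩ := h3 ⟨s, hs, hx2, hsw⟩
          exact key P' Q' ⟨t', Or.inr (Or.inl h4), by rw [c1]; exact (lp' t' h4).1, h5⟩
        · exact absurd hx2 (not_le.2 hbz)
        · exact absurd hx2 (not_le.2 (hbz.trans_le (lq s hs).1))
        · exact absurd hx2 (not_le.2 (hbz.trans h23))
        · exact absurd hx2 (not_le.2 (hbz.trans (h23.trans_le (lr s hs))))
    by_cases c2 : x = y2
    · have hb : b = w := B2 c2.symm
      have hpx : pr.Pairwise fun s t => t.1 = x → s.1 = x := by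
        refine List.Pairwise.imp_of_mem ?_ sp
        intro s t hs ht h h'
        exact le_antisymm (by rw [c2]; exact (lp s hs).2) (h' ▸ h)
      have hqx : q.Pairwise fun s t => t.1 = x → s.1 = x := by
        refine List.Pairwise.imp_of_mem ?_ sq
        intro s t hs ht h h'
        exact le_antisymm (h' ▸ h) (by rw [c2]; exact (lq s hs).1)
      rcases k4 x w cp hpx Bp with h | P'
      · exact Or.inl (h.trans hb.symm)
      rcases k4 x w cq hqx Bq with h | Q'
      · exact Or.inr (Or.inl (hb.trans h.symm))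
      have hq3 : ((∃ s ∈ q, x < s.1 ∧ s.1 ≤ bd ∧ s.2 = w) ∨ (c = w ∧ ∀ s ∈ q, s.1 ≤ bd)) →
          a' = b ∨ b = c' ∨ a' = c' ∨
            f ((l ++ (pr'.reverse ++ (q' ++ r))).map Prod.snd) = 0 := by
        intro h
        rcases k3c x bd w cq sq (fun s hs => by rw [c2]; exact (lq s hs).1) Bq h with
          h | ⟨t, h4, h5⟩
        · exact Or.inr (Or.inl (hb.trans h.symm))
        · exact key P' Q' ⟨t, Or.inr (Or.inr (Or.inl h4)), h5⟩
      rcases hs with hs | rfl | hs | rfl | hs | rfl | hs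
      · exact absurd ((ll s hs).trans h12.le) (by rw [← c2]; exact not_le.2 hx1)
      · exact absurd hx1 (by rw [c2]; exact h12.asymm)
      · exact absurd (lp s hs).2 (by rw [← c2]; exact not_le.2 hx1)
      · exact absurd hx1 (by rw [c2]; exact lt_irrefl _)
      · exact hq3 (Or.inl ⟨s, hs, hx1, hx2, hsw⟩)
      · exact hq3 (Or.inr ⟨hsw, fun t ht => ((lq t ht).2.trans_le hx2).le⟩)
      · exact key P' Q' ⟨s, Or.inr (Or.inr (Or.inr hs)), hx1, hx2, hsw⟩
    by_cases c3 : x = y3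
    · have P' : ∀ s ∈ pr', s.1 = x → s.2 = w := fun s hs h =>
        absurd h (by rw [c3]; exact ((lp' s hs).2.trans_lt h23).ne)
      have Q' : ∀ s ∈ q', s.1 = x → s.2 = w := fun s hs h =>
        absurd h (by rw [c3]; exact (lq' s hs).2.ne)
      rw [c3] at hx1
      rcases hs with hs | rfl | hs | rfl | hs | rfl | hs
      · exact absurd ((ll s hs).trans z13.le) (not_le.2 hx1)
      · exact absurd hx1 z13.asymm
      · exact absurd ((lp s hs).2.trans h23.le) (not_le.2 hx1)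
      · exact absurd hx1 h23.asymm
      · exact absurd (lq s hs).2.le (not_le.2 hx1)
      · exact absurd hx1 (lt_irrefl _)
      · exact key P' Q' ⟨s, Or.inr (Or.inr (Or.inr hs)), by rw [c3]; exact hx1, hx2, hsw⟩
    -- x is not in z
    have nz : x ∉ ({y1, y2, y3} : Finset α) := by
      simp only [Finset.mem_insert, Finset.mem_singleton]
      rintro (h | h | h)
      · exact c1 h
      · exact c2 h
      · exact c3 h
    have n1 : ¬ (x < y1 ∧ y1 ≤ bd) := fun h => nz (hz _ (by simp) h.1 h.2)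
    have n2 : ¬ (x < y2 ∧ y2 ≤ bd) := fun h => nz (hz _ (by simp) h.1 h.2)
    have n3 : ¬ (x < y3 ∧ y3 ≤ bd) := fun h => nz (hz _ (by simp) h.1 h.2)
    -- witness strictly inside: contradiction
    have inside : y1 < s.1 → s.1 < y3 → y1 < x → x < y3 → (s.1 ∈ L ++ (Pr.reverse ++ (Q ++ R))) →
        False := by
      intro i1 i2 i3 i4 hm
      obtain ⟨t, ht, m⟩ := hD.mem _ hm
      have := hW t ht s.1 m x (hT' t ht _ m hx1 hx2).2 i1 i2 i3 i4
      exact hx1.ne' this
    rcases hs with hs | rfl | hs | rfl | hs | rfl | hs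
    · -- in l
      have hz1 : x < y1 := hx1.trans_le (ll s hs)
      have P' : ∀ s ∈ pr', s.1 = x → s.2 = w := fun s hs h =>
        absurd h (hz1.trans (lp' s hs).1).ne'
      have Q' : ∀ s ∈ q', s.1 = x → s.2 = w := fun s hs h =>
        absurd h (hz1.trans (h12.trans_le (lq' s hs).1)).ne'
      exact key P' Q' ⟨s, Or.inl hs, hx1, hx2, hsw⟩
    · exact absurd ⟨hx1, hx2⟩ n1
    · exfalso
      have b1 := lp s hs
      have hz1 : y1 < x := by
        rcases lt_or_ge x y1 with h | h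
        · exact absurd ⟨h, b1.1.le.trans hx2⟩ n1
        · exact lt_of_le_of_ne h fun e => c1 e.symm
      have hm : s.1 ∈ L ++ (Pr.reverse ++ (Q ++ R)) := by
        have : s.1 ∈ Pr := hp ▸ List.mem_map.2 ⟨s, hs, rfl⟩
        simp [this]
      exact inside b1.1 (b1.2.trans_lt h23) hz1 ((hx1.trans_le b1.2).trans h23) hm
    · exact absurd ⟨hx1, hx2⟩ n2
    · exfalso
      have b1 := lq s hs
      have hz2 : y2 < x := by
        rcases lt_or_ge x y2 with h | h
        · exact absurd ⟨h, b1.1.trans hx2⟩ n2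
        · exact lt_of_le_of_ne h fun e => c2 e.symm
      have hm : s.1 ∈ L ++ (Pr.reverse ++ (Q ++ R)) := by
        have : s.1 ∈ Q := hq ▸ List.mem_map.2 ⟨s, hs, rfl⟩
        simp [this]
      exact inside (h12.trans_le b1.1) b1.2 (h12.trans hz2) (hx1.trans b1.2) hm
    · exact absurd ⟨hx1, hx2⟩ n3
    · -- in r
      have hz3 : y3 < x := by
        rcases lt_or_ge x y3 with h | h
        · exact absurd ⟨h, (lr s hs).trans hx2⟩ n3
        · exact lt_of_le_of_ne h fun e => c3 e.symm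
      have P' : ∀ s ∈ pr', s.1 = x → s.2 = w := fun s hs h =>
        absurd h (((lp' s hs).2.trans_lt h23).trans hz3).ne
      have Q' : ∀ s ∈ q', s.1 = x → s.2 = w := fun s hs h =>
        absurd h ((lq' s hs).2.trans hz3).ne
      exact key P' Q' ⟨s, Or.inr (Or.inr (Or.inr hs)), hx1, hx2, hsw⟩
  | poly T L A Pr M Q C R f g P p1 p2 p3 p4 hD h12 h23 h34 m1 m2 m3 m4 hA hM hC hL hP hQ hR hPs hQs
      hF hW hS ih =>
    intro x bd w S hSl hT hB hw
    obtain ⟨l, S1, rfl, hl, h1⟩ := List.map_eq_append_iff.1 hSl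
    obtain ⟨as, S2, rfl, ha, h2⟩ := List.map_eq_append_iff.1 h1
    obtain ⟨pr0, S3, rfl, hp0, h3⟩ := List.map_eq_append_iff.1 h2
    obtain ⟨mid, S4, rfl, hm, h4⟩ := List.map_eq_append_iff.1 h3
    obtain ⟨q, S5, rfl, hq, h5⟩ := List.map_eq_append_iff.1 h4
    obtain ⟨cs, r, rfl, hc, hr⟩ := List.map_eq_append_iff.1 h5
    obtain ⟨pr, rfl⟩ : ∃ pr : List (α × Vec), pr0 = pr.reverse := ⟨pr0.reverse, by simp⟩
    have hp : pr.map Prod.fst = Pr := by
      rw [List.map_reverse] at hp0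
      exact List.reverse_injective hp0
    have p13 := h12.trans h23
    -- labels of the pieces
    have ll : ∀ s ∈ l, s.1 ≤ p1 := fun s hs => hL _ (hl ▸ List.mem_map.2 ⟨s, hs, rfl⟩)
    have la : ∀ s ∈ as, s.1 = p1 := fun s hs => hA _ (ha ▸ List.mem_map.2 ⟨s, hs, rfl⟩)
    have lp : ∀ s ∈ pr, p1 < s.1 ∧ s.1 ≤ p2 := fun s hs =>
      hP _ (hp ▸ List.mem_map.2 ⟨s, hs, rfl⟩)
    have lm : ∀ s ∈ mid, s.1 ∈ P := fun s hs => (hM _ (hm ▸ List.mem_map.2 ⟨s, hs, rfl⟩)).1
    have lq : ∀ s ∈ q, p3 ≤ s.1 ∧ s.1 < p4 := fun s hs =>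
      hQ _ (hq ▸ List.mem_map.2 ⟨s, hs, rfl⟩)
    have lc : ∀ s ∈ cs, s.1 = p4 := fun s hs => hC _ (hc ▸ List.mem_map.2 ⟨s, hs, rfl⟩)
    have lr : ∀ s ∈ r, p4 ≤ s.1 := fun s hs => hR _ (hr ▸ List.mem_map.2 ⟨s, hs, rfl⟩)
    have sp : pr.Pairwise fun s t => t.1 ≤ s.1 := by
      rw [← hp, List.pairwise_map] at hPs; exact hPs
    have Bl : ∀ s ∈ l, s.1 = x → s.2 = w := fun s hs => hB s (by simp [hs])
    have Ba : ∀ s ∈ as, s.1 = x → s.2 = w := fun s hs => hB s (by simp [hs])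
    have Br : ∀ s ∈ r, s.1 = x → s.2 = w := fun s hs => hB s (by simp [hs])
    have hT' : ∀ t ∈ T, ∀ p ∈ t.2, x < p → p ≤ bd → t.1 = true ∧ x ∈ t.2 := fun t ht =>
      hT t (List.mem_cons_of_mem _ ht)
    have hz : ∀ p ∈ P, x < p → ¬ p ≤ bd := fun p hp h1 h2 =>
      absurd (hT (false, P) List.mem_cons_self p hp h1 h2).1 (by simp)
    -- the witness
    obtain ⟨s, hs, hx1, hx2, hsw⟩ := hw
    have inside : p1 < s.1 → s.1 < p4 → p1 < x → x < p4 → (s.1 ∈ L ++ (Pr.reverse ++ (Q ++ R))) →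
        False := by
      intro i1 i2 i3 i4 hm
      obtain ⟨t, ht, m⟩ := hD.mem _ hm
      have := hW t ht s.1 m x (hT' t ht _ m hx1 hx2).2 i1 i2 i3 i4
      exact hx1.ne' this
    have nP : s.1 ∉ P := fun h => hz _ h hx1 hx2
    refine hS l as pr mid q cs r hl ha hp hm hq hc hr ?_
    intro pr' q' cp cq
    have lp' : ∀ s ∈ pr', p1 < s.1 ∧ s.1 ≤ p2 := cp.memc hp hP
    have lq' : ∀ s ∈ q', p3 ≤ s.1 ∧ s.1 < p4 := cq.memc hq hQ
    have hlab : (l ++ (pr'.reverse ++ (q' ++ r))).map Prod.fst = L ++ (Pr.reverse ++ (Q ++ R)) := by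
      simp only [List.map_append, List.map_reverse, cp.labels, cq.labels, hl, hp, hq, hr]
    have key : (∀ s ∈ pr', s.1 ≠ x) → (∀ s ∈ q', s.1 ≠ x) →
        (∃ s, (s ∈ l ∨ s ∈ pr' ∨ s ∈ q' ∨ s ∈ r) ∧ x < s.1 ∧ s.1 ≤ bd ∧ s.2 = w) →
        f ((l ++ (pr'.reverse ++ (q' ++ r))).map Prod.snd) = 0 := by
      intro k1 k2 k3
      refine ih x bd w _ hlab hT' ?_ ?_
      · intro s hs
        simp only [List.mem_append, List.mem_reverse] at hs
        rcases hs with h | h | h | h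
        · exact Bl s h
        · exact fun e => absurd e (k1 s h)
        · exact fun e => absurd e (k2 s h)
        · exact Br s h
      · obtain ⟨s, hs, h'⟩ := k3
        exact ⟨s, by simpa [List.mem_append, List.mem_reverse] using hs, h'⟩
    simp only [List.mem_append, List.mem_reverse] at hs
    rcases hs with hs | hs | hs | hs | hs | hs | hs
    · -- in l
      have hx : x < p1 := hx1.trans_le (ll s hs)
      exact key (fun s hs => (hx.trans (lp' s hs).1).ne')
        (fun s hs => (hx.trans (p13.trans_le (lq' s hs).1)).ne') ⟨s, Or.inl hs, hx1, hx2, hsw⟩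
    · exact absurd (by rw [la s hs]; exact m1) nP
    · -- in pr
      have b1 := lp s hs
      have hx : p1 ≤ x := by
        by_contra h
        exact hz _ m1 (not_le.1 h) (b1.1.le.trans hx2)
      have hmem : s.1 ∈ L ++ (Pr.reverse ++ (Q ++ R)) := by
        have : s.1 ∈ Pr := hp ▸ List.mem_map.2 ⟨s, hs, rfl⟩
        simp [this]
      rcases eq_or_lt_of_le hx with hx | hx
      · have hall : ∀ a ∈ (as.map Prod.snd).reverse, a = w := by
          intro a h
          rw [List.mem_reverse, List.mem_map] at h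
          obtain ⟨t, ht, rfl⟩ := h
          exact Ba t ht ((la t ht).trans hx)
        obtain ⟨t, ht, h1, h2⟩ := cp.wit bd w hall sp ⟨s, hs, hx2, hsw⟩
        exact key (fun s hs => by rw [← hx]; exact (lp' s hs).1.ne')
          (fun s hs => by rw [← hx]; exact (p13.trans_le (lq' s hs).1).ne')
          ⟨t, Or.inr (Or.inl ht), by rw [← hx]; exact (lp' t ht).1, h1, h2⟩
      · exact (inside b1.1 ((b1.2.trans_lt h23).trans h34) hx
          (hx1.trans ((b1.2.trans_lt h23).trans h34)) hmem).elim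
    · exact absurd (lm s hs) nP
    · -- in q
      have b1 := lq s hs
      have hx : p3 ≤ x := by
        by_contra h
        exact hz _ m3 (not_le.1 h) (b1.1.trans hx2)
      have hmem : s.1 ∈ L ++ (Pr.reverse ++ (Q ++ R)) := by
        have : s.1 ∈ Q := hq ▸ List.mem_map.2 ⟨s, hs, rfl⟩
        simp [this]
      exact (inside (p13.trans_le b1.1) b1.2 (p13.trans_le hx) (hx1.trans b1.2) hmem).elim
    · exact absurd (by rw [lc s hs]; exact m4) nP
    · -- in r
      have hx : p4 ≤ x := by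
        by_contra h
        exact hz _ m4 (not_le.1 h) ((lr s hs).trans hx2)
      exact key (fun s hs => (((lp' s hs).2.trans_lt (h23.trans h34)).trans_le hx).ne)
        (fun s hs => ((lq' s hs).2.trans_le hx).ne) ⟨s, Or.inr (Or.inr (Or.inr hs)), hx1, hx2, hsw⟩

end Pool.Agent.H7.WB
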