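import Pool.Agent.H7.WB.PA

/-!
Reversal of the diagrams (see GB.lean for the case of tripods only).
-/

namespace Pool.Agent.H7.WB

open Finset BigOperators

theorem CarR.mapPB {β γ : Type} (e : β → γ) {q : List (β × Vec)} {c c' : Vec} {q' : List (β × Vec)}
    (h : CarR q c c' q') :
    CarR (q.map fun s => (e s.1, s.2)) c c' (q'.map fun s => (e s.1, s.2)) := by
  induction h with
  | nil c => exact CarR.nil c
  | keep y q c c' q' h ih => exact CarR.keep (e y.1, y.2) _ c c' _ ih
  | swap y q c c' q' h ih => exact CarR.swap (e y.1, y.2) _ c c' _ ih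

theorem CarM.mapPB {β γ : Type} (e : β → γ) {ar : List Vec} {p p' : List (β × Vec)}
    (h : CarM ar p p') :
    CarM ar (p.map fun s => (e s.1, s.2)) (p'.map fun s => (e s.1, s.2)) := by
  induction h with
  | nil p => exact CarM.nil _
  | cons a ar p a' p' p'' h h2 ih => exact CarM.cons a ar _ a' _ _ (CarR.mapPB e h) ih

theorem DP.rev {α : Type} [LinearOrder α] {T : List (Bool × Finset α)} {labs : List α}
    {f : List Vec → ℂ} (h : DP T labs f) :
    DP (α := αᵒᵈ) (T.map fun t => (t.1, t.2.map OrderDual.toDual.toEmbedding))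
      (labs.reverse.map OrderDual.toDual) (fun u => f u.reverse) := by
  induction h with
  | nil f => exact DP.nil _
  | star T L Pr Q R f g z1 z2 z3 hD h12 h23 hL hP hQ hR hPs hQs hW hS ih =>
    have e1 : (L ++ (Pr.reverse ++ (Q ++ R))).reverse.map OrderDual.toDual =
        R.reverse.map OrderDual.toDual ++ ((Q.map OrderDual.toDual).reverse ++
          (Pr.map OrderDual.toDual ++ L.reverse.map OrderDual.toDual)) := by
      simp
    have e2 : (L ++ z1 :: (Pr.reverse ++ z2 :: (Q ++ z3 :: R))).reverse.map OrderDual.toDual =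
        R.reverse.map OrderDual.toDual ++ OrderDual.toDual z3 :: ((Q.map OrderDual.toDual).reverse ++
          OrderDual.toDual z2 :: (Pr.map OrderDual.toDual ++ OrderDual.toDual z1 ::
            L.reverse.map OrderDual.toDual)) := by
      simp
    have e3 : ({z1, z2, z3} : Finset α).map OrderDual.toDual.toEmbedding =
        ({OrderDual.toDual z3, OrderDual.toDual z2, OrderDual.toDual z1} : Finset αᵒᵈ) := by
      ext y
      simp only [Finset.mem_map_equiv, Finset.mem_insert, Finset.mem_singleton]
      constructor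
      · rintro (h | h | h)
        · exact Or.inr (Or.inr h)
        · exact Or.inr (Or.inl h)
        · exact Or.inl h
      · rintro (h | h | h)
        · exact Or.inr (Or.inr h)
        · exact Or.inr (Or.inl h)
        · exact Or.inl h
    rw [e1] at ih
    rw [e2, List.map_cons]
    show DP (α := αᵒᵈ) ((true, ({z1, z2, z3} : Finset α).map OrderDual.toDual.toEmbedding) ::
      (T.map fun t => (t.1, t.2.map OrderDual.toDual.toEmbedding))) _ _
    rw [e3]
    refine DP.star (α := αᵒᵈ) _ (R.reverse.map OrderDual.toDual) (Q.map OrderDual.toDual)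
      (Pr.map OrderDual.toDual) (L.reverse.map OrderDual.toDual) _ _
      (OrderDual.toDual z3) (OrderDual.toDual z2) (OrderDual.toDual z1) ih ?_ ?_ ?_ ?_ ?_ ?_ ?_ ?_ ?_ ?_
    · exact OrderDual.toDual_lt_toDual.mpr h23
    · exact OrderDual.toDual_lt_toDual.mpr h12
    · intro y hy
      obtain ⟨y0, hy0, rfl⟩ := List.mem_map.mp hy
      exact OrderDual.toDual_le_toDual.mpr (hR y0 (List.mem_reverse.mp hy0))
    · intro y hy
      obtain ⟨y0, hy0, rfl⟩ := List.mem_map.mp hy
      exact ⟨OrderDual.toDual_lt_toDual.mpr (hQ y0 hy0).2, OrderDual.toDual_le_toDual.mpr (hQ y0 hy0).1⟩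
    · intro y hy
      obtain ⟨y0, hy0, rfl⟩ := List.mem_map.mp hy
      exact ⟨OrderDual.toDual_le_toDual.mpr (hP y0 hy0).2, OrderDual.toDual_lt_toDual.mpr (hP y0 hy0).1⟩
    · intro y hy
      obtain ⟨y0, hy0, rfl⟩ := List.mem_map.mp hy
      exact OrderDual.toDual_le_toDual.mpr (hL y0 (List.mem_reverse.mp hy0))
    · rw [List.pairwise_map]
      exact hQs.imp (fun hab => OrderDual.toDual_le_toDual.mpr hab)
    · rw [List.pairwise_map]
      exact hPs.imp (fun hab => OrderDual.toDual_le_toDual.mpr hab)
    · intro t ht p hp q hq h1 h2 h3 h4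
      obtain ⟨t0, ht0, rfl⟩ := List.mem_map.mp ht
      have hp' : OrderDual.ofDual p ∈ t0.2 := Finset.mem_map_equiv.mp hp
      have hq' : OrderDual.ofDual q ∈ t0.2 := Finset.mem_map_equiv.mp hq
      have := hW t0 ht0 (OrderDual.ofDual p) hp' (OrderDual.ofDual q) hq' h2 h1 h4 h3
      exact this
    · intro l pr q r x1 x2 x3 a b c hl hpr hq hr H
      have hl' : ((r.reverse.map fun s => (OrderDual.ofDual s.1, s.2)) : List (α × Vec)).map Prod.fst = L := by
        have h1 := congrArg (fun u => (u.reverse).map OrderDual.ofDual) hr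
        simpa [List.map_map, Function.comp_def] using h1
      have hpr' : ((q.map fun s => (OrderDual.ofDual s.1, s.2)) : List (α × Vec)).map Prod.fst = Pr := by
        have h1 := congrArg (fun u => u.map OrderDual.ofDual) hq
        simpa [List.map_map, Function.comp_def] using h1
      have hq' : ((pr.map fun s => (OrderDual.ofDual s.1, s.2)) : List (α × Vec)).map Prod.fst = Q := by
        have h1 := congrArg (fun u => u.map OrderDual.ofDual) hpr
        simpa [List.map_map, Function.comp_def] using h1
      have hr' : ((l.reverse.map fun s => (OrderDual.ofDual s.1, s.2)) : List (α × Vec)).map Prod.fst = R := by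
        have h1 := congrArg (fun u => (u.reverse).map OrderDual.ofDual) hl
        simpa [List.map_map, Function.comp_def] using h1
      have key := hS (r.reverse.map fun s => (OrderDual.ofDual s.1, s.2))
        (q.map fun s => (OrderDual.ofDual s.1, s.2)) (pr.map fun s => (OrderDual.ofDual s.1, s.2))
        (l.reverse.map fun s => (OrderDual.ofDual s.1, s.2)) (OrderDual.ofDual x3) (OrderDual.ofDual x2)
        (OrderDual.ofDual x1) c b a hl' hpr' hq' hr' ?_
      · have e3 : ((l ++ (x1, a) :: (pr.reverse ++ (x2, b) :: (q ++ (x3, c) :: r))).map Prod.snd).reverse =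
            (((r.reverse.map fun s => (OrderDual.ofDual s.1, s.2)) ++ (OrderDual.ofDual x3, c) ::
              ((q.map fun s => (OrderDual.ofDual s.1, s.2)).reverse ++ (OrderDual.ofDual x2, b) ::
              ((pr.map fun s => (OrderDual.ofDual s.1, s.2)) ++ (OrderDual.ofDual x1, a) ::
              (l.reverse.map fun s => (OrderDual.ofDual s.1, s.2)))) : List (α × Vec)).map Prod.snd) := by
          simp [List.map_map, Function.comp_def]
        show g ((l ++ (x1, a) :: (pr.reverse ++ (x2, b) :: (q ++ (x3, c) :: r))).map Prod.snd).reverse = 0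
        rw [e3]
        exact key
      · intro a1 p1 c1 q1 hA hB
        have hA' := CarR.mapPB (OrderDual.toDual : α → αᵒᵈ) hA
        have hB' := CarR.mapPB (OrderDual.toDual : α → αᵒᵈ) hB
        have e4 : ∀ u : List (αᵒᵈ × Vec), (u.map fun s => (OrderDual.ofDual s.1, s.2)).map
            (fun s => ((OrderDual.toDual s.1, s.2) : αᵒᵈ × Vec)) = u := by
          intro u
          simp [List.map_map, Function.comp_def]
        rw [e4] at hA' hB'
        have h2 := H c1 _ a1 _ hB' hA'
        rcases h2 with h2 | h2 | h2 | h2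
        · exact Or.inr (Or.inl h2.symm)
        · exact Or.inl h2.symm
        · exact Or.inr (Or.inr (Or.inl h2.symm))
        · right; right; right
          have e5 : ((l ++ ((q1.map fun s => ((OrderDual.toDual s.1, s.2) : αᵒᵈ × Vec)).reverse ++
              ((p1.map fun s => ((OrderDual.toDual s.1, s.2) : αᵒᵈ × Vec)) ++ r))).map Prod.snd).reverse =
              (((r.reverse.map fun s => (OrderDual.ofDual s.1, s.2)) ++ (p1.reverse ++ (q1 ++
                (l.reverse.map fun s => (OrderDual.ofDual s.1, s.2)))) : List (α × Vec)).map Prod.snd) := by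
            simp [List.map_map, Function.comp_def]
          rw [← e5]
          exact h2
  | poly T L A Pr M Q C R f g P p1 p2 p3 p4 hD h12 h23 h34 m1 m2 m3 m4 hA hM hC hL hP hQ hR hPs
      hQs hF hW hS ih =>
    have e1 : (L ++ (Pr.reverse ++ (Q ++ R))).reverse.map OrderDual.toDual =
        R.reverse.map OrderDual.toDual ++ ((Q.map OrderDual.toDual).reverse ++
          (Pr.map OrderDual.toDual ++ L.reverse.map OrderDual.toDual)) := by
      simp
    have e2 : (L ++ (A ++ (Pr.reverse ++ (M ++ (Q ++ (C ++ R)))))).reverse.map OrderDual.toDual =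
        R.reverse.map OrderDual.toDual ++ (C.reverse.map OrderDual.toDual ++
          ((Q.map OrderDual.toDual).reverse ++ (M.reverse.map OrderDual.toDual ++
            (Pr.map OrderDual.toDual ++ (A.reverse.map OrderDual.toDual ++
              L.reverse.map OrderDual.toDual))))) := by
      simp
    rw [e1] at ih
    rw [e2, List.map_cons]
    refine DP.poly (α := αᵒᵈ) _ (R.reverse.map OrderDual.toDual) (C.reverse.map OrderDual.toDual)
      (Q.map OrderDual.toDual) (M.reverse.map OrderDual.toDual) (Pr.map OrderDual.toDual)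
      (A.reverse.map OrderDual.toDual) (L.reverse.map OrderDual.toDual) _ _
      (P.map OrderDual.toDual.toEmbedding) (OrderDual.toDual p4) (OrderDual.toDual p3)
      (OrderDual.toDual p2) (OrderDual.toDual p1) ih ?_ ?_ ?_ ?_ ?_ ?_ ?_ ?_ ?_ ?_ ?_ ?_ ?_ ?_ ?_ ?_
      ?_ ?_ ?_
    · exact OrderDual.toDual_lt_toDual.mpr h34
    · exact OrderDual.toDual_lt_toDual.mpr h23
    · exact OrderDual.toDual_lt_toDual.mpr h12
    · exact Finset.mem_map_equiv.mpr m4
    · exact Finset.mem_map_equiv.mpr m3
    · exact Finset.mem_map_equiv.mpr m2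
    · exact Finset.mem_map_equiv.mpr m1
    · intro y hy
      obtain ⟨y0, hy0, rfl⟩ := List.mem_map.mp hy
      rw [hC y0 (List.mem_reverse.mp hy0)]
    · intro y hy
      obtain ⟨y0, hy0, rfl⟩ := List.mem_map.mp hy
      obtain ⟨h1, h2, h3⟩ := hM y0 (List.mem_reverse.mp hy0)
      exact ⟨Finset.mem_map_equiv.mpr h1, OrderDual.toDual_le_toDual.mpr h3,
        OrderDual.toDual_le_toDual.mpr h2⟩
    · intro y hy
      obtain ⟨y0, hy0, rfl⟩ := List.mem_map.mp hy
      rw [hA y0 (List.mem_reverse.mp hy0)]
    · intro y hy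
      obtain ⟨y0, hy0, rfl⟩ := List.mem_map.mp hy
      exact OrderDual.toDual_le_toDual.mpr (hR y0 (List.mem_reverse.mp hy0))
    · intro y hy
      obtain ⟨y0, hy0, rfl⟩ := List.mem_map.mp hy
      exact ⟨OrderDual.toDual_lt_toDual.mpr (hQ y0 hy0).2, OrderDual.toDual_le_toDual.mpr (hQ y0 hy0).1⟩
    · intro y hy
      obtain ⟨y0, hy0, rfl⟩ := List.mem_map.mp hy
      exact ⟨OrderDual.toDual_le_toDual.mpr (hP y0 hy0).2, OrderDual.toDual_lt_toDual.mpr (hP y0 hy0).1⟩
    · intro y hy
      obtain ⟨y0, hy0, rfl⟩ := List.mem_map.mp hy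
      exact OrderDual.toDual_le_toDual.mpr (hL y0 (List.mem_reverse.mp hy0))
    · rw [List.pairwise_map]
      exact hQs.imp (fun hab => OrderDual.toDual_le_toDual.mpr hab)
    · rw [List.pairwise_map]
      exact hPs.imp (fun hab => OrderDual.toDual_le_toDual.mpr hab)
    · intro t ht y hy h1 h2
      obtain ⟨t0, ht0, rfl⟩ := List.mem_map.mp ht
      have hy' : OrderDual.ofDual y ∈ t0.2 := Finset.mem_map_equiv.mp hy
      obtain ⟨h3, h4⟩ := hF t0 ht0 (OrderDual.ofDual y) hy' h2 h1
      refine ⟨h3, ?_⟩
      rcases h4 with ⟨h4, h5⟩ | ⟨h4, h5⟩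
      · exact Or.inr ⟨h4, Finset.mem_map_equiv.mpr h5⟩
      · exact Or.inl ⟨h4, Finset.mem_map_equiv.mpr h5⟩
    · intro t ht p hp q hq h1 h2 h3 h4
      obtain ⟨t0, ht0, rfl⟩ := List.mem_map.mp ht
      have hp' : OrderDual.ofDual p ∈ t0.2 := Finset.mem_map_equiv.mp hp
      have hq' : OrderDual.ofDual q ∈ t0.2 := Finset.mem_map_equiv.mp hq
      have := hW t0 ht0 (OrderDual.ofDual p) hp' (OrderDual.ofDual q) hq' h2 h1 h4 h3
      exact this
    · intro l as pr mid q cs r hl has hpr hmid hq hcs hr H
      have hl' : ((r.reverse.map fun s => (OrderDual.ofDual s.1, s.2)) : List (α × Vec)).map Prod.fst = L := by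
        have h1 := congrArg (fun u => (u.reverse).map OrderDual.ofDual) hr
        simpa [List.map_map, Function.comp_def] using h1
      have ha' : ((cs.reverse.map fun s => (OrderDual.ofDual s.1, s.2)) : List (α × Vec)).map Prod.fst = A := by
        have h1 := congrArg (fun u => (u.reverse).map OrderDual.ofDual) hcs
        simpa [List.map_map, Function.comp_def] using h1
      have hpr' : ((q.map fun s => (OrderDual.ofDual s.1, s.2)) : List (α × Vec)).map Prod.fst = Pr := by
        have h1 := congrArg (fun u => u.map OrderDual.ofDual) hq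
        simpa [List.map_map, Function.comp_def] using h1
      have hm' : ((mid.reverse.map fun s => (OrderDual.ofDual s.1, s.2)) : List (α × Vec)).map Prod.fst = M := by
        have h1 := congrArg (fun u => (u.reverse).map OrderDual.ofDual) hmid
        simpa [List.map_map, Function.comp_def] using h1
      have hq' : ((pr.map fun s => (OrderDual.ofDual s.1, s.2)) : List (α × Vec)).map Prod.fst = Q := by
        have h1 := congrArg (fun u => u.map OrderDual.ofDual) hpr
        simpa [List.map_map, Function.comp_def] using h1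
      have hc' : ((as.reverse.map fun s => (OrderDual.ofDual s.1, s.2)) : List (α × Vec)).map Prod.fst = C := by
        have h1 := congrArg (fun u => (u.reverse).map OrderDual.ofDual) has
        simpa [List.map_map, Function.comp_def] using h1
      have hr' : ((l.reverse.map fun s => (OrderDual.ofDual s.1, s.2)) : List (α × Vec)).map Prod.fst = R := by
        have h1 := congrArg (fun u => (u.reverse).map OrderDual.ofDual) hl
        simpa [List.map_map, Function.comp_def] using h1
      have key := hS (r.reverse.map fun s => (OrderDual.ofDual s.1, s.2))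
        (cs.reverse.map fun s => (OrderDual.ofDual s.1, s.2))
        (q.map fun s => (OrderDual.ofDual s.1, s.2))
        (mid.reverse.map fun s => (OrderDual.ofDual s.1, s.2))
        (pr.map fun s => (OrderDual.ofDual s.1, s.2))
        (as.reverse.map fun s => (OrderDual.ofDual s.1, s.2))
        (l.reverse.map fun s => (OrderDual.ofDual s.1, s.2)) hl' ha' hpr' hm' hq' hc' hr' ?_
      · have e3 : ((l ++ (as ++ (pr.reverse ++ (mid ++ (q ++ (cs ++ r)))))).map Prod.snd).reverse =
            (((r.reverse.map fun s => (OrderDual.ofDual s.1, s.2)) ++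
              ((cs.reverse.map fun s => (OrderDual.ofDual s.1, s.2)) ++
              ((q.map fun s => (OrderDual.ofDual s.1, s.2)).reverse ++
              ((mid.reverse.map fun s => (OrderDual.ofDual s.1, s.2)) ++
              ((pr.map fun s => (OrderDual.ofDual s.1, s.2)) ++
              ((as.reverse.map fun s => (OrderDual.ofDual s.1, s.2)) ++
              (l.reverse.map fun s => (OrderDual.ofDual s.1, s.2))))))) : List (α × Vec)).map Prod.snd) := by
          simp [List.map_map, Function.comp_def]
        show g ((l ++ (as ++ (pr.reverse ++ (mid ++ (q ++ (cs ++ r)))))).map Prod.snd).reverse = 0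
        rw [e3]
        exact key
      · intro p1 q1 hA hB
        have ea : ((cs.reverse.map fun s => ((OrderDual.ofDual s.1, s.2) : α × Vec)).map
            Prod.snd).reverse = cs.map Prod.snd := by
          simp [List.map_map, Function.comp_def]
        have eb : ((as.reverse.map fun s => ((OrderDual.ofDual s.1, s.2) : α × Vec)).map
            Prod.snd) = (as.map Prod.snd).reverse := by
          simp [List.map_map, Function.comp_def]
        rw [ea] at hA
        rw [eb] at hB
        have hA' := CarM.mapPB (OrderDual.toDual : α → αᵒᵈ) hA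
        have hB' := CarM.mapPB (OrderDual.toDual : α → αᵒᵈ) hB
        have e4 : ∀ u : List (αᵒᵈ × Vec), (u.map fun s => (OrderDual.ofDual s.1, s.2)).map
            (fun s => ((OrderDual.toDual s.1, s.2) : αᵒᵈ × Vec)) = u := by
          intro u
          simp [List.map_map, Function.comp_def]
        rw [e4] at hA' hB'
        have h2 := H _ _ hB' hA'
        have e5 : ((l ++ ((q1.map fun s => ((OrderDual.toDual s.1, s.2) : αᵒᵈ × Vec)).reverse ++
            ((p1.map fun s => ((OrderDual.toDual s.1, s.2) : αᵒᵈ × Vec)) ++ r))).map Prod.snd).reverse =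
            (((r.reverse.map fun s => (OrderDual.ofDual s.1, s.2)) ++ (p1.reverse ++ (q1 ++
              (l.reverse.map fun s => (OrderDual.ofDual s.1, s.2)))) : List (α × Vec)).map Prod.snd) := by
          simp [List.map_map, Function.comp_def]
        rw [← e5]
        exact h2

theorem DP.vanish' {α : Type} [LinearOrder α] {T : List (Bool × Finset α)} {labs : List α}
    {f : List Vec → ℂ} (h : DP T labs f) (x bd : α) (w : Vec) (S : List (α × Vec))
    (hS : S.map Prod.fst = labs)
    (hT : ∀ t ∈ T, ∀ p ∈ t.2, bd ≤ p → p < x → t.1 = true ∧ x ∈ t.2)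
    (hB : ∀ s ∈ S, s.1 = x → s.2 = w) (hw : ∃ s ∈ S, bd ≤ s.1 ∧ s.1 < x ∧ s.2 = w) :
    f (S.map Prod.snd) = 0 := by
  have key := DP.vanish h.rev (OrderDual.toDual x) (OrderDual.toDual bd) w
    (S.reverse.map fun s => ((OrderDual.toDual s.1, s.2) : αᵒᵈ × Vec)) ?_ ?_ ?_ ?_
  · have e : ((S.reverse.map fun s => ((OrderDual.toDual s.1, s.2) : αᵒᵈ × Vec)).map Prod.snd).reverse =
        S.map Prod.snd := by
      simp [List.map_map, Function.comp_def]
    have key' : f ((S.reverse.map fun s => ((OrderDual.toDual s.1, s.2) : αᵒᵈ × Vec)).map Prod.snd).reverse = 0 := key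
    rw [e] at key'
    exact key'
  · rw [← hS]
    simp [List.map_map, Function.comp_def]
  · intro t ht p hp h1 h2
    obtain ⟨t0, ht0, rfl⟩ := List.mem_map.mp ht
    have hp' : OrderDual.ofDual p ∈ t0.2 := Finset.mem_map_equiv.mp hp
    obtain ⟨h3, h4⟩ := hT t0 ht0 (OrderDual.ofDual p) hp' h2 h1
    exact ⟨h3, Finset.mem_map_equiv.mpr h4⟩
  · intro s hs hx
    obtain ⟨s0, hs0, rfl⟩ := List.mem_map.mp hs
    exact hB s0 (List.mem_reverse.mp hs0) hx
  · obtain ⟨s, hs, h1, h2, h3⟩ := hw
    exact ⟨(OrderDual.toDual s.1, s.2), List.mem_map.mpr ⟨s, List.mem_reverse.mpr hs, rfl⟩,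
      OrderDual.toDual_lt_toDual.mpr h2, OrderDual.toDual_le_toDual.mpr h1, h3⟩

end Pool.Agent.H7.WB
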