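import Pool.Agent.H7.WB.GC
import Pool.Agent.H7.WB.Defs2

namespace Pool.Agent.H7.WB

open Finset BigOperators

theorem ws3 {m : ℕ} (P : Finset (Fin m)) (t1 t2 t3 : Fin m)
    (hw : ∀ I ⊆ P, I.card = 3 → WeaklySeparated ({t1, t2, t3} : Finset (Fin m)) I)
    (x y z : Fin m) (hx : x ∈ P) (hy : y ∈ P) (hz : z ∈ P) (hxy : (x : ℕ) ≠ y) (hxz : (x : ℕ) ≠ z)
    (hyz : (y : ℕ) ≠ z) (a b c d : Fin m) (hab : (a : ℕ) < b) (hbc : (b : ℕ) < c)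
    (hcd : (c : ℕ) < d)
    (h : (((a : ℕ) = t1 ∨ (a : ℕ) = t2 ∨ (a : ℕ) = t3) ∧ ((a : ℕ) ≠ x ∧ (a : ℕ) ≠ y ∧ (a : ℕ) ≠ z) ∧
        ((c : ℕ) = t1 ∨ (c : ℕ) = t2 ∨ (c : ℕ) = t3) ∧ ((c : ℕ) ≠ x ∧ (c : ℕ) ≠ y ∧ (c : ℕ) ≠ z) ∧
        ((b : ℕ) = x ∨ (b : ℕ) = y ∨ (b : ℕ) = z) ∧ ((b : ℕ) ≠ t1 ∧ (b : ℕ) ≠ t2 ∧ (b : ℕ) ≠ t3) ∧
        ((d : ℕ) = x ∨ (d : ℕ) = y ∨ (d : ℕ) = z) ∧ ((d : ℕ) ≠ t1 ∧ (d : ℕ) ≠ t2 ∧ (d : ℕ) ≠ t3)) ∨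
      (((b : ℕ) = t1 ∨ (b : ℕ) = t2 ∨ (b : ℕ) = t3) ∧ ((b : ℕ) ≠ x ∧ (b : ℕ) ≠ y ∧ (b : ℕ) ≠ z) ∧
        ((d : ℕ) = t1 ∨ (d : ℕ) = t2 ∨ (d : ℕ) = t3) ∧ ((d : ℕ) ≠ x ∧ (d : ℕ) ≠ y ∧ (d : ℕ) ≠ z) ∧
        ((a : ℕ) = x ∨ (a : ℕ) = y ∨ (a : ℕ) = z) ∧ ((a : ℕ) ≠ t1 ∧ (a : ℕ) ≠ t2 ∧ (a : ℕ) ≠ t3) ∧
        ((c : ℕ) = x ∨ (c : ℕ) = y ∨ (c : ℕ) = z) ∧ ((c : ℕ) ≠ t1 ∧ (c : ℕ) ≠ t2 ∧ (c : ℕ) ≠ t3))) :
    False := by
  have hI : ({x, y, z} : Finset (Fin m)) ⊆ P := by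
    intro i hi
    simp only [Finset.mem_insert, Finset.mem_singleton] at hi
    rcases hi with rfl | rfl | rfl <;> assumption
  have hc : ({x, y, z} : Finset (Fin m)).card = 3 :=
    Finset.card_eq_three.2 ⟨x, y, z, Fin.ne_of_val_ne hxy, Fin.ne_of_val_ne hxz,
      Fin.ne_of_val_ne hyz, rfl⟩
  refine hw _ hI hc ⟨a, b, c, d, hab, hbc, hcd, ?_⟩
  simp only [Finset.mem_sdiff, Finset.mem_insert, Finset.mem_singleton, Fin.ext_iff, not_or]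
  rcases h with ⟨h1, h2, h3, h4, h5, h6, h7, h8⟩ | ⟨h1, h2, h3, h4, h5, h6, h7, h8⟩
  · exact Or.inl ⟨⟨h1, h2⟩, ⟨h5, h6⟩, ⟨h3, h4⟩, ⟨h7, h8⟩⟩
  · exact Or.inr ⟨⟨h5, h6⟩, ⟨h1, h2⟩, ⟨h7, h8⟩, ⟨h3, h4⟩⟩

theorem exists_other {m : ℕ} (P : Finset (Fin m)) (hc : 4 ≤ P.card) (a b c : Fin m) :
    ∃ z ∈ P, (z : ℕ) ≠ a ∧ (z : ℕ) ≠ b ∧ (z : ℕ) ≠ c := by
  classical
  by_contra hcon
  push_neg at hcon
  have : P ⊆ {a, b, c} := by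
    intro z hz
    simp only [Finset.mem_insert, Finset.mem_singleton, Fin.ext_iff]
    by_cases h1 : (z : ℕ) = a
    · exact Or.inl h1
    · by_cases h2 : (z : ℕ) = b
      · exact Or.inr (Or.inl h2)
      · exact Or.inr (Or.inr (hcon z hz h1 h2))
  have := (Finset.card_le_card this).trans Finset.card_le_three
  omega

theorem poly_star_one {m : ℕ} (P : Finset (Fin m)) (p1 p4 : Fin m)
    (t1 t2 t3 : Fin m) (hc : 4 ≤ P.card) (m1 : p1 ∈ P) (m4 : p4 ∈ P)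
    (hlo : ∀ p ∈ P, p1 ≤ p) (hhi : ∀ p ∈ P, p ≤ p4) (ht : t1 < t2 ∧ t2 < t3)
    (hw : ∀ I ⊆ P, I.card = 3 → WeaklySeparated ({t1, t2, t3} : Finset (Fin m)) I)
    (hs : (p4 : ℕ) - (p1 : ℕ) ≤ (t3 : ℕ) - (t1 : ℕ)) :
    ∀ p ∈ ({t1, t2, t3} : Finset (Fin m)), ∀ q ∈ ({t1, t2, t3} : Finset (Fin m)),
      p1 < p → p < p4 → p1 < q → q < p4 → p = q := by
  intro p hp q hq a b c d
  by_contra hne
  obtain ⟨z, hz, z1, z2, z3⟩ := exists_other P hc p1 p4 p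
  have hz1 := hlo z hz
  have hz4 := hhi z hz
  have W := ws3 P t1 t2 t3 hw p1 p4 z m1 m4 hz
  simp only [Finset.mem_insert, Finset.mem_singleton] at hp hq
  rw [Fin.ext_iff] at hne
  simp only [Fin.ext_iff, Fin.lt_def, Fin.le_def] at hp hq ht a b c d hz1 hz4
  by_cases h3 : (p4 : ℕ) < t3
  · exact W (by omega) (by omega) (by omega) p1 p p4 t3 (by omega) (by omega) (by omega)
      (Or.inr (by omega))
  · exact W (by omega) (by omega) (by omega) t1 p1 p p4 (by omega) (by omega) (by omega)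
      (Or.inl (by omega))

theorem poly_star_loc {m : ℕ} (P : Finset (Fin m)) (p1 p2 p3 p4 : Fin m)
    (t1 t2 t3 : Fin m) (hc : 4 ≤ P.card) (m1 : p1 ∈ P) (m2 : p2 ∈ P) (m3 : p3 ∈ P) (m4 : p4 ∈ P)
    (h12 : p1 < p2) (h23 : p2 < p3) (h34 : p3 < p4)
    (hlo : ∀ p ∈ P, p1 ≤ p) (hhi : ∀ p ∈ P, p ≤ p4)
    (ht : t1 < t2 ∧ t2 < t3)
    (hw : ∀ I ⊆ P, I.card = 3 → WeaklySeparated ({t1, t2, t3} : Finset (Fin m)) I)
    (hs : (p4 : ℕ) - (p1 : ℕ) ≤ (t3 : ℕ) - (t1 : ℕ)) :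
    ∀ y ∈ ({t1, t2, t3} : Finset (Fin m)), p1 < y → y < p4 →
      ((y ≤ p2 ∧ p1 ∈ ({t1, t2, t3} : Finset (Fin m))) ∨
        (p3 ≤ y ∧ p4 ∈ ({t1, t2, t3} : Finset (Fin m)))) := by
  have one := poly_star_one P p1 p4 t1 t2 t3 hc m1 m4 hlo hhi ht hw hs
  intro y hy a b
  have o1 := fun h h' => one t1 (by simp) y hy h h' a b
  have o2 := fun h h' => one t2 (by simp) y hy h h' a b
  have o3 := fun h h' => one t3 (by simp) y hy h h' a b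
  obtain ⟨z, hz, z1, z2, z3⟩ := exists_other P hc p1 p4 y
  have hz1 := hlo z hz
  have hz4 := hhi z hz
  have W1 := ws3 P t1 t2 t3 hw p1 z p4 m1 hz m4
  have W2 := ws3 P t1 t2 t3 hw p2 p3 p4 m2 m3 m4
  have W3 := ws3 P t1 t2 t3 hw p1 p2 p4 m1 m2 m4
  have W4 := ws3 P t1 t2 t3 hw p1 p3 p4 m1 m3 m4
  have W5 := ws3 P t1 t2 t3 hw p1 p2 p3 m1 m2 m3
  simp only [Finset.mem_insert, Finset.mem_singleton] at hy ⊢
  by_contra hcon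
  simp only [Fin.ext_iff, Fin.lt_def, Fin.le_def] at hy ht a b o1 o2 o3 hz1 hz4 h12 h23 h34 hcon
  have o1' : (t1 : ℕ) ≤ p1 ∨ (p4 : ℕ) ≤ t1 ∨ (t1 : ℕ) = y := by omega
  have o2' : (t2 : ℕ) ≤ p1 ∨ (p4 : ℕ) ≤ t2 ∨ (t2 : ℕ) = y := by omega
  have o3' : (t3 : ℕ) ≤ p1 ∨ (p4 : ℕ) ≤ t3 ∨ (t3 : ℕ) = y := by omega
  clear o1 o2 o3
  have fin2 : ∀ n : ℕ, True := fun _ => trivial
  by_cases e1 : (p1 : ℕ) = t1 ∨ (p1 : ℕ) = t2 ∨ (p1 : ℕ) = t3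
  · by_cases e4 : (p4 : ℕ) = t1 ∨ (p4 : ℕ) = t2 ∨ (p4 : ℕ) = t3
    · -- both
      exact W2 (by omega) (by omega) (by omega) p1 p2 y p3 (by omega) (by omega) (by omega)
        (Or.inl (by omega))
    · -- only p1, y > p2
      by_cases h3 : (p4 : ℕ) < t3
      · exact W3 (by omega) (by omega) (by omega) p2 y p4 t3 (by omega) (by omega) (by omega)
          (Or.inr (by omega))
      · exact W3 (by omega) (by omega) (by omega) t1 p2 y p4 (by omega) (by omega) (by omega)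
          (Or.inl (by omega))
  · by_cases e4 : (p4 : ℕ) = t1 ∨ (p4 : ℕ) = t2 ∨ (p4 : ℕ) = t3
    · by_cases h3 : (p4 : ℕ) < t3
      · exact W4 (by omega) (by omega) (by omega) p1 y p3 t3 (by omega) (by omega) (by omega)
          (Or.inr (by omega))
      · exact W4 (by omega) (by omega) (by omega) t1 p1 y p3 (by omega) (by omega) (by omega)
          (Or.inl (by omega))
    · by_cases h3 : (p4 : ℕ) < t3
      · exact W1 (by omega) (by omega) (by omega) p1 y p4 t3 (by omega) (by omega) (by omega)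
          (Or.inr (by omega))
      · exact W1 (by omega) (by omega) (by omega) t1 p1 y p4 (by omega) (by omega) (by omega)
          (Or.inl (by omega))

theorem star_poly {m : ℕ} (P : Finset (Fin m)) (p1 p4 : Fin m)
    (z1 z2 z3 : Fin m) (hc : 4 ≤ P.card) (m1 : p1 ∈ P) (m4 : p4 ∈ P)
    (hz : z1 < z2 ∧ z2 < z3)
    (hw : ∀ I ⊆ P, I.card = 3 → WeaklySeparated ({z1, z2, z3} : Finset (Fin m)) I)
    (hs : (z3 : ℕ) - (z1 : ℕ) < (p4 : ℕ) - (p1 : ℕ)) :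
    ∀ p ∈ P, z1 < p → p < z3 → p = z2 := by
  intro p hp a b
  by_contra hne
  rw [Fin.ext_iff] at hne
  simp only [Fin.lt_def] at hz a b
  -- an element of P outside of [z1, z3]
  obtain ⟨u, hu, hu'⟩ : ∃ u ∈ P, (u : ℕ) < z1 ∨ (z3 : ℕ) < u := by
    by_cases h : (p1 : ℕ) < z1
    · exact ⟨p1, m1, Or.inl h⟩
    · exact ⟨p4, m4, Or.inr (by omega)⟩
  by_cases hy : ∃ y ∈ P, (y : ℕ) ≠ p ∧ (y : ℕ) ≠ u ∧ (y : ℕ) ≠ z1 ∧ (y : ℕ) ≠ z3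
  · obtain ⟨y, hyP, y1, y2, y3, y4⟩ := hy
    have W := ws3 P z1 z2 z3 hw p u y hp hu hyP (by omega) (by omega) (by omega)
    rcases hu' with h | h
    · exact W u z1 p z3 (by omega) (by omega) (by omega) (Or.inr (by omega))
    · exact W z1 p z3 u (by omega) (by omega) (by omega) (Or.inl (by omega))
  · push_neg at hy
    have m1' : z1 ∈ P := by
      obtain ⟨y, hyP, y1, y2, y3⟩ := exists_other P hc p u z3
      by_cases h : (y : ℕ) = z1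
      · rwa [← Fin.ext h]
      · exact absurd (hy y hyP y1 y2 h) y3
    have m3' : z3 ∈ P := by
      obtain ⟨y, hyP, y1, y2, y3⟩ := exists_other P hc p u z1
      have := hy y hyP y1 y2 y3
      rwa [← Fin.ext this]
    by_cases h2 : (p : ℕ) < z2
    · have W := ws3 P z1 z2 z3 hw p u z3 hp hu m3' (by omega) (by omega) (by omega)
      rcases hu' with h | h
      · exact W u z1 p z2 (by omega) (by omega) (by omega) (Or.inr (by omega))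
      · exact W z1 p z2 u (by omega) (by omega) (by omega) (Or.inl (by omega))
    · have W := ws3 P z1 z2 z3 hw p u z1 hp hu m1' (by omega) (by omega) (by omega)
      rcases hu' with h | h
      · exact W u z2 p z3 (by omega) (by omega) (by omega) (Or.inr (by omega))
      · exact W z2 p z3 u (by omega) (by omega) (by omega) (Or.inl (by omega))

theorem poly_poly {m : ℕ} (P Q : Finset (Fin m)) (p1 p4 q1 q4 : Fin m)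
    (hP : 4 ≤ P.card) (hQ : 4 ≤ Q.card) (m1 : p1 ∈ P) (m4 : p4 ∈ P)
    (hlo : ∀ p ∈ P, p1 ≤ p) (hhi : ∀ p ∈ P, p ≤ p4) (n1 : q1 ∈ Q) (n4 : q4 ∈ Q)
    (hlo' : ∀ p ∈ Q, q1 ≤ p) (hhi' : ∀ p ∈ Q, p ≤ q4) (hn : NonCrossing P Q)
    (hs : (p4 : ℕ) - (p1 : ℕ) ≤ (q4 : ℕ) - (q1 : ℕ)) :
    ∀ q ∈ Q, p1 < q → q < p4 → False := by
  intro q hq a b
  have N : ∀ a b c d : Fin m, (a : ℕ) < b → (b : ℕ) < c → (c : ℕ) < d →
      ((a ∈ P ∧ b ∈ Q ∧ c ∈ P ∧ d ∈ Q) ∨ (a ∈ Q ∧ b ∈ P ∧ c ∈ Q ∧ d ∈ P)) → False :=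
    fun a b c d h1 h2 h3 h => hn ⟨a, b, c, d, h1, h2, h3, h⟩
  simp only [Fin.lt_def] at a b
  have g1 := hlo' q hq
  have g4 := hhi' q hq
  simp only [Fin.le_def] at g1 g4
  by_cases h1 : (q1 : ℕ) < p1
  · exact N q1 p1 q p4 h1 a b (Or.inr ⟨n1, m1, hq, m4⟩)
  by_cases h4 : (p4 : ℕ) < q4
  · exact N p1 q p4 q4 a b h4 (Or.inl ⟨m1, hq, m4, n4⟩)
  have e1 : (q1 : ℕ) = p1 := by omega
  have e4 : (q4 : ℕ) = p4 := by omega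
  -- another inner element of Q
  obtain ⟨q', hq', r1, r2, r3⟩ := exists_other Q hQ q1 q4 q
  obtain ⟨p, hp, s1, s2, _⟩ := exists_other P hP p1 p4 p4
  have u1 := hlo' q' hq'
  have u2 := hhi' q' hq'
  have u3 := hlo p hp
  have u4 := hhi p hp
  simp only [Fin.le_def] at u1 u2 u3 u4
  -- order q, q'
  obtain ⟨c, d, hc, hd, hcd, c1, d4⟩ : ∃ c d : Fin m, c ∈ Q ∧ d ∈ Q ∧ (c : ℕ) < d ∧
      (p1 : ℕ) < c ∧ (d : ℕ) < p4 := by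
    rcases lt_or_gt_of_ne r3 with h | h
    · exact ⟨q', q, hq', hq, h, by omega, by omega⟩
    · exact ⟨q, q', hq, hq', h, by omega, by omega⟩
  by_cases h : (p : ℕ) < d
  · exact N q1 p d p4 (by omega) h (by omega) (Or.inr ⟨n1, hp, hd, m4⟩)
  · exact N p1 c p q4 c1 (by omega) (by omega) (Or.inl ⟨m1, hc, hp, n4⟩)

end Pool.Agent.H7.WB
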