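import Pool.Agent.H7.WB.PDefs
import Pool.Agent.H7.WB.GE

/-!
to the left, the leftmost one first: induction on zs (B, L, R, E, V, F general). zs = []: Y = B, nothing changes.
zs = z1 :: zs1: ladderL (GE.lean) for z1, B, L, R' = wh zs1 ++ R gives Y1, z1', E1, V1, F1; then the induction
hypothesis for zs1, B := Y1, L' = L ++ [(z1', true)], E1, V1, F1. Its conditions: z in zs1 is in V, so not in Y1
(new), and if (z, t) in E1 and (b, t) in E1 with b in Y1: b is not in V, so (b, t) is not in E and t is not in V;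
(z, t) is not in E then (planar_mem), so z in B or z = z1 or z not in V by the clause of ladderL: impossible.
 zs'.Nodup: the head z1' is z1 or new, it is in V1; z' in zs1' is in zs1 (pointwise the same) or not in V1.
Pointwise clauses are Forall2. Evaluation: for zv = s1 :: zv1,
F' (l ++ s1 :: zv1 ++ q.reverse ++ r) = F1 (l ++ s1 :: q.reverse ++ zv1 ++ r) = F (l ++ q.reverse ++ s1 :: zv1 ++ r),
where the hypotheses of both steps follow from
 carMN_snoc1: CarMN ar q q' -> CarR q' a a' q'' -> CarMN (ar ++ [a]) q q''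
 carMN_snoc2: CarN q a a' q'' -> CarMN (ar ++ [a]) q q''.
-/

namespace Pool.Agent.H7.WB

open Finset BigOperators

private theorem pd_carM_snoc {β : Type} {ar : List Vec} {q q' q'' : List (β × Vec)} {a a' : Vec}
    (h : CarM ar q q') (h2 : CarR q' a a' q'') : CarM (ar ++ [a]) q q'' := by
  induction h with
  | nil p => exact CarM.cons a [] p a' q'' q'' h2 (CarM.nil q'')
  | cons a0 ar p a0' p' p'' h h3 ih => exact CarM.cons a0 (ar ++ [a]) p a0' p' q'' h (ih h2)

theorem carMN_snoc1 {β : Type} {ar : List Vec} {q q' q'' : List (β × Vec)} {a a' : Vec}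
    (h : CarMN ar q q') (h2 : CarR q' a a' q'') : CarMN (ar ++ [a]) q q'' := by
  induction h with
  | here a0 ar p a0' p' p'' h h3 =>
    exact CarMN.here a0 (ar ++ [a]) p a0' p' q'' h (pd_carM_snoc h3 h2)
  | there a0 ar p p'' h3 ih => exact CarMN.there a0 (ar ++ [a]) p q'' (ih h2)

theorem carMN_snoc2 {β : Type} (ar : List Vec) {q q'' : List (β × Vec)} {a a' : Vec}
    (h : CarN q a a' q'') : CarMN (ar ++ [a]) q q'' := by
  induction ar with
  | nil => exact CarMN.here a [] q a' q'' q'' h (CarM.nil q'')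
  | cons a0 ar ih => exact CarMN.there a0 (ar ++ [a]) q q'' ih

private theorem pd_forall2_of_len {P : ℕ → Prop} : ∀ (B Y : List ℕ), Y.length = B.length →
    (∀ y ∈ Y, P y) → List.Forall₂ (fun b y => y = b ∨ P y) B Y
  | [], [], _, _ => List.Forall₂.nil
  | [], _ :: _, h, _ => by simp at h
  | _ :: _, [], h, _ => by simp at h
  | b :: B, y :: Y, h, hP => List.Forall₂.cons (Or.inr (hP y (by simp)))
      (pd_forall2_of_len B Y (by simpa using h) fun a ha => hP a (by simp [ha]))

private theorem pd_forall2_mem {Q : ℕ → ℕ → Prop} : ∀ {B Y : List ℕ}, List.Forall₂ Q B Y →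
    ∀ y ∈ Y, ∃ b ∈ B, Q b y
  | _, _, List.Forall₂.nil, y, hy => by simp at hy
  | _, _, List.Forall₂.cons (a := b) h hs, y, hy => by
    rcases List.mem_cons.1 hy with rfl | hy
    · exact ⟨b, by simp, h⟩
    · obtain ⟨b', hb', hq⟩ := pd_forall2_mem hs y hy
      exact ⟨b', by simp [hb'], hq⟩

theorem gridL (zs : List ℕ) : ∀ (B : List ℕ) (L R : List (ℕ × Bool)) (E : List (ℕ × ℕ))
    (V : Finset ℕ) (F : List (Fin 3) → ℂ),
    Planar (L ++ ((wh B).reverse ++ (wh zs ++ R))) E V F → NonElliptic E → (∀ z ∈ zs, z ∈ V) →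
    (∀ b ∈ B, b ∈ V) → zs.Nodup → B.Nodup → (∀ z ∈ zs, z ∉ B) →
    (∀ z ∈ zs, ∀ b ∈ B, ∀ t, (z, t) ∈ E → (b, t) ∉ E) →
    ∃ (Y zs' : List ℕ) (E' : List (ℕ × ℕ)) (V' : Finset ℕ) (F' : List (Fin 3) → ℂ),
      Planar (L ++ (wh zs' ++ ((wh Y).reverse ++ R))) E' V' F' ∧ NonElliptic E' ∧
      V ⊆ V' ∧ Y.Nodup ∧ zs'.Nodup ∧
      List.Forall₂ (fun b y => y = b ∨ y ∉ V) B Y ∧
      List.Forall₂ (fun z z' => z' = z ∨ z' ∉ V) zs zs' ∧
      (∀ e ∈ E', e ∈ E ∨ (e.2 ∉ V ∧ (e.1 ∈ B ∨ e.1 ∈ zs ∨ e.1 ∉ V))) ∧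
      ∀ (β : Type) (l r q zv : List (β × Vec)), l.length = L.length →
        r.length = R.length → q.length = B.length → zv.length = zs.length →
        (∀ q', CarMN (zv.map Prod.snd).reverse q q' → ∀ zz : List (β × Vec),
          zz.length = zv.length → ev ((l ++ (q'.reverse ++ (zz ++ r))).map Prod.snd) F = 0) →
        ev ((l ++ (zv ++ (q.reverse ++ r))).map Prod.snd) F' =
          ev ((l ++ (q.reverse ++ (zv ++ r))).map Prod.snd) F := by
  induction zs with
  | nil =>
    intro B L R E V F hP hE _ _ _ hBn _ _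
    refine ⟨B, [], E, V, F, by simpa using hP, hE, Finset.Subset.refl _, hBn, List.nodup_nil,
      ?_, List.Forall₂.nil, fun e he => Or.inl he, ?_⟩
    · exact List.forall₂_same.2 fun b _ => Or.inl rfl
    · intro β l r q zv _ _ _ hzv _
      have hz0 : zv = [] := List.length_eq_zero_iff.1 (by simpa using hzv)
      subst hz0
      simp
  | cons z1 zs1 ih =>
    intro B L R E V F hP hE hz hB hzn hBn hzB hc
    have hV : ∀ e ∈ E, e.1 ∈ V ∧ e.2 ∈ V := (planar_mem hP).1
    have hzn' := List.nodup_cons.1 hzn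
    obtain ⟨Y1, z1', E1, V1, F1, p1, p2, p3, p4, p5, p6, p7, p8, p9, p10⟩ :=
      ladderL B L (wh zs1 ++ R) E V F z1 (by simpa using hP) hE (hz z1 (by simp)) hB hBn
        (hzB z1 (by simp)) (fun b hb t ht => hc z1 (by simp) b hb t ht)
    obtain ⟨Y, zs1', E', V', F', q1, q2, q3, q4, q5, q6, q7, q8, q9⟩ :=
      ih Y1 (L ++ [(z1', true)]) R E1 V1 F1 (by simpa using p1) p2
        (fun z h => p3 (hz z (by simp [h]))) (fun b hb => (p6 b hb).2) hzn'.2 p5
        (fun z h h' => (p6 z h').1 (hz z (by simp [h]))) (by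
          intro z hzz b hb t ht ht'
          have hzV : z ∈ V := hz z (by simp [hzz])
          have htE : (z, t) ∈ E := by
            rcases p9 _ ht with h | ⟨_, h⟩
            · exact h
            · rcases h with h | h | h
              · exact absurd h (hzB z (by simp [hzz]))
              · have h' : z = z1 := h
                exact absurd (h' ▸ hzz) hzn'.1
              · exact absurd hzV h
          rcases p9 _ ht' with h | ⟨h, _⟩
          · exact (p6 b hb).1 (hV _ h).1
          · exact h (hV _ htE).2)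
    have hYlen : Y.length = B.length := by
      rw [← q6.length_eq, p4]
    have hYV : ∀ y ∈ Y, y ∉ V := by
      intro y hy
      obtain ⟨b, hb, h | h⟩ := pd_forall2_mem q6 y hy
      · rw [h]; exact (p6 b hb).1
      · exact fun h' => h (p3 h')
    refine ⟨Y, z1' :: zs1', E', V', F', by simpa using q1, q2, p3.trans q3, q4, ?_,
      pd_forall2_of_len (P := fun y => y ∉ V) B Y hYlen hYV, List.Forall₂.cons p8 ?_, ?_, ?_⟩
    · refine List.nodup_cons.2 ⟨fun h => ?_, q5⟩
      obtain ⟨z, hzz, h1 | h1⟩ := pd_forall2_mem q7 z1' h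
      · rcases p8 with h2 | h2
        · exact hzn'.1 (by rw [← h2, h1]; exact hzz)
        · exact h2 (by rw [h1]; exact hz z (by simp [hzz]))
      · exact h1 p7
    · refine q7.imp fun z z' h => ?_
      rcases h with h | h
      · exact Or.inl h
      · exact Or.inr fun h' => h (p3 h')
    · intro e he
      rcases q8 e he with h | ⟨h1, h2⟩
      · rcases p9 e h with h | ⟨h1, h2⟩
        · exact Or.inl h
        · refine Or.inr ⟨h1, ?_⟩
          rcases h2 with h2 | h2 | h2
          · exact Or.inl h2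
          · exact Or.inr (Or.inl (by simp [h2]))
          · exact Or.inr (Or.inr h2)
      · refine Or.inr ⟨fun h => h1 (p3 h), ?_⟩
        rcases h2 with h2 | h2 | h2
        · exact Or.inr (Or.inr (p6 _ h2).1)
        · exact Or.inr (Or.inl (by simp [h2]))
        · exact Or.inr (Or.inr fun h => h2 (p3 h))
    · intro β l r q zv hl hr hq hzv hZ
      obtain _ | ⟨s1, zv1⟩ := zv
      · simp at hzv
      have hzv1 : zv1.length = zs1.length := by simpa using hzv
      have hrev : ((s1 :: zv1).map Prod.snd).reverse = (zv1.map Prod.snd).reverse ++ [s1.2] := by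
        simp
      rw [hrev] at hZ
      have hlen : ∀ zz : List (β × Vec), zz.length = zv1.length →
          (zz ++ r).length = (wh zs1 ++ R).length := by
        intro zz h
        simp [wh, h, hzv1, hr]
      have key1 : ∀ q', CarMN (zv1.map Prod.snd).reverse q q' → ∀ zz : List (β × Vec),
          zz.length = zv1.length →
          ev (((l ++ [s1]) ++ (q'.reverse ++ (zz ++ r))).map Prod.snd) F1 = 0 := by
        intro q' hq' zz hzz
        have hq'len : q'.length = B.length := by
          have := congrArg List.length hq'.toM.labels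
          rw [List.length_map, List.length_map] at this
          rw [this, hq]
        have h1 := p10 β l (zz ++ r) q' s1.1 s1.2 hl (hlen zz hzz) hq'len (by
          intro c' q'' hN
          have h2 := hZ q'' (carMN_snoc1 hq' hN.toR) ((s1.1, c') :: zz) (by simp [hzz])
          simpa using h2)
        have h3 := hZ q' (carMN_snoc1 hq' (CarR.refl q' s1.2)) (s1 :: zz) (by simp [hzz])
        have e1 : ((l ++ [s1]) ++ (q'.reverse ++ (zz ++ r))).map Prod.snd =
            (l ++ (s1.1, s1.2) :: (q'.reverse ++ (zz ++ r))).map Prod.snd := by simp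
        have e2 : (l ++ (q'.reverse ++ (s1.1, s1.2) :: (zz ++ r))).map Prod.snd =
            (l ++ (q'.reverse ++ ((s1 :: zz) ++ r))).map Prod.snd := by simp
        rw [e1, h1, e2, h3]
      have key2 := q9 β (l ++ [s1]) r q zv1 (by simp [hl]) hr (by rw [p4, hq]) hzv1 key1
      have key3 := p10 β l (zv1 ++ r) q s1.1 s1.2 hl (hlen zv1 rfl) hq (by
        intro c' q'' hN
        have h2 := hZ q'' (carMN_snoc2 _ hN) ((s1.1, c') :: zv1) (by simp)
        simpa using h2)
      have e1 : (l ++ ((s1 :: zv1) ++ (q.reverse ++ r))).map Prod.snd =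
          ((l ++ [s1]) ++ (zv1 ++ (q.reverse ++ r))).map Prod.snd := by simp
      have e2 : ((l ++ [s1]) ++ (q.reverse ++ (zv1 ++ r))).map Prod.snd =
          (l ++ (s1.1, s1.2) :: (q.reverse ++ (zv1 ++ r))).map Prod.snd := by simp
      have e3 : (l ++ (q.reverse ++ (s1.1, s1.2) :: (zv1 ++ r))).map Prod.snd =
          (l ++ (q.reverse ++ ((s1 :: zv1) ++ r))).map Prod.snd := by simp
      rw [e1, key2, e2, key3, e3]

end Pool.Agent.H7.WB
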