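import Pool.Agent.H7.WB.GDefs

namespace Pool.Agent.H7.WB

open Finset BigOperators

/-- several legs with target vectors (innermost first) passing the same ends -/
inductive CarM {β : Type} : List Vec → List (β × Vec) → List (β × Vec) → Prop
  | nil (p : List (β × Vec)) : CarM [] p p
  | cons (a : Vec) (ar : List Vec) (p : List (β × Vec)) (a' : Vec) (p' p'' : List (β × Vec))
      (h : CarR p a a' p') (h2 : CarM ar p' p'') : CarM (a :: ar) p p''

/-- the same with at least one crossing smoothed -/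
inductive CarMN {β : Type} : List Vec → List (β × Vec) → List (β × Vec) → Prop
  | here (a : Vec) (ar : List Vec) (p : List (β × Vec)) (a' : Vec) (p' p'' : List (β × Vec))
      (h : CarN p a a' p') (h2 : CarM ar p' p'') : CarMN (a :: ar) p p''
  | there (a : Vec) (ar : List Vec) (p p'' : List (β × Vec)) (h2 : CarMN ar p p'') :
      CarMN (a :: ar) p p''

theorem CarM.labels {β : Type} {ar : List Vec} {p p' : List (β × Vec)} (h : CarM ar p p') :
    p'.map Prod.fst = p.map Prod.fst := by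
  induction h with
  | nil p => rfl
  | cons a ar p a' p' p'' h h2 ih => rw [ih, h.labels]

theorem CarM.refl {β : Type} (ar : List Vec) (p : List (β × Vec)) : CarM ar p p := by
  induction ar with
  | nil => exact CarM.nil p
  | cons a ar ih => exact CarM.cons a ar p a p p (CarR.refl p a) ih

theorem CarMN.toM {β : Type} {ar : List Vec} {p p' : List (β × Vec)} (h : CarMN ar p p') :
    CarM ar p p' := by
  induction h with
  | here a ar p a' p' p'' h h2 => exact CarM.cons a ar p a' p' p'' h.toR h2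
  | there a ar p p'' h2 ih => exact CarM.cons a ar p a p p'' (CarR.refl p a) ih

/-- vanishing relation for the insertion of a web on a polygon: `A`, `C` are the labels of the
outer legs, `M` those of the middle ones -/
def StepPV {α : Type} (L A Pr M Q C R : List α) (f g : List Vec → ℂ) : Prop :=
  ∀ l as pr mid q cs r : List (α × Vec), l.map Prod.fst = L → as.map Prod.fst = A →
    pr.map Prod.fst = Pr → mid.map Prod.fst = M → q.map Prod.fst = Q → cs.map Prod.fst = C →
    r.map Prod.fst = R →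
    (∀ pr' q', CarM (as.map Prod.snd).reverse pr pr' → CarM (cs.map Prod.snd) q q' →
      f ((l ++ (pr'.reverse ++ (q' ++ r))).map Prod.snd) = 0) →
    g ((l ++ (as ++ (pr.reverse ++ (mid ++ (q ++ (cs ++ r)))))).map Prod.snd) = 0

/-- main relation for the insertion of a web with function `fw` on a polygon -/
def StepPM {α : Type} (L A Pr M Q C R : List α) (fw f g : List Vec → ℂ) : Prop :=
  ∀ l as pr mid q cs r : List (α × Vec), l.map Prod.fst = L → as.map Prod.fst = A →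
    pr.map Prod.fst = Pr → mid.map Prod.fst = M → q.map Prod.fst = Q → cs.map Prod.fst = C →
    r.map Prod.fst = R →
    (∀ pr' q', CarMN (as.map Prod.snd).reverse pr pr' → CarM (cs.map Prod.snd) q q' →
      f ((l ++ (pr'.reverse ++ (q' ++ r))).map Prod.snd) = 0) →
    (∀ q', CarMN (cs.map Prod.snd) q q' →
      f ((l ++ (pr.reverse ++ (q' ++ r))).map Prod.snd) = 0) →
    g ((l ++ (as ++ (pr.reverse ++ (mid ++ (q ++ (cs ++ r)))))).map Prod.snd) =
      fw ((as ++ (mid ++ cs)).map Prod.snd) * f ((l ++ (pr.reverse ++ (q ++ r))).map Prod.snd)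

/-- diagrams of tripods (`(true, {z1, z2, z3})`) and webs on polygons (`(false, P)`), inserted one
after the other (the last one is the head) -/
inductive DP {α : Type} [LinearOrder α] :
    List (Bool × Finset α) → List α → (List Vec → ℂ) → Prop
  | nil (f : List Vec → ℂ) : DP [] [] f
  | star (T : List (Bool × Finset α)) (L Pr Q R : List α) (f g : List Vec → ℂ) (z1 z2 z3 : α)
      (hD : DP T (L ++ (Pr.reverse ++ (Q ++ R))) f) (h12 : z1 < z2) (h23 : z2 < z3)
      (hL : ∀ y ∈ L, y ≤ z1) (hP : ∀ y ∈ Pr, z1 < y ∧ y ≤ z2)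
      (hQ : ∀ y ∈ Q, z2 ≤ y ∧ y < z3) (hR : ∀ y ∈ R, z3 ≤ y)
      (hPs : Pr.Pairwise (fun a b => b ≤ a)) (hQs : Q.Pairwise (fun a b => a ≤ b))
      (hW : ∀ t ∈ T, ∀ p ∈ t.2, ∀ q ∈ t.2, z1 < p → p < z3 → z1 < q → q < z3 → p = q)
      (hS : StepV L Pr Q R f g) :
      DP ((true, {z1, z2, z3}) :: T) (L ++ z1 :: (Pr.reverse ++ z2 :: (Q ++ z3 :: R))) g
  | poly (T : List (Bool × Finset α)) (L A Pr M Q C R : List α) (f g : List Vec → ℂ)
      (P : Finset α) (p1 p2 p3 p4 : α)
      (hD : DP T (L ++ (Pr.reverse ++ (Q ++ R))) f) (h12 : p1 < p2) (h23 : p2 < p3)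
      (h34 : p3 < p4) (m1 : p1 ∈ P) (m2 : p2 ∈ P) (m3 : p3 ∈ P) (m4 : p4 ∈ P)
      (hA : ∀ y ∈ A, y = p1) (hM : ∀ y ∈ M, y ∈ P ∧ p2 ≤ y ∧ y ≤ p3) (hC : ∀ y ∈ C, y = p4)
      (hL : ∀ y ∈ L, y ≤ p1) (hP : ∀ y ∈ Pr, p1 < y ∧ y ≤ p2)
      (hQ : ∀ y ∈ Q, p3 ≤ y ∧ y < p4) (hR : ∀ y ∈ R, p4 ≤ y)
      (hPs : Pr.Pairwise (fun a b => b ≤ a)) (hQs : Q.Pairwise (fun a b => a ≤ b))
      (hF : ∀ t ∈ T, ∀ y ∈ t.2, p1 < y → y < p4 →
        t.1 = true ∧ ((y ≤ p2 ∧ p1 ∈ t.2) ∨ (p3 ≤ y ∧ p4 ∈ t.2)))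
      (hW : ∀ t ∈ T, ∀ p ∈ t.2, ∀ q ∈ t.2, p1 < p → p < p4 → p1 < q → q < p4 → p = q)
      (hS : StepPV L A Pr M Q C R f g) :
      DP ((false, P) :: T) (L ++ (A ++ (Pr.reverse ++ (M ++ (Q ++ (C ++ R)))))) g

end Pool.Agent.H7.WB
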