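import Pool.Agent.H7.WB.PDefs
import Pool.Agent.H7.WB.GD

/-!
(GD.lean) instead of ladderL. The legs zs are listed from the right (zs = z1 :: zs1, z1 the rightmost one, it
passes first), so they appear reversed: (wh (z1 :: zs1)).reverse = (wh zs1).reverse ++ [(z1, true)]. ladderR for z1
with L' = L ++ (wh zs1).reverse gives L ++ (wh zs1).reverse ++ (wh Y1 ++ (z1', true) :: R); then the
induction hypothesis for zs1, B := Y1, R' = (z1', true) :: R. The two lemmas carMN_snoc1, carMN_snoc2 are also
in PD.lean (do not import it; prove them here again with the names carMN_snoc1r, carMN_snoc2r).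
-/

namespace Pool.Agent.H7.WB

open Finset BigOperators

theorem carM_snocr {β : Type} {ar : List Vec} {q q' : List (β × Vec)}
    (h : CarM ar q q') : ∀ {q'' : List (β × Vec)} {a a' : Vec}, CarR q' a a' q'' →
      CarM (ar ++ [a]) q q'' := by
  induction h with
  | nil p =>
    intro q'' a a' h2
    exact CarM.cons a [] p a' q'' q'' h2 (CarM.nil q'')
  | cons a0 ar p a0' p' p'' h0 h1 ih =>
    intro q'' a a' h2
    exact CarM.cons a0 (ar ++ [a]) p a0' p' q'' h0 (ih h2)

theorem carMN_snoc1r {β : Type} {ar : List Vec} {q q' : List (β × Vec)}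
    (h : CarMN ar q q') : ∀ {q'' : List (β × Vec)} {a a' : Vec}, CarR q' a a' q'' →
      CarMN (ar ++ [a]) q q'' := by
  induction h with
  | here a0 ar p a0' p' p'' h0 h1 =>
    intro q'' a a' h2
    exact CarMN.here a0 (ar ++ [a]) p a0' p' q'' h0 (carM_snocr h1 h2)
  | there a0 ar p p'' h1 ih =>
    intro q'' a a' h2
    exact CarMN.there a0 (ar ++ [a]) p q'' (ih h2)

theorem carMN_snoc2r {β : Type} (ar : List Vec) {q q'' : List (β × Vec)} {a a' : Vec}
    (h : CarN q a a' q'') : CarMN (ar ++ [a]) q q'' := by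
  induction ar with
  | nil => exact CarMN.here a [] q a' q'' q'' h (CarM.nil q'')
  | cons a0 ar ih => exact CarMN.there a0 (ar ++ [a]) q q'' ih

theorem forall₂_rightr {P : ℕ → Prop} : ∀ {B Y : List ℕ}, Y.length = B.length →
    (∀ y ∈ Y, P y) → List.Forall₂ (fun _ y => P y) B Y
  | [], [], _, _ => List.Forall₂.nil
  | [], _ :: _, h, _ => by simp at h
  | _ :: _, [], h, _ => by simp at h
  | b :: B, y :: Y, h, hY => List.Forall₂.cons (hY y (by simp))
      (forall₂_rightr (by simpa using h) fun y' h' => hY y' (by simp [h']))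

theorem forall₂_memr {R : ℕ → ℕ → Prop} {A B : List ℕ} (h : List.Forall₂ R A B) :
    ∀ b ∈ B, ∃ a ∈ A, R a b := by
  induction h with
  | nil => intro b hb; simp at hb
  | cons h1 h2 ih =>
    intro b hb
    rcases List.mem_cons.1 hb with rfl | hb
    · exact ⟨_, by simp, h1⟩
    · obtain ⟨a, ha, hab⟩ := ih b hb
      exact ⟨a, by simp [ha], hab⟩

theorem gridR (zs : List ℕ) : ∀ (B : List ℕ) (L R : List (ℕ × Bool)) (E : List (ℕ × ℕ))
    (V : Finset ℕ) (F : List (Fin 3) → ℂ),
    Planar (L ++ ((wh zs).reverse ++ (wh B ++ R))) E V F → NonElliptic E → (∀ z ∈ zs, z ∈ V) →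
    (∀ b ∈ B, b ∈ V) → zs.Nodup → B.Nodup → (∀ z ∈ zs, z ∉ B) →
    (∀ z ∈ zs, ∀ b ∈ B, ∀ t, (z, t) ∈ E → (b, t) ∉ E) →
    ∃ (Y zs' : List ℕ) (E' : List (ℕ × ℕ)) (V' : Finset ℕ) (F' : List (Fin 3) → ℂ),
      Planar (L ++ (wh Y ++ ((wh zs').reverse ++ R))) E' V' F' ∧ NonElliptic E' ∧
      V ⊆ V' ∧ Y.Nodup ∧ zs'.Nodup ∧
      List.Forall₂ (fun b y => y = b ∨ y ∉ V) B Y ∧
      List.Forall₂ (fun z z' => z' = z ∨ z' ∉ V) zs zs' ∧
      (∀ e ∈ E', e ∈ E ∨ (e.2 ∉ V ∧ (e.1 ∈ B ∨ e.1 ∈ zs ∨ e.1 ∉ V))) ∧
      ∀ (β : Type) (l r q zv : List (β × Vec)), l.length = L.length →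
        r.length = R.length → q.length = B.length → zv.length = zs.length →
        (∀ q', CarMN (zv.map Prod.snd).reverse q q' → ∀ zz : List (β × Vec),
          zz.length = zv.length → ev ((l ++ (zz.reverse ++ (q' ++ r))).map Prod.snd) F = 0) →
        ev ((l ++ (q ++ (zv.reverse ++ r))).map Prod.snd) F' =
          ev ((l ++ (zv.reverse ++ (q ++ r))).map Prod.snd) F := by
  induction zs with
  | nil =>
    intro B L R E V F hP hE _ _ _ hBn _ _
    refine ⟨B, [], E, V, F, by simpa using hP, hE, Finset.Subset.refl _, hBn, List.nodup_nil,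
      List.forall₂_same.2 fun x _ => Or.inl rfl, List.Forall₂.nil, fun e he => Or.inl he, ?_⟩
    intro β l r q zv _ _ _ hzv _
    have hz0 : zv = [] := List.length_eq_zero_iff.1 (by simpa using hzv)
    subst hz0
    simp
  | cons z1 zs ih =>
    intro B L R E V F hP hE hzV hBV hzn hBn hzB hc
    have hV : ∀ e ∈ E, e.1 ∈ V ∧ e.2 ∈ V := (planar_mem hP).1
    obtain ⟨hz1, hzn'⟩ := List.nodup_cons.1 hzn
    obtain ⟨Y1, z1', E1, V1, F1, q1, q2, q4, q5, q6, q7, q8, q9, qe, q10⟩ :=
      ladderR B (L ++ (wh zs).reverse) R E V F z1 (by simpa using hP) hE (hzV z1 (by simp)) hBV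
        hBn (hzB z1 (by simp)) (hc z1 (by simp))
    obtain ⟨Y, zs', E', V', F', p1, p2, p3, p4, p5, p6, p7, p8, p9⟩ :=
      ih Y1 L ((z1', true) :: R) E1 V1 F1 (by simpa using q1) q2
        (fun z hz => q4 (hzV z (by simp [hz]))) (fun y hy => (q7 y hy).2) hzn' q6
        (fun z hz h => (q7 z h).1 (hzV z (by simp [hz]))) (by
          intro z hz b hb t h1 h2
          have hbV : b ∉ V := (q7 b hb).1
          have hzV' : z ∈ V := hzV z (by simp [hz])
          have htV : t ∉ V := by
            rcases qe _ h2 with h | h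
            · exact absurd (hV _ h).1 hbV
            · exact h.1
          rcases qe _ h1 with h | ⟨-, h⟩
          · exact htV (hV _ h).2
          · rcases h with h | h | h
            · exact hzB z (by simp [hz]) h
            · exact hz1 (h ▸ hz)
            · exact h hzV')
    refine ⟨Y, z1' :: zs', E', V', F', by simpa using p1, p2, q4.trans p3, p4, ?_, ?_, ?_, ?_, ?_⟩
    · refine List.nodup_cons.2 ⟨fun h => ?_, p5⟩
      obtain ⟨z, hz, h'⟩ := forall₂_memr p7 _ h
      rcases h' with h' | h'
      · have hz1V : z1' ∈ V := by rw [h']; exact hzV z (by simp [hz])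
        rcases q9 with h9 | h9
        · exact hz1 (by rw [← h9, h']; exact hz)
        · exact h9 hz1V
      · exact h' q8
    · have hY : ∀ y ∈ Y, y ∉ V := by
        intro y hy
        obtain ⟨b, hb, h'⟩ := forall₂_memr p6 _ hy
        rcases h' with h' | h'
        · rw [h']; exact (q7 b hb).1
        · exact fun h => h' (q4 h)
      have hl : Y.length = B.length := by rw [← p6.length_eq, q5]
      exact (forall₂_rightr hl hY).imp fun _ _ h => Or.inr h
    · exact List.Forall₂.cons q9 (p7.imp fun _ _ h => h.imp id fun h h' => h (q4 h'))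
    · intro e he
      rcases p8 e he with h | ⟨h1, h2⟩
      · rcases qe e h with h | ⟨h3, h4⟩
        · exact Or.inl h
        · refine Or.inr ⟨h3, ?_⟩
          rcases h4 with h4 | h4 | h4
          · exact Or.inl h4
          · exact Or.inr (Or.inl (by simp [h4]))
          · exact Or.inr (Or.inr h4)
      · refine Or.inr ⟨fun h => h1 (q4 h), ?_⟩
        rcases h2 with h2 | h2 | h2
        · exact Or.inr (Or.inr (q7 _ h2).1)
        · exact Or.inr (Or.inl (by simp [h2]))
        · exact Or.inr (Or.inr fun h => h2 (q4 h))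
    · intro β l r q zv hl hr hq hzv hZ
      obtain _ | ⟨s1, zv⟩ := zv
      · simp at hzv
      have hzv1 : zv.length = zs.length := by simpa using hzv
      have hrev : ((s1 :: zv).map Prod.snd).reverse = (zv.map Prod.snd).reverse ++ [s1.2] := by
        simp
      rw [hrev] at hZ
      have hqlen : ∀ q' : List (β × Vec), CarMN (zv.map Prod.snd).reverse q q' →
          q'.length = B.length := by
        intro q' h
        have := congrArg List.length h.toM.labels
        rw [List.length_map, List.length_map] at this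
        rw [this, hq]
      have key := p9 β l (s1 :: r) q zv hl (by simp [hr]) (by rw [hq, q5]) hzv1 (by
        intro q' hq' zz hzz
        have h1 := q10 β (l ++ zz.reverse) r q' s1.1 s1.2 (by simp [hl, hzz, hzv1]) hr
          (hqlen q' hq') (by
            intro c' q'' hN
            have h2 := hZ q'' (carMN_snoc1r hq' hN.toR) ((s1.1, c') :: zz) (by simp [hzz])
            simpa using h2)
        have h2 := hZ q' (carMN_snoc1r hq' (CarR.refl q' s1.2)) (s1 :: zz) (by simp [hzz])
        have e1 : (l ++ (zz.reverse ++ (q' ++ s1 :: r))).map Prod.snd =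
            ((l ++ zz.reverse) ++ (q' ++ (s1.1, s1.2) :: r)).map Prod.snd := by simp
        have e2 : ((l ++ zz.reverse) ++ (s1.1, s1.2) :: (q' ++ r)).map Prod.snd =
            (l ++ ((s1 :: zz).reverse ++ (q' ++ r))).map Prod.snd := by simp
        rw [e1, h1, e2, h2])
      have key2 := q10 β (l ++ zv.reverse) r q s1.1 s1.2 (by simp [hl, hzv1]) hr hq (by
        intro c' q'' hN
        have h2 := hZ q'' (carMN_snoc2r _ hN) ((s1.1, c') :: zv) (by simp)
        simpa using h2)
      have e1 : (l ++ (q ++ ((s1 :: zv).reverse ++ r))).map Prod.snd =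
          (l ++ (q ++ (zv.reverse ++ (s1 :: r)))).map Prod.snd := by simp
      have e2 : (l ++ (zv.reverse ++ (q ++ (s1 :: r)))).map Prod.snd =
          ((l ++ zv.reverse) ++ (q ++ (s1.1, s1.2) :: r)).map Prod.snd := by simp
      have e3 : ((l ++ zv.reverse) ++ (s1.1, s1.2) :: (q ++ r)).map Prod.snd =
          (l ++ ((s1 :: zv).reverse ++ (q ++ r))).map Prod.snd := by simp
      rw [e1, key, e2, key2, e3]

end Pool.Agent.H7.WB
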