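import Pool.Agent.H7.WB.PB
import Pool.Agent.H7.WB.GF

/-!
main_star: GF.lean (PROVED) is the same for DV: copy it; DP.vanish, DP.vanish' have a closed bound bd: take bd = the
label of the witness (then x < p <= bd < z2).
main_poly: use hM with l = L.map (fun y => (y, v y)) and so on (as, pr, mid, q, cs, r similarly).
First hypothesis: CarMN (as.map snd).reverse pr pr', CarM (cs.map snd) q q'. All vectors of as are v p1. Lemma
(induction on CarMN): all a in ar equal w and p sorted decreasingly, all labels <= bd imply exists s in p', s.1 <= bd,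
s.2 = w (here: CarN p w a' p' gives s in p' with s.2 = w (K7 of GF.lean), then CarM.wit of PA.lean; there:
ih). So there is a witness in pr' with bd = p2, x = p1, w = v p1; DP.vanish hD: elements with label p1 are in l
only (labels of pr' > p1, of q' >= p3, of r >= p4), hypothesis on T: hF (p1 < y <= p2 < p4; p3 <= y impossible).
Second hypothesis: the same on the other side with DP.vanish', bd = p3, x = p4, w = v p4: q' is obtained from q by
CarMN (cs.map snd), all equal to v p4; q is sorted increasingly, only the existence of s in q' with s.2 = v p4 is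
needed, the labels are >= p3 and < p4 anyway: for the `there` and CarM parts use CarM.wit in the order dual, or prove
directly: CarM ar p p', all a in ar = w, (exists s in p, s.2 = w) imply exists s in p', s.2 = w (induction; for one
CarR p w a' p' with a witness in p there is one in p': by induction on CarR, general target c:
 (exists s in p, s.2 = w) or c = w implies a' = w or exists s in p', s.2 = w; and if c = w then in the case a' = w
 either p' = p or p' has an element with vector w).
-/

namespace Pool.Agent.H7.WB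

open Finset BigOperators

private theorem q7 {β : Type} (w : Vec) {q : List (β × Vec)} {c c' : Vec} {q' : List (β × Vec)}
    (h : CarR q c c' q') : (c = w ∨ ∃ s ∈ q, s.2 = w) → (c' = w ∨ ∃ s ∈ q', s.2 = w) := by
  induction h with
  | nil c => exact id
  | keep y q c c' q' h ih =>
    intro hw
    have key : (c = w ∨ ∃ s ∈ q, s.2 = w) → (c' = w ∨ ∃ s ∈ y :: q', s.2 = w) := by
      intro h1
      rcases ih h1 with h2 | ⟨s, hs, hs2⟩
      · exact Or.inl h2
      · exact Or.inr ⟨s, List.mem_cons_of_mem _ hs, hs2⟩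
    rcases hw with hw | ⟨s, hs, hs2⟩
    · exact key (Or.inl hw)
    · rcases List.mem_cons.1 hs with rfl | hs
      · exact Or.inr ⟨s, List.mem_cons_self, hs2⟩
      · exact key (Or.inr ⟨s, hs, hs2⟩)
  | swap y q c c' q' h ih =>
    intro hw
    have key : (c = w ∨ ∃ s ∈ q, s.2 = w) → (y.2 = w ∨ ∃ s ∈ (y.1, c') :: q', s.2 = w) := by
      intro h1
      rcases ih h1 with h2 | ⟨s, hs, hs2⟩
      · exact Or.inr ⟨(y.1, c'), List.mem_cons_self, h2⟩
      · exact Or.inr ⟨s, List.mem_cons_of_mem _ hs, hs2⟩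
    rcases hw with hw | ⟨s, hs, hs2⟩
    · exact key (Or.inl hw)
    · rcases List.mem_cons.1 hs with rfl | hs
      · exact Or.inl hs2
      · exact key (Or.inr ⟨s, hs, hs2⟩)

private theorem q8 {β : Type} (w : Vec) {q : List (β × Vec)} {c c' : Vec} {q' : List (β × Vec)}
    (h : CarR q c c' q') : c = w → (∃ s ∈ q, s.2 = w) → ∃ s ∈ q', s.2 = w := by
  induction h with
  | nil c => exact fun _ h => h
  | keep y q c c' q' h ih =>
    rintro hc ⟨s, hs, hs2⟩
    rcases List.mem_cons.1 hs with rfl | hs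
    · exact ⟨s, List.mem_cons_self, hs2⟩
    · obtain ⟨t, ht, ht2⟩ := ih hc ⟨s, hs, hs2⟩
      exact ⟨t, List.mem_cons_of_mem _ ht, ht2⟩
  | swap y q c c' q' h ih =>
    intro hc _
    rcases q7 w h (Or.inl hc) with h2 | ⟨s, hs, hs2⟩
    · exact ⟨(y.1, c'), List.mem_cons_self, h2⟩
    · exact ⟨s, List.mem_cons_of_mem _ hs, hs2⟩

private theorem n8 {β : Type} {q : List (β × Vec)} {c c' : Vec} {q' : List (β × Vec)}
    (h : CarN q c c' q') : ∃ s ∈ q', s.2 = c := by
  induction h with
  | keep y q c c' q' h ih =>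
    obtain ⟨s, hs, hs2⟩ := ih
    exact ⟨s, List.mem_cons_of_mem _ hs, hs2⟩
  | swap y q c c' q' h =>
    rcases q7 c h (Or.inl rfl) with ih | ⟨s, hs, hs2⟩
    · exact ⟨(y.1, c'), List.mem_cons_self, ih⟩
    · exact ⟨s, List.mem_cons_of_mem _ hs, hs2⟩

private theorem m8 {β : Type} (w : Vec) {ar : List Vec} {p p' : List (β × Vec)}
    (h : CarM ar p p') : (∀ a ∈ ar, a = w) → (∃ s ∈ p, s.2 = w) → ∃ s ∈ p', s.2 = w := by
  induction h with
  | nil p => exact fun _ h => h
  | cons a ar p a' p' p'' h h2 ih =>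
    intro ha hw
    exact ih (fun b hb => ha b (List.mem_cons_of_mem _ hb)) (q8 w h (ha a List.mem_cons_self) hw)

private theorem mn8 {β : Type} (w : Vec) {ar : List Vec} {p p' : List (β × Vec)}
    (h : CarMN ar p p') : (∀ a ∈ ar, a = w) → ∃ s ∈ p', s.2 = w := by
  induction h with
  | here a ar p a' p' p'' h h2 =>
    intro ha
    obtain ⟨s, hs, hs2⟩ := n8 h
    exact m8 w h2 (fun b hb => ha b (List.mem_cons_of_mem _ hb))
      ⟨s, hs, hs2.trans (ha a List.mem_cons_self)⟩
  | there a ar p p'' h2 ih =>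
    intro ha
    exact ih (fun b hb => ha b (List.mem_cons_of_mem _ hb))

private theorem pfst_mem {β : Type} {p p' : List (β × Vec)} (h : p'.map Prod.fst = p.map Prod.fst)
    {s : β × Vec} (hs : s ∈ p') : s.1 ∈ p.map Prod.fst := by
  rw [← h]
  exact List.mem_map_of_mem hs

private theorem mnw {α : Type} [LinearOrder α] (bd : α) (w : Vec) {ar : List Vec}
    {p p' : List (α × Vec)} (h : CarMN ar p p') : (∀ a ∈ ar, a = w) →
    (p.Pairwise fun s t => t.1 ≤ s.1) → (∀ s ∈ p, s.1 ≤ bd) →
    ∃ s ∈ p', s.1 ≤ bd ∧ s.2 = w := by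
  induction h with
  | here a ar p a' p' p'' h h2 =>
    intro ha hs hb
    obtain ⟨s, hs1, hs2⟩ := n8 h
    have hl := h.toR.labels
    refine CarM.wit bd w h2 (fun b hb => ha b (List.mem_cons_of_mem _ hb)) ?_ ⟨s, hs1, ?_,
      hs2.trans (ha a List.mem_cons_self)⟩
    · have h3 : (p.map Prod.fst).Pairwise (fun a b => b ≤ a) := List.pairwise_map.2 hs
      rw [← hl] at h3
      exact List.pairwise_map.1 h3
    · obtain ⟨t, ht, ht2⟩ := List.mem_map.1 (pfst_mem hl hs1)
      rw [← ht2]
      exact hb t ht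
  | there a ar p p'' h2 ih =>
    intro ha hs hb
    exact ih (fun b hb => ha b (List.mem_cons_of_mem _ hb)) hs hb

private theorem k6p {α : Type} [LinearOrder α] (v : α → Vec) (m : α) {p : List (α × Vec)}
    {a a' : Vec} {p' : List (α × Vec)} (h : CarN p a a' p')
    (hp : (p.map Prod.fst).Pairwise (fun a b => b ≤ a)) (hm : ∀ y ∈ p.map Prod.fst, y ≤ m)
    (hv : ∀ s ∈ p, s.2 = v s.1) : a' = v m ∨ ∃ s ∈ p', s.1 < m ∧ s.2 = a := by
  induction h with
  | keep y q c c' q' h ih =>
    rw [List.map_cons, List.pairwise_cons] at hp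
    rcases ih hp.2 (fun z hz => hm z (by rw [List.map_cons]; exact List.mem_cons_of_mem _ hz))
      (fun s hs => hv s (List.mem_cons_of_mem _ hs)) with ih | ⟨s, hs, hs2⟩
    · exact Or.inl ih
    · exact Or.inr ⟨s, List.mem_cons_of_mem _ hs, hs2⟩
  | swap y q c c' q' h =>
    rw [List.map_cons, List.pairwise_cons] at hp
    have hy : y.1 ≤ m := hm y.1 (by rw [List.map_cons]; exact List.mem_cons_self)
    rcases hy.lt_or_eq with hy | hy
    · right
      rcases q7 c h (Or.inl rfl) with ih | ⟨s, hs, hs2⟩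
      · exact ⟨(y.1, c'), List.mem_cons_self, hy, ih⟩
      · refine ⟨s, List.mem_cons_of_mem _ hs, ?_, hs2⟩
        exact lt_of_le_of_lt (hp.1 s.1 (pfst_mem h.labels hs)) hy
    · left
      rw [hv y List.mem_cons_self, hy]

theorem main_star {α : Type} [LinearOrder α] (T : List (Bool × Finset α)) (L Pr Q R : List α)
    (f g : List Vec → ℂ) (z1 z2 z3 : α) (hD : DP T (L ++ (Pr.reverse ++ (Q ++ R))) f)
    (h12 : z1 < z2) (h23 : z2 < z3)
    (hL : ∀ y ∈ L, y ≤ z1) (hP : ∀ y ∈ Pr, z1 < y ∧ y ≤ z2)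
    (hQ : ∀ y ∈ Q, z2 < y ∧ y < z3) (hR : ∀ y ∈ R, z3 ≤ y)
    (hPs : Pr.Pairwise (fun a b => b ≤ a))
    (hW2 : ∀ t ∈ T, ∀ p ∈ t.2, z1 < p → p < z2 → t.1 = true ∧ z1 ∈ t.2)
    (hW3 : ∀ t ∈ T, ∀ p ∈ t.2, z2 < p → p < z3 → t.1 = true ∧ z3 ∈ t.2)
    (hM : StepM L Pr Q R f g) (v : α → Vec) :
    g ((L ++ z1 :: (Pr.reverse ++ z2 :: (Q ++ z3 :: R))).map v) =
      f ((L ++ (Pr.reverse ++ (Q ++ R))).map v) *
        (Matrix.of fun i j : Fin 3 => (![v z1, v z2, v z3] i) j).det := by
  have h13 : z1 < z3 := h12.trans h23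
  have hfst : ∀ K : List α, (K.map fun y => (y, v y)).map Prod.fst = K := by
    intro K
    rw [List.map_map]
    exact List.map_id'' (fun _ => rfl) K
  have hval : ∀ K : List α, ∀ s ∈ K.map fun y => (y, v y), s.2 = v s.1 := by
    intro K s hs
    rw [List.mem_map] at hs
    obtain ⟨y, _, rfl⟩ := hs
    rfl
  have hkey := hM (L.map fun y => (y, v y)) (Pr.map fun y => (y, v y)) (Q.map fun y => (y, v y))
    (R.map fun y => (y, v y)) z1 z2 z3 (v z1) (v z2) (v z3) (hfst L) (hfst Pr)
    (hfst Q) (hfst R) ?_ ?_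
  · have e1 : (((L.map fun y => (y, v y)) ++ (z1, v z1) :: ((Pr.map fun y => (y, v y)).reverse ++
        (z2, v z2) :: ((Q.map fun y => (y, v y)) ++ (z3, v z3) ::
          (R.map fun y => (y, v y))))).map Prod.snd)
        = (L ++ z1 :: (Pr.reverse ++ z2 :: (Q ++ z3 :: R))).map v := by
      simp [List.map_map, Function.comp_def, List.map_reverse]
    have e2 : (((L.map fun y => (y, v y)) ++ ((Pr.map fun y => (y, v y)).reverse ++
        ((Q.map fun y => (y, v y)) ++ (R.map fun y => (y, v y))))).map Prod.snd)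
        = (L ++ (Pr.reverse ++ (Q ++ R))).map v := by
      simp [List.map_map, Function.comp_def, List.map_reverse]
    rw [e1, e2] at hkey
    exact hkey
  · intro a' pr' c' q' hN hR'
    have hlp := hN.toR.labels
    have hlq := hR'.labels
    rcases k6p v z2 hN (by rw [hfst]; exact hPs) (by
      intro y hy
      rw [hfst] at hy
      exact (hP y hy).2) (hval Pr) with h1 | ⟨s, hs, hs1, hs2⟩
    · exact Or.inl h1
    · right; right; right
      have hsP : ∀ s ∈ pr', s.1 ∈ Pr := by
        intro s hs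
        have := pfst_mem hlp hs
        rwa [hfst] at this
      have hsQ : ∀ s ∈ q', s.1 ∈ Q := by
        intro s hs
        have := pfst_mem hlq hs
        rwa [hfst] at this
      refine DP.vanish hD z1 s.1 (v z1) _ ?_
        (fun t ht p hp h1 h2 => hW2 t ht p hp h1 (lt_of_le_of_lt h2 hs1)) ?_
        ⟨s, ?_, (hP _ (hsP s hs)).1, le_refl _, hs2⟩
      · rw [List.map_append, List.map_append, List.map_append, List.map_reverse, hlp, hlq, hfst,
          hfst, hfst, hfst]
      · intro t ht ht1
        rw [List.mem_append, List.mem_append, List.mem_append, List.mem_reverse] at ht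
        rcases ht with ht | ht | ht | ht
        · rw [hval L t ht, ht1]
        · exact absurd ht1 (hP _ (hsP t ht)).1.ne'
        · exact absurd ht1 (h12.trans (hQ _ (hsQ t ht)).1).ne'
        · have h5 : t.1 ∈ R := by
            have := List.mem_map_of_mem (f := Prod.fst) ht
            rwa [hfst] at this
          exact absurd ht1 (lt_of_lt_of_le h13 (hR _ h5)).ne'
      · rw [List.mem_append, List.mem_append, List.mem_reverse]
        exact Or.inr (Or.inl hs)
  · intro c' q' hN
    right; right; right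
    have hlq := hN.toR.labels
    have hsQ : ∀ s ∈ q', s.1 ∈ Q := by
      intro s hs
      have := pfst_mem hlq hs
      rwa [hfst] at this
    obtain ⟨s, hs, hs2⟩ := n8 hN
    refine DP.vanish' hD z3 s.1 (v z3) _ ?_
      (fun t ht p hp h1 h2 => hW3 t ht p hp (lt_of_lt_of_le (hQ _ (hsQ s hs)).1 h1) h2) ?_
      ⟨s, ?_, le_refl _, (hQ _ (hsQ s hs)).2, hs2⟩
    · rw [List.map_append, List.map_append, List.map_append, List.map_reverse, hlq, hfst,
        hfst, hfst, hfst]
    · intro t ht ht1
      rw [List.mem_append, List.mem_append, List.mem_append, List.mem_reverse] at ht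
      rcases ht with ht | ht | ht | ht
      · have h5 : t.1 ∈ L := by
          have := List.mem_map_of_mem (f := Prod.fst) ht
          rwa [hfst] at this
        exact absurd ht1 (lt_of_le_of_lt (hL _ h5) h13).ne
      · have h5 : t.1 ∈ Pr := by
          have := List.mem_map_of_mem (f := Prod.fst) ht
          rwa [hfst] at this
        exact absurd ht1 (lt_of_le_of_lt (hP _ h5).2 h23).ne
      · exact absurd ht1 (hQ _ (hsQ t ht)).2.ne
      · rw [hval R t ht, ht1]
    · rw [List.mem_append, List.mem_append, List.mem_append]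
      exact Or.inr (Or.inr (Or.inl hs))

theorem main_poly {α : Type} [LinearOrder α] (T : List (Bool × Finset α))
    (L A Pr M Q C R : List α) (fw f g : List Vec → ℂ) (p1 p2 p3 p4 : α)
    (hD : DP T (L ++ (Pr.reverse ++ (Q ++ R))) f) (h12 : p1 < p2) (h23 : p2 < p3)
    (h34 : p3 < p4) (hA : ∀ y ∈ A, y = p1) (hC : ∀ y ∈ C, y = p4)
    (hL : ∀ y ∈ L, y ≤ p1) (hP : ∀ y ∈ Pr, p1 < y ∧ y ≤ p2)
    (hQ : ∀ y ∈ Q, p3 ≤ y ∧ y < p4) (hR : ∀ y ∈ R, p4 ≤ y)
    (hPs : Pr.Pairwise (fun a b => b ≤ a)) (hQs : Q.Pairwise (fun a b => a ≤ b))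
    (hF : ∀ t ∈ T, ∀ y ∈ t.2, p1 < y → y < p4 →
      t.1 = true ∧ ((y ≤ p2 ∧ p1 ∈ t.2) ∨ (p3 ≤ y ∧ p4 ∈ t.2)))
    (hM : StepPM L A Pr M Q C R fw f g) (v : α → Vec) :
    g ((L ++ (A ++ (Pr.reverse ++ (M ++ (Q ++ (C ++ R)))))).map v) =
      fw ((A ++ (M ++ C)).map v) * f ((L ++ (Pr.reverse ++ (Q ++ R))).map v) := by
  have hfst : ∀ K : List α, (K.map fun y => (y, v y)).map Prod.fst = K := by
    intro K
    rw [List.map_map]
    exact List.map_id'' (fun _ => rfl) K
  have hval : ∀ K : List α, ∀ s ∈ K.map fun y => (y, v y), s.2 = v s.1 := by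
    intro K s hs
    rw [List.mem_map] at hs
    obtain ⟨y, _, rfl⟩ := hs
    rfl
  have hlab : ∀ K : List α, ∀ s ∈ K.map fun y => (y, v y), s.1 ∈ K := by
    intro K s hs
    rw [List.mem_map] at hs
    obtain ⟨y, hy, rfl⟩ := hs
    exact hy
  have h13 : p1 < p3 := h12.trans h23
  have h14 : p1 < p4 := h13.trans h34
  have h24 : p2 < p4 := h23.trans h34
  have hkey := hM (L.map fun y => (y, v y)) (A.map fun y => (y, v y)) (Pr.map fun y => (y, v y))
    (M.map fun y => (y, v y)) (Q.map fun y => (y, v y)) (C.map fun y => (y, v y))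
    (R.map fun y => (y, v y)) (hfst L) (hfst A) (hfst Pr) (hfst M) (hfst Q) (hfst C) (hfst R) ?_ ?_
  · have e1 : (((L.map fun y => (y, v y)) ++ ((A.map fun y => (y, v y)) ++
        ((Pr.map fun y => (y, v y)).reverse ++ ((M.map fun y => (y, v y)) ++
          ((Q.map fun y => (y, v y)) ++ ((C.map fun y => (y, v y)) ++
            (R.map fun y => (y, v y)))))))).map Prod.snd)
        = (L ++ (A ++ (Pr.reverse ++ (M ++ (Q ++ (C ++ R)))))).map v := by
      simp [List.map_map, Function.comp_def, List.map_reverse]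
    have e2 : (((L.map fun y => (y, v y)) ++ ((Pr.map fun y => (y, v y)).reverse ++
        ((Q.map fun y => (y, v y)) ++ (R.map fun y => (y, v y))))).map Prod.snd)
        = (L ++ (Pr.reverse ++ (Q ++ R))).map v := by
      simp [List.map_map, Function.comp_def, List.map_reverse]
    have e3 : (((A.map fun y => (y, v y)) ++ ((M.map fun y => (y, v y)) ++
        (C.map fun y => (y, v y)))).map Prod.snd) = (A ++ (M ++ C)).map v := by
      simp [List.map_map, Function.comp_def]
    rw [e1, e2, e3] at hkey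
    exact hkey
  · intro pr' q' hN hR'
    have hlp := hN.toM.labels
    have hlq := hR'.labels
    have hsP : ∀ s ∈ pr', s.1 ∈ Pr := by
      intro s hs
      have := pfst_mem hlp hs
      rwa [hfst] at this
    have hsQ : ∀ s ∈ q', s.1 ∈ Q := by
      intro s hs
      have := pfst_mem hlq hs
      rwa [hfst] at this
    obtain ⟨s, hs, hs1, hs2⟩ := mnw p2 (v p1) hN (by
      intro a ha
      rw [List.mem_reverse, List.mem_map] at ha
      obtain ⟨t, ht, rfl⟩ := ha
      rw [hval A t ht, hA _ (hlab A t ht)])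
      (by
        have h3 : ((Pr.map fun y => (y, v y)).map Prod.fst).Pairwise (fun a b => b ≤ a) := by
          rw [hfst]
          exact hPs
        exact List.pairwise_map.1 h3)
      (fun t ht => (hP _ (hlab Pr t ht)).2)
    refine DP.vanish hD p1 p2 (v p1) _ ?_ ?_ ?_ ⟨s, ?_, (hP _ (hsP s hs)).1, hs1, hs2⟩
    · rw [List.map_append, List.map_append, List.map_append, List.map_reverse, hlp, hlq, hfst,
        hfst, hfst, hfst]
    · intro t ht y hy h1 h2
      obtain ⟨h3, h4⟩ := hF t ht y hy h1 (lt_of_le_of_lt h2 h24)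
      rcases h4 with h4 | h4
      · exact ⟨h3, h4.2⟩
      · exact absurd (lt_of_le_of_lt h2 h23) (not_lt.2 h4.1)
    · intro t ht ht1
      rw [List.mem_append, List.mem_append, List.mem_append, List.mem_reverse] at ht
      rcases ht with ht | ht | ht | ht
      · rw [hval L t ht, ht1]
      · exact absurd ht1 (hP _ (hsP t ht)).1.ne'
      · exact absurd ht1 (lt_of_lt_of_le h13 (hQ _ (hsQ t ht)).1).ne'
      · exact absurd ht1 (lt_of_lt_of_le h14 (hR _ (hlab R t ht))).ne'
    · rw [List.mem_append, List.mem_append, List.mem_reverse]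
      exact Or.inr (Or.inl hs)
  · intro q' hN
    have hlq := hN.toM.labels
    have hsQ : ∀ s ∈ q', s.1 ∈ Q := by
      intro s hs
      have := pfst_mem hlq hs
      rwa [hfst] at this
    obtain ⟨s, hs, hs2⟩ := mn8 (v p4) hN (by
      intro a ha
      rw [List.mem_map] at ha
      obtain ⟨t, ht, rfl⟩ := ha
      rw [hval C t ht, hC _ (hlab C t ht)])
    refine DP.vanish' hD p4 p3 (v p4) _ ?_ ?_ ?_
      ⟨s, ?_, (hQ _ (hsQ s hs)).1, (hQ _ (hsQ s hs)).2, hs2⟩
    · rw [List.map_append, List.map_append, List.map_append, List.map_reverse, hlq, hfst,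
        hfst, hfst, hfst]
    · intro t ht y hy h1 h2
      obtain ⟨h3, h4⟩ := hF t ht y hy (lt_of_lt_of_le h13 h1) h2
      rcases h4 with h4 | h4
      · exact absurd (lt_of_le_of_lt h4.1 h23) (not_lt.2 h1)
      · exact ⟨h3, h4.2⟩
    · intro t ht ht1
      rw [List.mem_append, List.mem_append, List.mem_append, List.mem_reverse] at ht
      rcases ht with ht | ht | ht | ht
      · exact absurd ht1 (lt_of_le_of_lt (hL _ (hlab L t ht)) h14).ne
      · exact absurd ht1 (lt_of_le_of_lt (hP _ (hlab Pr t ht)).2 h24).ne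
      · exact absurd ht1 (hQ _ (hsQ t ht)).2.ne
      · rw [hval R t ht, ht1]
    · rw [List.mem_append, List.mem_append, List.mem_append]
      exact Or.inr (Or.inr (Or.inl hs))

end Pool.Agent.H7.WB
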