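import Pool.Agent.H7.WB.PD
import Pool.Agent.H7.WB.PE

namespace Pool.Agent.H7.WB

open Finset BigOperators

theorem forall2_mem {R : ℕ → ℕ → Prop} {l l' : List ℕ} (h : List.Forall₂ R l l') :
    ∀ y ∈ l', ∃ b ∈ l, R b y := by
  induction h with
  | nil => simp
  | cons h1 h2 ih =>
    intro y hy
    rcases List.mem_cons.1 hy with rfl | hy
    · exact ⟨_, by simp, h1⟩
    · obtain ⟨b, hb, hr⟩ := ih y hy
      exact ⟨b, by simp [hb], hr⟩

theorem CarMN.len {β : Type} {ar : List Vec} {p p' : List (β × Vec)} (h : CarMN ar p p') :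
    p'.length = p.length := by
  have := congrArg List.length h.toM.labels
  simpa using this

theorem insert_poly (Bl Bp Bq Br : List ℕ) (E : List (ℕ × ℕ)) (V : Finset ℕ)
    (F : List (Fin 3) → ℂ) (hP : Planar (wh Bl ++ ((wh Bp).reverse ++ (wh Bq ++ wh Br))) E V F)
    (hE : NonElliptic E) (hn : (Bp ++ Bq).Nodup)
    (Za Zm Zc : List ℕ) (Ew : List (ℕ × ℕ)) (Vw : Finset ℕ) (Fw : List (Fin 3) → ℂ)
    (hPw : Planar (wh Za ++ (wh Zm ++ wh Zc)) Ew Vw Fw) (hEw : NonElliptic Ew)
    (hd : Disjoint V Vw) (hza : Za.Nodup) (hzc : Zc.Nodup) :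
    ∃ (Yp Yq Za' Zc' : List ℕ) (E' : List (ℕ × ℕ)) (V' : Finset ℕ) (F' : List (Fin 3) → ℂ),
      Planar (wh Bl ++ (wh Za' ++ ((wh Yp).reverse ++ (wh Zm ++ (wh Yq ++
        (wh Zc' ++ wh Br)))))) E' V' F' ∧ NonElliptic E' ∧
      Yp.Nodup ∧ Yq.Nodup ∧ Za'.Nodup ∧ Zc'.Nodup ∧
      List.Forall₂ (fun b y => y = b ∨ y ∉ V ∪ Vw) Bp Yp ∧
      List.Forall₂ (fun b y => y = b ∨ y ∉ V ∪ Vw) Bq Yq ∧
      List.Forall₂ (fun b y => y = b ∨ y ∉ V ∪ Vw) Za Za' ∧
      List.Forall₂ (fun b y => y = b ∨ y ∉ V ∪ Vw) Zc Zc' ∧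
      (∀ y, (y ∈ Yp ∨ y ∈ Za') → y ∉ V ∪ Vw → y ∉ Yq ∧ y ∉ Zc') ∧
      ∀ (α : Type) (L A Pr M Q C R : List α), L.length = Bl.length → A.length = Za.length →
        Pr.length = Bp.length → M.length = Zm.length → Q.length = Bq.length →
        C.length = Zc.length → R.length = Br.length →
        StepPM L A Pr M Q C R (fun u => ev u Fw) (fun u => ev u F) (fun u => ev u F') := by
  have hmem := planar_mem hP
  have hmw := planar_mem hPw
  have dis : ∀ a, a ∈ V → a ∈ Vw → False := fun a h h' => Finset.disjoint_left.1 hd h h'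
  have hpV : ∀ b ∈ Bp, b ∈ V := fun b hb => hmem.2 (b, true) (by simp [hb])
  have hqV : ∀ b ∈ Bq, b ∈ V := fun b hb => hmem.2 (b, true) (by simp [hb])
  have haW : ∀ b ∈ Za, b ∈ Vw := fun b hb => hmw.2 (b, true) (by simp [hb])
  have hcW : ∀ b ∈ Zc, b ∈ Vw := fun b hb => hmw.2 (b, true) (by simp [hb])
  have hnp : Bp.Nodup := (List.nodup_append.1 hn).1
  have hnq : Bq.Nodup := (List.nodup_append.1 hn).2.1
  have hpq : ∀ b ∈ Bp, b ∉ Bq := fun b hb hb' => (List.nodup_append.1 hn).2.2 b hb b hb' rfl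
  -- old edges
  have hold : ∀ z ∈ Vw, ∀ b ∈ V, ∀ t, (z, t) ∈ E ++ Ew → (b, t) ∉ E ++ Ew := by
    intro z hz b hb t h1 h2
    rcases List.mem_append.1 h1 with h1 | h1
    · exact dis z (hmem.1 _ h1).1 hz
    · rcases List.mem_append.1 h2 with h2 | h2
      · exact dis t (hmem.1 _ h2).2 (hmw.1 _ h1).2
      · exact dis b hb (hmw.1 _ h2).1
  have htV : ∀ z t, (z, t) ∈ E ++ Ew → t ∈ V ∪ Vw := by
    intro z t h
    rcases List.mem_append.1 h with h | h
    · exact Finset.mem_union_left _ (hmem.1 _ h).2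
    · exact Finset.mem_union_right _ (hmw.1 _ h).2
  obtain ⟨G, hG⟩ := exists_ins F Fw (Bl.length + Bp.length) (Za.length + (Zm.length + Zc.length))
  have hP0 : Planar ((wh Bl ++ (wh Bp).reverse) ++ (wh Bq ++ wh Br)) E V F := by
    simpa using hP
  have hP1 := Planar.insert (wh Bl ++ (wh Bp).reverse) (wh Bq ++ wh Br)
    (wh Za ++ (wh Zm ++ wh Zc)) E Ew V Vw F Fw G hP0 hPw hd
    (fun l s r hl hs _ => hG l s r (by simpa using hl) (by simpa using hs))
  have hE1 : NonElliptic (E ++ Ew) := nonElliptic_append hE hEw hmem.1 hmw.1 hd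
  have hP1' : Planar ((wh Bl ++ ((wh Bp).reverse ++ (wh Za ++ wh Zm))) ++
      ((wh Zc.reverse).reverse ++ (wh Bq ++ wh Br))) (E ++ Ew) (V ∪ Vw) G := by
    simpa using hP1
  obtain ⟨Yq, Zr, E2, V2, F2, a1, a2, a3, a4, a5, a6, a7, a8, a9⟩ :=
    gridR Zc.reverse Bq _ (wh Br) (E ++ Ew) (V ∪ Vw) G hP1' hE1
      (fun z hz => by simp [hcW z (by simpa using hz)])
      (fun b hb => by simp [hqV b hb]) (List.nodup_reverse.2 hzc) hnq
      (fun z hz h => dis z (hqV z h) (hcW z (by simpa using hz)))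
      (fun z hz b hb t h => hold z (hcW z (by simpa using hz)) b (hqV b hb) t h)
  have hm2 := planar_mem a1
  have a1' : Planar (wh Bl ++ ((wh Bp).reverse ++ (wh Za ++
      (wh Zm ++ (wh Yq ++ (wh Zr.reverse ++ wh Br)))))) E2 V2 F2 := by
    simpa using a1
  have hcond : ∀ z ∈ Za, ∀ b ∈ Bp, ∀ t, (z, t) ∈ E2 → (b, t) ∉ E2 := by
    intro z hz b hb t h1 h2
    rcases a8 _ h1 with h1 | h1
    · rcases a8 _ h2 with h2 | h2
      · exact hold z (haW z hz) b (hpV b hb) t h1 h2
      · exact h2.1 (htV _ _ h1)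
    · rcases a8 _ h2 with h2 | h2
      · exact h1.1 (htV _ _ h2)
      · rcases h2.2 with h | h | h
        · exact hpq b hb h
        · exact dis b (hpV b hb) (hcW b (by simpa using h))
        · exact h (by simp [hpV b hb])
  obtain ⟨Yp, Za', E3, V3, F3, b1, b2, b3, b4, b5, b6, b7, b8, b9⟩ :=
    gridL Za Bp _ (wh Zm ++ (wh Yq ++ (wh Zr.reverse ++ wh Br))) E2 V2 F2 a1' a2
      (fun z hz => a3 (by simp [haW z hz])) (fun b hb => a3 (by simp [hpV b hb])) hza hnp
      (fun z hz h => dis z (hpV z h) (haW z hz)) hcond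
  have up : ∀ {l l' : List ℕ}, List.Forall₂ (fun b y => y = b ∨ y ∉ V2) l l' →
      List.Forall₂ (fun b y => y = b ∨ y ∉ V ∪ Vw) l l' := by
    intro l l' h
    exact h.imp fun _ _ h => h.imp id fun h h' => h (a3 h')
  refine ⟨Yp, Yq, Za', Zr.reverse, E3, V3, F3, b1, b2, b4, a4, b5, List.nodup_reverse.2 a5,
    up b6, a6, up b7, by simpa using List.rel_reverse a7, ?_, ?_⟩
  · intro y hy hyn
    have hy2 : y ∉ V2 := by
      rcases hy with hy | hy
      · obtain ⟨b, hb, h⟩ := forall2_mem b6 y hy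
        rcases h with h | h
        · exact absurd (by rw [h]; simp [hpV b hb]) hyn
        · exact h
      · obtain ⟨b, hb, h⟩ := forall2_mem b7 y hy
        rcases h with h | h
        · exact absurd (by rw [h]; simp [haW b hb]) hyn
        · exact h
    refine ⟨fun h => hy2 (hm2.2 (y, true) (by simp [h])), fun h => hy2 (hm2.2 (y, true) ?_)⟩
    have : y ∈ Zr := by simpa using h
    simp [this]
  · intro α L A Pr M Q C R hL hA hPr hM hQ hC hR l as pr mid q cs r hl ha hp hm hq hc hr H1 H2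
    have ll : l.length = Bl.length := by rw [← hL, ← hl, List.length_map]
    have la : as.length = Za.length := by rw [← hA, ← ha, List.length_map]
    have lp : pr.length = Bp.length := by rw [← hPr, ← hp, List.length_map]
    have lm : mid.length = Zm.length := by rw [← hM, ← hm, List.length_map]
    have lq : q.length = Bq.length := by rw [← hQ, ← hq, List.length_map]
    have lc : cs.length = Zc.length := by rw [← hC, ← hc, List.length_map]
    have lr : r.length = Br.length := by rw [← hR, ← hr, List.length_map]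
    have eG : ∀ l' w r' : List (α × Vec), l'.length = Bl.length + Bp.length →
        w.length = Za.length + (Zm.length + Zc.length) →
        ev ((l' ++ (w ++ r')).map Prod.snd) G =
          ev ((l' ++ r').map Prod.snd) F * ev (w.map Prod.snd) Fw := by
      intro l' w r' h1 h2
      have := ev_insert (l'.map Prod.snd) (w.map Prod.snd) (r'.map Prod.snd) F Fw G
        (fun a b c ha hb _ => hG a b c (by simp [ha, h1]) (by simp [hb, h2]))
      simpa using this
    -- F2 in terms of G
    have e2 : ∀ pr' zz : List (α × Vec), pr'.length = Bp.length → zz.length = Za.length →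
        (∀ q', CarMN (cs.map Prod.snd) q q' →
          ev ((l ++ (pr'.reverse ++ (q' ++ r))).map Prod.snd) F = 0) →
        ev ((l ++ (pr'.reverse ++ (zz ++ (mid ++ (q ++ (cs ++ r)))))).map Prod.snd) F2 =
          ev ((l ++ (pr'.reverse ++ (q ++ r))).map Prod.snd) F *
            ev ((zz ++ (mid ++ cs)).map Prod.snd) Fw := by
      intro pr' zz h1 h2 h3
      have := a9 α (l ++ (pr'.reverse ++ (zz ++ mid))) r q cs.reverse
        (by simp [ll, h1, h2, lm]) (by simp [lr]) lq (by simp [lc]) (by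
          intro q' hq' z2 hz2
          have e := eG (l ++ pr'.reverse) (zz ++ (mid ++ z2.reverse)) (q' ++ r)
            (by simp [ll, h1]) (by simp [h2, lm]; simpa [lc] using hz2)
          have hz := h3 q' (by simpa using hq')
          have e' : ev ((l ++ pr'.reverse ++ (q' ++ r)).map Prod.snd) F = 0 := by
            simpa using hz
          rw [e', zero_mul] at e
          simpa using e)
      have e := eG (l ++ pr'.reverse) (zz ++ (mid ++ cs)) (q ++ r) (by simp [ll, h1])
        (by simp [h2, lm, lc])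
      have this' : ev ((l ++ (pr'.reverse ++ (zz ++ (mid ++ (q ++ (cs ++ r)))))).map Prod.snd) F2 =
          ev (((l ++ pr'.reverse) ++ ((zz ++ (mid ++ cs)) ++ (q ++ r))).map Prod.snd) G := by
        simpa using this
      rw [this', e]
      simp
    have e3 := b9 α l (mid ++ (q ++ (cs ++ r))) pr as (by simp [ll])
      (by
        have h6 := List.Forall₂.length_eq a6
        have h7 := List.Forall₂.length_eq a7
        simp at h7
        simp [lm, lq, lc, lr, h6, h7]) lp la (by
        intro pr' hpr' zz hzz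
        have hl' : pr'.length = Bp.length := by rw [hpr'.len, lp]
        rw [e2 pr' zz hl' (by rw [hzz, la]) (fun q' hq' => H1 pr' q' hpr' hq'.toM)]
        have := H1 pr' q hpr' (CarM.refl _ q)
        rw [show ev ((l ++ (pr'.reverse ++ (q ++ r))).map Prod.snd) F = 0 from this, zero_mul])
    show ev _ F3 = ev _ Fw * ev _ F
    rw [e3, e2 pr as lp la H2, mul_comm]

end Pool.Agent.H7.WB
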