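import Pool.Agent.H7.WB.PF
import Pool.Agent.H7.WB.PO
import Pool.Agent.H7.WB.GH

namespace Pool.Agent.H7.WB

open Finset BigOperators

/-- ties between ends -/
def Tie2 {m : ℕ} (T : List (Bool × Finset (Fin m))) (s s' : ℕ × Fin m) : Prop :=
  s.1 = s'.1 → s.2 ≠ s'.2 ∧ ∃ t ∈ T, s.2 ∈ t.2 ∧ s'.2 ∈ t.2

theorem Tie2.symm {m : ℕ} {T : List (Bool × Finset (Fin m))} {s s' : ℕ × Fin m}
    (h : Tie2 T s s') : Tie2 T s' s := fun e => by
  obtain ⟨h1, t, ht, h2, h3⟩ := h e.symm
  exact ⟨h1.symm, t, ht, h3, h2⟩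

/-- a web with function `φ`, with the data for the induction -/
def PW2 {m : ℕ} (T : List (Bool × Finset (Fin m))) (φ : (Fin m → Vec) → ℂ) : Prop :=
  ∃ (S : List (ℕ × Fin m)) (E : List (ℕ × ℕ)) (V : Finset ℕ) (F : List (Fin 3) → ℂ),
    Planar (wl S) E V F ∧ NonElliptic E ∧ (S.map Prod.snd).Pairwise (· ≤ ·) ∧
    S.Pairwise (Tie2 T) ∧ DP T (S.map Prod.snd) (fun u => ev u F) ∧
    ∀ v : Fin m → Vec, ev (S.map fun s => v s.2) F = φ v

theorem pw2_nil (m : ℕ) : PW2 (m := m) [] (fun _ => 1) := by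
  refine ⟨[], [], ∅, fun _ => 1, Planar.empty _ rfl, ⟨List.nodup_nil, by simp⟩, by simp, by simp,
    DP.nil _, by simp [ev]⟩

theorem pw2_star {m : ℕ} (T : List (Bool × Finset (Fin m))) (φ : (Fin m → Vec) → ℂ)
    (z : Fin m × Fin m × Fin m) (h12 : z.1 < z.2.1) (h23 : z.2.1 < z.2.2)
    (hW : ∀ t ∈ T, ∀ p ∈ t.2, ∀ q ∈ t.2, z.1 < p → p < z.2.2 → z.1 < q → q < z.2.2 → p = q)
    (hW2 : ∀ t ∈ T, ∀ p ∈ t.2, z.1 < p → p < z.2.1 → t.1 = true ∧ z.1 ∈ t.2)
    (hW3 : ∀ t ∈ T, ∀ p ∈ t.2, z.2.1 < p → p < z.2.2 → t.1 = true ∧ z.2.2 ∈ t.2)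
    (h : PW2 T φ) :
    PW2 ((true, {z.1, z.2.1, z.2.2}) :: T) (fun v => pluecker v z.1 z.2.1 z.2.2 * φ v) := by
  obtain ⟨S, E, V, F, hP, hE, hs, ht, hD, hv⟩ := h
  have hmem := planar_mem hP
  obtain ⟨Sl, S1, rfl, hl, h1⟩ := split_pred (fun a => a ≤ z.1) (fun a b hab hb => hab.trans hb) S hs
  have hs1 : (S1.map Prod.snd).Pairwise (· ≤ ·) := by
    rw [List.map_append, List.pairwise_append] at hs
    exact hs.2.1
  obtain ⟨Sp', S2, rfl, hp', h2⟩ := split_pred (fun a => a ≤ z.2.1)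
    (fun a b hab hb => hab.trans hb) S1 hs1
  have hs2 : (S2.map Prod.snd).Pairwise (· ≤ ·) := by
    rw [List.map_append, List.pairwise_append] at hs1
    exact hs1.2.1
  obtain ⟨Sq, Sr, rfl, hq', hr'⟩ := split_pred (fun a => a < z.2.2)
    (fun a b hab hb => hab.trans_lt hb) S2 hs2
  obtain ⟨Sp, rfl⟩ : ∃ Sp : List (ℕ × Fin m), Sp' = Sp.reverse :=
    ⟨Sp'.reverse, by simp⟩
  have hl1 : ∀ s ∈ Sl, s.2 ≤ z.1 := hl
  have hp1 : ∀ s ∈ Sp, z.1 < s.2 ∧ s.2 ≤ z.2.1 := fun s hs => by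
    refine ⟨not_le.1 (h1 s (by simp [hs])), hp' s (by simp [hs])⟩
  have hq1 : ∀ s ∈ Sq, z.2.1 < s.2 ∧ s.2 < z.2.2 := fun s hs => by
    refine ⟨not_le.1 (h2 s (by simp [hs])), hq' s (by simp [hs])⟩
  have hr1 : ∀ s ∈ Sr, z.2.2 ≤ s.2 := fun s hs => not_lt.1 (hr' s hs)
  have hVl : ∀ s ∈ Sl, s.1 ∈ V := fun s hs => hmem.2 (s.1, true)
    (List.mem_map.2 ⟨s, by simp [hs], rfl⟩)
  have hVr : ∀ s ∈ Sr, s.1 ∈ V := fun s hs => hmem.2 (s.1, true)
    (List.mem_map.2 ⟨s, by simp [hs], rfl⟩)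
  have ht0 := ht
  rw [List.pairwise_append, List.pairwise_append, List.pairwise_append] at ht
  obtain ⟨tl, ⟨tp, ⟨tq, tr, tqr⟩, tpqr⟩, tlr⟩ := ht
  have hmemT : ∀ s, s ∈ Sp ∨ s ∈ Sq → ∃ t ∈ T, s.2 ∈ t.2 := fun s hs =>
    hD.mem s.2 (List.mem_map.2 ⟨s, by
      rcases hs with hs | hs <;> simp [hs], rfl⟩)
  have hn : (Sp.map Prod.fst ++ Sq.map Prod.fst).Nodup := by
    rw [← List.map_append]
    unfold List.Nodup
    rw [List.pairwise_map]
    have hpw : (Sp ++ Sq).Pairwise (Tie2 T) := by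
      rw [List.pairwise_append]
      refine ⟨?_, tq, ?_⟩
      · have := List.pairwise_reverse.1 tp
        exact this.imp fun h => h.symm
      · intro a ha b hb
        exact tpqr a (by simp [ha]) b (by simp [hb])
    refine List.Pairwise.imp_of_mem ?_ hpw
    intro a b ha hb hab heq
    obtain ⟨hne, t, htT, m1, m2⟩ := hab heq
    have hrng : ∀ s ∈ Sp ++ Sq, z.1 < s.2 ∧ s.2 < z.2.2 := by
      intro s hs
      rcases List.mem_append.1 hs with hs | hs
      · exact ⟨(hp1 s hs).1, (hp1 s hs).2.trans_lt h23⟩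
      · exact ⟨h12.trans (hq1 s hs).1, (hq1 s hs).2⟩
    exact hne (hW t htT _ m1 _ m2 (hrng a ha).1 (hrng a ha).2 (hrng b hb).1 (hrng b hb).2)
  obtain ⟨x, zL, zR, YL, YR, E', V', F', c1, c2, c3, c4, c5, c6, c7, c8, c9, c10, c11, c12⟩ :=
    insert_web (Sl.map Prod.fst) (Sp.map Prod.fst) (Sq.map Prod.fst) (Sr.map Prod.fst) E V F
      (by simpa [Function.comp_def] using hP) hE hn
  have hM := c12 (Fin m) (Sl.map Prod.snd) (Sp.map Prod.snd) (Sq.map Prod.snd) (Sr.map Prod.snd)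
    (by simp) (by simp) (by simp) (by simp)
  obtain ⟨ZL, hZL1, hZL2⟩ : ∃ ZL : List (ℕ × Fin m), ZL.map Prod.fst = YL ∧
      ZL.map Prod.snd = Sp.map Prod.snd := by
    refine ⟨List.zip YL (Sp.map Prod.snd), ?_, ?_⟩
    · exact List.map_fst_zip (by simp [c3])
    · exact List.map_snd_zip (by simp [c3])
  obtain ⟨ZR, hZR1, hZR2⟩ : ∃ ZR : List (ℕ × Fin m), ZR.map Prod.fst = YR ∧
      ZR.map Prod.snd = Sq.map Prod.snd := by
    refine ⟨List.zip YR (Sq.map Prod.snd), ?_, ?_⟩
    · exact List.map_fst_zip (by simp [c4])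
    · exact List.map_snd_zip (by simp [c4])
  have hZLm : ∀ s ∈ ZL, s.1 ∈ YL ∧ ∃ s' ∈ Sp, s'.2 = s.2 := by
    intro s hs
    refine ⟨hZL1 ▸ List.mem_map.2 ⟨s, hs, rfl⟩, ?_⟩
    have : s.2 ∈ Sp.map Prod.snd := hZL2 ▸ List.mem_map.2 ⟨s, hs, rfl⟩
    simpa using this
  have hZRm : ∀ s ∈ ZR, s.1 ∈ YR ∧ ∃ s' ∈ Sq, s'.2 = s.2 := by
    intro s hs
    refine ⟨hZR1 ▸ List.mem_map.2 ⟨s, hs, rfl⟩, ?_⟩
    have : s.2 ∈ Sq.map Prod.snd := hZR2 ▸ List.mem_map.2 ⟨s, hs, rfl⟩
    simpa using this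
  have hlab : (Sl ++ (zL, z.1) :: (ZL.reverse ++ (x, z.2.1) :: (ZR ++ (zR, z.2.2) :: Sr))).map
      Prod.snd = Sl.map Prod.snd ++ z.1 :: ((Sp.map Prod.snd).reverse ++ z.2.1 ::
        (Sq.map Prod.snd ++ z.2.2 :: Sr.map Prod.snd)) := by
    simp only [List.map_append, List.map_cons, List.map_reverse, hZL2, hZR2]
  have hD' : DP T (Sl.map Prod.snd ++ ((Sp.map Prod.snd).reverse ++ (Sq.map Prod.snd ++
      Sr.map Prod.snd))) (fun u => ev u F) := by
    simpa using hD
  have bL : ∀ y ∈ Sl.map Prod.snd, y ≤ z.1 := by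
    intro y hy; obtain ⟨s, hs, rfl⟩ := List.mem_map.1 hy; exact hl1 s hs
  have bP : ∀ y ∈ Sp.map Prod.snd, z.1 < y ∧ y ≤ z.2.1 := by
    intro y hy; obtain ⟨s, hs, rfl⟩ := List.mem_map.1 hy; exact hp1 s hs
  have bQ : ∀ y ∈ Sq.map Prod.snd, z.2.1 < y ∧ y < z.2.2 := by
    intro y hy; obtain ⟨s, hs, rfl⟩ := List.mem_map.1 hy; exact hq1 s hs
  have bR : ∀ y ∈ Sr.map Prod.snd, z.2.2 ≤ y := by
    intro y hy; obtain ⟨s, hs, rfl⟩ := List.mem_map.1 hy; exact hr1 s hs
  have sl : (Sl.map Prod.snd).Pairwise (· ≤ ·) := by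
    rw [List.map_append, List.pairwise_append] at hs
    exact hs.1
  have sp : (Sp.map Prod.snd).Pairwise (fun a b => b ≤ a) := by
    rw [List.map_append, List.pairwise_append, List.map_reverse, List.pairwise_reverse] at hs1
    exact hs1.1
  have sq : (Sq.map Prod.snd).Pairwise (· ≤ ·) := by
    rw [List.map_append, List.pairwise_append] at hs2
    exact hs2.1
  have sr : (Sr.map Prod.snd).Pairwise (· ≤ ·) := by
    rw [List.map_append, List.pairwise_append] at hs2
    exact hs2.2.1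
  have xz : zL ∉ V := by
    rcases c10 with h | h
    · rw [h]; exact c7
    · exact h.1
  have mono : ∀ {s s' : ℕ × Fin m}, Tie2 T s s' → Tie2 ((true, {z.1, z.2.1, z.2.2}) :: T) s s' := by
    intro s s' h e
    obtain ⟨h1, t, ht, h2, h3⟩ := h e
    exact ⟨h1, t, by simp [ht], h2, h3⟩
  refine ⟨Sl ++ (zL, z.1) :: (ZL.reverse ++ (x, z.2.1) :: (ZR ++ (zR, z.2.2) :: Sr)), E', V', F',
    ?_, c2, ?_, ?_, ?_, ?_⟩
  · have e1 : (wh YL).reverse = (ZL.reverse).map fun s => (s.1, true) := by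
      rw [← hZL1]; simp [Function.comp_def]
    have e2 : wh YR = ZR.map fun s => (s.1, true) := by
      rw [← hZR1]; simp [Function.comp_def]
    rw [e1, e2] at c1
    simpa [Function.comp_def] using c1
  · rw [hlab]
    rw [List.pairwise_append, List.pairwise_cons, List.pairwise_append, List.pairwise_cons,
      List.pairwise_append, List.pairwise_cons, List.pairwise_reverse]
    have z13 := h12.trans h23
    refine ⟨sl, ⟨?_, sp, ⟨?_, sq, ⟨bR, sr⟩, ?_⟩, ?_⟩, ?_⟩
    · intro y hy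
      simp only [List.mem_append, List.mem_cons, List.mem_reverse] at hy
      rcases hy with hy | rfl | hy | rfl | hy
      · exact (bP y hy).1.le
      · exact h12.le
      · exact (h12.trans (bQ y hy).1).le
      · exact z13.le
      · exact z13.le.trans (bR y hy)
    · intro y hy
      simp only [List.mem_append, List.mem_cons] at hy
      rcases hy with hy | rfl | hy
      · exact (bQ y hy).1.le
      · exact h23.le
      · exact h23.le.trans (bR y hy)
    · intro a ha b hb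
      rcases List.mem_cons.1 hb with rfl | hb
      · exact (bQ a ha).2.le
      · exact (bQ a ha).2.le.trans (bR b hb)
    · intro a ha b hb
      rw [List.mem_reverse] at ha
      have := (bP a ha).2
      simp only [List.mem_append, List.mem_cons] at hb
      rcases hb with rfl | hb | rfl | hb
      · exact this
      · exact this.trans (bQ b hb).1.le
      · exact this.trans h23.le
      · exact this.trans (h23.le.trans (bR b hb))
    · intro a ha b hb
      have := bL a ha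
      simp only [List.mem_append, List.mem_cons, List.mem_reverse] at hb
      rcases hb with rfl | hb | rfl | hb | rfl | hb
      · exact this
      · exact this.trans (bP b hb).1.le
      · exact this.trans h12.le
      · exact this.trans (h12.trans (bQ b hb).1).le
      · exact this.trans z13.le
      · exact this.trans (z13.le.trans (bR b hb))
  · -- ties
    have z13 := h12.trans h23
    have tLp : ∀ s ∈ ZL, Tie2 ((true, {z.1, z.2.1, z.2.2}) :: T) (zL, z.1) s := by
      intro s hs _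
      obtain ⟨_, s', hs', e⟩ := hZLm s hs
      have hb := hp1 s' hs'
      rw [e] at hb
      refine ⟨hb.1.ne, ?_⟩
      rcases eq_or_lt_of_le hb.2 with h | h
      · exact ⟨(true, {z.1, z.2.1, z.2.2}), by simp, by simp, by simp [h]⟩
      · obtain ⟨t, ht, hm⟩ := hmemT s' (Or.inl hs')
        rw [e] at hm
        exact ⟨t, by simp [ht], (hW2 t ht _ hm hb.1 h).2, hm⟩
    have tRq : ∀ s ∈ ZR, Tie2 ((true, {z.1, z.2.1, z.2.2}) :: T) s (zR, z.2.2) := by
      intro s hs _
      obtain ⟨_, s', hs', e⟩ := hZRm s hs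
      have hb := hq1 s' hs'
      rw [e] at hb
      refine ⟨hb.2.ne, ?_⟩
      obtain ⟨t, ht, hm⟩ := hmemT s' (Or.inr hs')
      rw [e] at hm
      exact ⟨t, by simp [ht], hm, (hW3 t ht _ hm hb.1 hb.2).2⟩
    have no : ∀ {s s' : ℕ × Fin m}, s.1 ≠ s'.1 → Tie2 ((true, {z.1, z.2.1, z.2.2}) :: T) s s' := fun h e => absurd e h
    have pL : ZL.Pairwise (fun s s' => s.1 ≠ s'.1) := by
      rw [← hZL1] at c5
      exact List.pairwise_map.1 c5
    have pR : ZR.Pairwise (fun s s' => s.1 ≠ s'.1) := by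
      rw [← hZR1] at c6
      exact List.pairwise_map.1 c6
    rw [List.pairwise_append, List.pairwise_cons, List.pairwise_append, List.pairwise_cons,
      List.pairwise_append, List.pairwise_cons, List.pairwise_reverse]
    refine ⟨tl.imp mono, ⟨?_, ?_, ⟨?_, ?_, ⟨?_, tr.imp mono⟩, ?_⟩, ?_⟩, ?_⟩
    · intro s hs
      simp only [List.mem_append, List.mem_cons, List.mem_reverse] at hs
      rcases hs with hs | rfl | hs | rfl | hs
      · exact tLp s hs
      · exact fun _ => ⟨h12.ne, (true, {z.1, z.2.1, z.2.2}), by simp, by simp, by simp⟩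
      · refine no ?_
        rcases c10 with h | h
        · intro e
          exact (c9 _ (hZRm s hs).1).2 (e.symm.trans h)
        · intro e
          exact h.2.2.1 (by rw [show zL = s.1 from e]; exact (hZRm s hs).1)
      · exact fun _ => ⟨z13.ne, (true, {z.1, z.2.1, z.2.2}), by simp, by simp, by simp⟩
      · exact no fun e => xz (by rw [show zL = s.1 from e]; exact hVr s hs)
    · exact pL.imp fun h => no h.symm
    · intro s hs
      simp only [List.mem_append, List.mem_cons] at hs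
      rcases hs with hs | rfl | hs
      · exact no fun e => (c9 _ (hZRm s hs).1).2 e.symm
      · exact fun _ => ⟨h23.ne, (true, {z.1, z.2.1, z.2.2}), by simp, by simp, by simp⟩
      · exact no fun e => c7 (by rw [show x = s.1 from e]; exact hVr s hs)
    · exact pR.imp fun h => no h
    · intro s hs
      exact no fun e => c11 (by rw [show zR = s.1 from e]; exact hVr s hs)
    · intro a ha b hb
      rcases List.mem_cons.1 hb with rfl | hb
      · exact tRq a ha
      · exact no fun e => (c9 _ (hZRm a ha).1).1 (by rw [e]; exact hVr b hb)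
    · intro a ha b hb
      rw [List.mem_reverse] at ha
      have hc := c8 _ (hZLm a ha).1
      simp only [List.mem_append, List.mem_cons] at hb
      rcases hb with rfl | hb | rfl | hb
      · exact no hc.2.1
      · exact no fun e => hc.2.2.1 (by rw [e]; exact (hZRm b hb).1)
      · exact no hc.2.2.2
      · exact no fun e => hc.1 (by rw [e]; exact hVr b hb)
    · intro a ha b hb
      have ha' := hVl a ha
      simp only [List.mem_append, List.mem_cons, List.mem_reverse] at hb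
      rcases hb with rfl | hb | rfl | hb | rfl | hb
      · exact no fun e => xz (by rw [← show a.1 = zL from e]; exact ha')
      · exact no fun e => (c8 _ (hZLm b hb).1).1 (e ▸ ha')
      · exact no fun e => c7 (by rw [← show a.1 = x from e]; exact ha')
      · exact no fun e => (c9 _ (hZRm b hb).1).1 (e ▸ ha')
      · exact no fun e => c11 (by rw [← show a.1 = zR from e]; exact ha')
      · exact mono (tlr a ha b (by simp [hb]))
  · rw [hlab]
    exact DP.star T _ _ _ _ _ _ z.1 z.2.1 z.2.2 hD' h12 h23 bL bP (fun y hy => ⟨(bQ y hy).1.le, (bQ y hy).2⟩) bR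
      sp sq hW hM.toV
  · intro v
    have := main_star T _ _ _ _ _ _ z.1 z.2.1 z.2.2 hD' h12 h23 bL bP bQ bR sp hW2 hW3 hM v
    rw [← hlab] at this
    have e1 : ∀ A : List (ℕ × Fin m), (A.map fun s => v s.2) = (A.map Prod.snd).map v := by
      intro A; simp
    rw [e1]
    refine this.trans ?_
    have e2 := hv v
    rw [e1] at e2
    have e3 : (Sl ++ (Sp.reverse ++ (Sq ++ Sr))).map Prod.snd = Sl.map Prod.snd ++
        ((Sp.map Prod.snd).reverse ++ (Sq.map Prod.snd ++ Sr.map Prod.snd)) := by simp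
    rw [e3] at e2
    show ev _ F * _ = _
    rw [e2]
    show _ = pluecker v z.1 z.2.1 z.2.2 * φ v
    rw [pluecker_eq, mul_comm]

end Pool.Agent.H7.WB
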