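import Pool.Agent.H7.WB.PP
import Pool.Agent.H7.WB.Defs2

namespace Pool.Agent.H7.WB

open Finset BigOperators

theorem zip_forall2 {m : ℕ} (U : Finset ℕ) {B Y : List ℕ}
    (h : List.Forall₂ (fun b y => y = b ∨ y ∉ U) B Y) : ∀ X : List (ℕ × Fin m),
    X.map Prod.fst = B → ∃ Z : List (ℕ × Fin m), Z.map Prod.fst = Y ∧
      Z.map Prod.snd = X.map Prod.snd ∧ ∀ s ∈ Z, s ∈ X ∨ s.1 ∉ U := by
  induction h with
  | nil =>
    intro X hX
    have : X = [] := by simpa using hX
    subst this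
    exact ⟨[], rfl, rfl, by simp⟩
  | @cons b y B Y h1 h2 ih =>
    intro X hX
    obtain ⟨x, X', rfl, hx, hX'⟩ := List.map_eq_cons_iff.1 hX
    obtain ⟨Z, z1, z2, z3⟩ := ih X' hX'
    refine ⟨(y, x.2) :: Z, by simp [z1], by simp [z2], ?_⟩
    intro s hs
    rcases List.mem_cons.1 hs with rfl | hs
    · rcases h1 with h | h
      · left
        have : (y, x.2) = x := by rw [h, ← hx]
        rw [this]; simp
      · exact Or.inr h
    · rcases z3 s hs with h | h
      · exact Or.inl (by simp [h])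
      · exact Or.inr h

theorem StepPM.toV {α : Type} {L A Pr M Q C R : List α} {fw f g : List Vec → ℂ}
    (h : StepPM L A Pr M Q C R fw f g) : StepPV L A Pr M Q C R f g := by
  intro l as pr mid q cs r h1 h2 h3 h4 h5 h6 h7 H
  rw [h l as pr mid q cs r h1 h2 h3 h4 h5 h6 h7 (fun pr' q' a b => H pr' q' a.toM b)
    (fun q' b => H pr q' (CarM.refl _ pr) b.toM)]
  rw [H pr q (CarM.refl _ pr) (CarM.refl _ q), mul_zero]

theorem nodup_fst_of_const {m : ℕ} (X : List (ℕ × Fin m)) (c : Fin m) (hX : X.Nodup)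
    (hc : ∀ s ∈ X, s.2 = c) : (X.map Prod.fst).Nodup := by
  refine List.Nodup.map_on ?_ hX
  intro x hx y hy h
  exact Prod.ext h ((hc x hx).trans (hc y hy).symm)

theorem pw2_poly {m : ℕ} (T : List (Bool × Finset (Fin m))) (φ : (Fin m → Vec) → ℂ)
    (P : Finset (Fin m)) (f : (Fin m → Vec) → ℂ) (hf : IsWebInvariantOn m P f)
    (p1 p2 p3 p4 : Fin m) (h12 : p1 < p2) (h23 : p2 < p3) (h34 : p3 < p4)
    (m1 : p1 ∈ P) (m2 : p2 ∈ P) (m3 : p3 ∈ P) (m4 : p4 ∈ P)
    (hlo : ∀ p ∈ P, p1 ≤ p) (hhi : ∀ p ∈ P, p ≤ p4) (hlo2 : ∀ p ∈ P, p1 < p → p2 ≤ p)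
    (hhi2 : ∀ p ∈ P, p < p4 → p ≤ p3)
    (hF : ∀ t ∈ T, ∀ y ∈ t.2, p1 < y → y < p4 →
      t.1 = true ∧ ((y ≤ p2 ∧ p1 ∈ t.2) ∨ (p3 ≤ y ∧ p4 ∈ t.2)))
    (hW : ∀ t ∈ T, ∀ p ∈ t.2, ∀ q ∈ t.2, p1 < p → p < p4 → p1 < q → q < p4 → p = q)
    (h : PW2 T φ) : PW2 ((false, P) :: T) (fun v => f v * φ v) := by
  obtain ⟨S, E, V, F, hP, hE, hs, ht, hD, hv⟩ := h
  have hmem := planar_mem hP
  have h14 := h12.trans (h23.trans h34)
  have h24 := h23.trans h34
  -- split the old web
  obtain ⟨Sl, S1, rfl, hl, h1⟩ := split_pred (fun a => a ≤ p1) (fun a b hab hb => hab.trans hb) S hs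
  have hs1 : (S1.map Prod.snd).Pairwise (· ≤ ·) := by
    rw [List.map_append, List.pairwise_append] at hs
    exact hs.2.1
  obtain ⟨Sp', S2, rfl, hp', h2⟩ := split_pred (fun a => a ≤ p2)
    (fun a b hab hb => hab.trans hb) S1 hs1
  have hs2 : (S2.map Prod.snd).Pairwise (· ≤ ·) := by
    rw [List.map_append, List.pairwise_append] at hs1
    exact hs1.2.1
  obtain ⟨Sq, Sr, rfl, hq', hr'⟩ := split_pred (fun a => a < p4)
    (fun a b hab hb => hab.trans_lt hb) S2 hs2
  obtain ⟨Sp, rfl⟩ : ∃ Sp : List (ℕ × Fin m), Sp' = Sp.reverse :=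
    ⟨Sp'.reverse, by simp⟩
  have hmemT : ∀ s, s ∈ Sp ∨ s ∈ Sq → ∃ t ∈ T, s.2 ∈ t.2 := fun s hs =>
    hD.mem s.2 (List.mem_map.2 ⟨s, by
      rcases hs with hs | hs <;> simp [hs], rfl⟩)
  have hl1 : ∀ s ∈ Sl, s.2 ≤ p1 := hl
  have hp1 : ∀ s ∈ Sp, p1 < s.2 ∧ s.2 ≤ p2 := fun s hs => by
    refine ⟨not_le.1 (h1 s (by simp [hs])), hp' s (by simp [hs])⟩
  have hq0 : ∀ s ∈ Sq, p2 < s.2 ∧ s.2 < p4 := fun s hs => by
    refine ⟨not_le.1 (h2 s (by simp [hs])), hq' s (by simp [hs])⟩
  have hq1 : ∀ s ∈ Sq, p3 ≤ s.2 ∧ s.2 < p4 := fun s hs => by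
    refine ⟨?_, (hq0 s hs).2⟩
    obtain ⟨t, ht, hm⟩ := hmemT s (Or.inr hs)
    rcases (hF t ht _ hm (h12.trans (hq0 s hs).1) (hq0 s hs).2).2 with h | h
    · exact absurd h.1 (not_le.2 (hq0 s hs).1)
    · exact h.1
  have hr1 : ∀ s ∈ Sr, p4 ≤ s.2 := fun s hs => not_lt.1 (hr' s hs)
  have hVl : ∀ s ∈ Sl, s.1 ∈ V := fun s hs => hmem.2 (s.1, true)
    (List.mem_map.2 ⟨s, by simp [hs], rfl⟩)
  have hVp : ∀ s ∈ Sp, s.1 ∈ V := fun s hs => hmem.2 (s.1, true)
    (List.mem_map.2 ⟨s, by simp [hs], rfl⟩)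
  have hVq : ∀ s ∈ Sq, s.1 ∈ V := fun s hs => hmem.2 (s.1, true)
    (List.mem_map.2 ⟨s, by simp [hs], rfl⟩)
  have hVr : ∀ s ∈ Sr, s.1 ∈ V := fun s hs => hmem.2 (s.1, true)
    (List.mem_map.2 ⟨s, by simp [hs], rfl⟩)
  rw [List.pairwise_append, List.pairwise_append, List.pairwise_append] at ht
  obtain ⟨tl, ⟨tp, ⟨tq, tr, tqr⟩, tpqr⟩, tlr⟩ := ht
  have hn : (Sp.map Prod.fst ++ Sq.map Prod.fst).Nodup := by
    rw [← List.map_append]
    unfold List.Nodup
    rw [List.pairwise_map]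
    have hpw : (Sp ++ Sq).Pairwise (Tie2 T) := by
      rw [List.pairwise_append]
      refine ⟨?_, tq, ?_⟩
      · have := List.pairwise_reverse.1 tp
        exact this.imp fun h => h.symm
      · intro a ha b hb
        exact tpqr a (by simp [ha]) b (by simp [hb])
    refine List.Pairwise.imp_of_mem ?_ hpw
    intro a b ha hb hab heq
    obtain ⟨hne, t, htT, m1, m2⟩ := hab heq
    have hrng : ∀ s ∈ Sp ++ Sq, p1 < s.2 ∧ s.2 < p4 := by
      intro s hs
      rcases List.mem_append.1 hs with hs | hs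
      · exact ⟨(hp1 s hs).1, (hp1 s hs).2.trans_lt h24⟩
      · exact ⟨h12.trans (hq0 s hs).1, (hq1 s hs).2⟩
    exact hne (hW t htT _ m1 _ m2 (hrng a ha).1 (hrng a ha).2 (hrng b hb).1 (hrng b hb).2)
  -- the new web, shifted
  obtain ⟨Sw0, Ew0, Vw0, Fw, w1, w2, w3, w4, w5, w6⟩ := hf
  set k := V.sup id + 1 with hk
  have hVk : ∀ x ∈ V, x < k := by
    intro x hx
    have : x ≤ V.sup id := Finset.le_sup (f := id) hx
    omega
  have hd : Disjoint V (Vw0.image (· + k)) := by
    rw [Finset.disjoint_left]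
    intro x hx hx'
    simp only [Finset.mem_image] at hx'
    obtain ⟨y, _, rfl⟩ := hx'
    have := hVk _ hx
    omega
  have w1s := planar_shift k w1
  set Sw : List (ℕ × Fin m) := Sw0.map (fun s => (s.1 + k, s.2)) with hSw
  have hSw2 : Sw.map Prod.snd = Sw0.map Prod.snd := by simp [hSw]
  have w1' : Planar (wl Sw) (Ew0.map fun e : ℕ × ℕ => (e.1 + k, e.2 + k))
      (Vw0.image (· + k)) Fw := by
    simpa [hSw, Function.comp_def] using w1s
  have w2' := nonElliptic_shift k w2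
  have w3' : (Sw.map Prod.snd).Pairwise (· ≤ ·) := by rw [hSw2]; exact w3
  have w4' : Sw.Nodup := by
    refine w4.map ?_
    rintro ⟨a, b⟩ ⟨c, d⟩ h
    simp only [Prod.mk.injEq] at h
    ext <;> simp <;> omega
  have w5' : ∀ s ∈ Sw, s.2 ∈ P := by
    intro s hs
    simp only [hSw, List.mem_map] at hs
    obtain ⟨s0, hs0, rfl⟩ := hs
    exact w5 s0 hs0
  have w6' : ∀ v : Fin m → Vec, f v = ev (Sw.map fun s => v s.2) Fw := by
    intro v
    rw [w6 v]
    congr 1
    simp [hSw]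
  clear_value Sw
  set Ew := Ew0.map fun e : ℕ × ℕ => (e.1 + k, e.2 + k) with hEw
  set Vw := Vw0.image (· + k) with hVw
  have hmw := planar_mem w1'
  -- split the new web
  obtain ⟨SA, S3, rfl, ha, h3⟩ := split_pred (fun a => a ≤ p1) (fun a b hab hb => hab.trans hb)
    Sw w3'
  have hs3 : (S3.map Prod.snd).Pairwise (· ≤ ·) := by
    rw [List.map_append, List.pairwise_append] at w3'
    exact w3'.2.1
  obtain ⟨SM, SC, rfl, hm', hc'⟩ := split_pred (fun a => a < p4)
    (fun a b hab hb => hab.trans_lt hb) S3 hs3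
  have ha1 : ∀ s ∈ SA, s.2 = p1 := fun s hs =>
    le_antisymm (ha s hs) (hlo _ (w5' s (by simp [hs])))
  have hm1 : ∀ s ∈ SM, s.2 ∈ P ∧ p2 ≤ s.2 ∧ s.2 ≤ p3 := fun s hs => by
    have hsP := w5' s (by simp [hs])
    exact ⟨hsP, hlo2 _ hsP (not_le.1 (h3 s (by simp [hs]))), hhi2 _ hsP (hm' s hs)⟩
  have hc1 : ∀ s ∈ SC, s.2 = p4 := fun s hs =>
    le_antisymm (hhi _ (w5' s (by simp [hs]))) (not_lt.1 (hc' s hs))
  have hWa : ∀ s ∈ SA, s.1 ∈ Vw := fun s hs => hmw.2 (s.1, true)
    (List.mem_map.2 ⟨s, by simp [hs], rfl⟩)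
  have hWm : ∀ s ∈ SM, s.1 ∈ Vw := fun s hs => hmw.2 (s.1, true)
    (List.mem_map.2 ⟨s, by simp [hs], rfl⟩)
  have hWc : ∀ s ∈ SC, s.1 ∈ Vw := fun s hs => hmw.2 (s.1, true)
    (List.mem_map.2 ⟨s, by simp [hs], rfl⟩)
  rw [List.nodup_append, List.nodup_append] at w4'
  obtain ⟨na, ⟨nm, nc, _⟩, _⟩ := w4'
  obtain ⟨Yp, Yq, Za', Zc', E', V', F', c1, c2, c3, c4, c5, c6, c7, c8, c9, c10, c11, c12⟩ :=
    insert_poly (Sl.map Prod.fst) (Sp.map Prod.fst) (Sq.map Prod.fst) (Sr.map Prod.fst) E V F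
      (by simpa [Function.comp_def] using hP) hE hn (SA.map Prod.fst) (SM.map Prod.fst)
      (SC.map Prod.fst) Ew Vw Fw (by simpa [Function.comp_def] using w1') w2' hd
      (nodup_fst_of_const SA p1 na ha1) (nodup_fst_of_const SC p4 nc hc1)
  have hM := c12 (Fin m) (Sl.map Prod.snd) (SA.map Prod.snd) (Sp.map Prod.snd)
    (SM.map Prod.snd) (Sq.map Prod.snd) (SC.map Prod.snd) (Sr.map Prod.snd)
    (by simp) (by simp) (by simp) (by simp) (by simp) (by simp) (by simp)
  obtain ⟨ZL, hZL1, hZL2, hZL3⟩ := zip_forall2 _ c7 Sp rfl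
  obtain ⟨ZR, hZR1, hZR2, hZR3⟩ := zip_forall2 _ c8 Sq rfl
  obtain ⟨ZA, hZA1, hZA2, hZA3⟩ := zip_forall2 _ c9 SA rfl
  obtain ⟨ZC, hZC1, hZC2, hZC3⟩ := zip_forall2 _ c10 SC rfl
  have labm : ∀ {Z X : List (ℕ × Fin m)}, Z.map Prod.snd = X.map Prod.snd → ∀ s ∈ Z,
      ∃ s' ∈ X, s'.2 = s.2 := by
    intro Z X hZ s hs
    have : s.2 ∈ X.map Prod.snd := hZ ▸ List.mem_map.2 ⟨s, hs, rfl⟩
    simpa using this
  have lZL : ∀ s ∈ ZL, (p1 < s.2 ∧ s.2 ≤ p2) ∧ ∃ t ∈ T, s.2 ∈ t.2 := by
    intro s hs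
    obtain ⟨s', h1, h2⟩ := labm hZL2 s hs
    rw [← h2]
    exact ⟨hp1 s' h1, hmemT s' (Or.inl h1)⟩
  have lZR : ∀ s ∈ ZR, (p3 ≤ s.2 ∧ s.2 < p4) ∧ ∃ t ∈ T, s.2 ∈ t.2 := by
    intro s hs
    obtain ⟨s', h1, h2⟩ := labm hZR2 s hs
    rw [← h2]
    exact ⟨hq1 s' h1, hmemT s' (Or.inr h1)⟩
  have lZA : ∀ s ∈ ZA, s.2 = p1 := by
    intro s hs
    obtain ⟨s', h1, h2⟩ := labm hZA2 s hs
    rw [← h2]; exact ha1 s' h1
  have lZC : ∀ s ∈ ZC, s.2 = p4 := by
    intro s hs
    obtain ⟨s', h1, h2⟩ := labm hZC2 s hs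
    rw [← h2]; exact hc1 s' h1
  have hlab : (Sl ++ (ZA ++ (ZL.reverse ++ (SM ++ (ZR ++ (ZC ++ Sr)))))).map Prod.snd =
      Sl.map Prod.snd ++ (SA.map Prod.snd ++ ((Sp.map Prod.snd).reverse ++ (SM.map Prod.snd ++
        (Sq.map Prod.snd ++ (SC.map Prod.snd ++ Sr.map Prod.snd))))) := by
    simp only [List.map_append, List.map_reverse, hZL2, hZR2, hZA2, hZC2]
  have hD' : DP T (Sl.map Prod.snd ++ ((Sp.map Prod.snd).reverse ++ (Sq.map Prod.snd ++
      Sr.map Prod.snd))) (fun u => ev u F) := by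
    simpa using hD
  have bL : ∀ y ∈ Sl.map Prod.snd, y ≤ p1 := by
    intro y hy; obtain ⟨s, hs, rfl⟩ := List.mem_map.1 hy; exact hl1 s hs
  have bP : ∀ y ∈ Sp.map Prod.snd, p1 < y ∧ y ≤ p2 := by
    intro y hy; obtain ⟨s, hs, rfl⟩ := List.mem_map.1 hy; exact hp1 s hs
  have bQ : ∀ y ∈ Sq.map Prod.snd, p3 ≤ y ∧ y < p4 := by
    intro y hy; obtain ⟨s, hs, rfl⟩ := List.mem_map.1 hy; exact hq1 s hs
  have bR : ∀ y ∈ Sr.map Prod.snd, p4 ≤ y := by
    intro y hy; obtain ⟨s, hs, rfl⟩ := List.mem_map.1 hy; exact hr1 s hs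
  have bA : ∀ y ∈ SA.map Prod.snd, y = p1 := by
    intro y hy; obtain ⟨s, hs, rfl⟩ := List.mem_map.1 hy; exact ha1 s hs
  have bM : ∀ y ∈ SM.map Prod.snd, y ∈ P ∧ p2 ≤ y ∧ y ≤ p3 := by
    intro y hy; obtain ⟨s, hs, rfl⟩ := List.mem_map.1 hy; exact hm1 s hs
  have bC : ∀ y ∈ SC.map Prod.snd, y = p4 := by
    intro y hy; obtain ⟨s, hs, rfl⟩ := List.mem_map.1 hy; exact hc1 s hs
  have sl : (Sl.map Prod.snd).Pairwise (· ≤ ·) := by
    rw [List.map_append, List.pairwise_append] at hs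
    exact hs.1
  have sp : (Sp.map Prod.snd).Pairwise (fun a b => b ≤ a) := by
    rw [List.map_append, List.pairwise_append, List.map_reverse, List.pairwise_reverse] at hs1
    exact hs1.1
  have sq : (Sq.map Prod.snd).Pairwise (· ≤ ·) := by
    rw [List.map_append, List.pairwise_append] at hs2
    exact hs2.1
  have sr : (Sr.map Prod.snd).Pairwise (· ≤ ·) := by
    rw [List.map_append, List.pairwise_append] at hs2
    exact hs2.2.1
  have sM : (SM.map Prod.snd).Pairwise (· ≤ ·) := by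
    rw [List.map_append, List.pairwise_append] at hs3
    exact hs3.1
  have sconst : ∀ (X : List (Fin m)) (c : Fin m), (∀ y ∈ X, y = c) → X.Pairwise (· ≤ ·) := by
    intro X c h
    refine List.pairwise_of_forall_mem_list ?_
    intro a ha b hb
    rw [h a ha, h b hb]
  have mono : ∀ {s s' : ℕ × Fin m}, Tie2 T s s' → Tie2 ((false, P) :: T) s s' := by
    intro s s' h e
    obtain ⟨h1, t, ht, h2, h3⟩ := h e
    exact ⟨h1, t, by simp [ht], h2, h3⟩
  refine ⟨Sl ++ (ZA ++ (ZL.reverse ++ (SM ++ (ZR ++ (ZC ++ Sr))))), E', V', F', ?_, c2, ?_, ?_,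
    ?_, ?_⟩
  · have e1 : (wh Yp).reverse = (ZL.reverse).map fun s => (s.1, true) := by
      rw [← hZL1]; simp [Function.comp_def]
    have e2 : wh Yq = ZR.map fun s => (s.1, true) := by
      rw [← hZR1]; simp [Function.comp_def]
    have e3 : wh Za' = ZA.map fun s => (s.1, true) := by
      rw [← hZA1]; simp [Function.comp_def]
    have e4 : wh Zc' = ZC.map fun s => (s.1, true) := by
      rw [← hZC1]; simp [Function.comp_def]
    rw [e1, e2, e3, e4] at c1
    simpa [Function.comp_def] using c1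
  · rw [hlab]
    rw [List.pairwise_append, List.pairwise_append, List.pairwise_append, List.pairwise_append,
      List.pairwise_append, List.pairwise_append, List.pairwise_reverse]
    refine ⟨sl, ⟨sconst _ p1 bA, ⟨sp, ⟨sM, ⟨sq, ⟨sconst _ p4 bC, sr, ?_⟩, ?_⟩, ?_⟩, ?_⟩, ?_⟩, ?_⟩
    · intro a ha b hb
      rw [bC a ha]; exact bR b hb
    · intro a ha b hb
      rcases List.mem_append.1 hb with hb | hb
      · rw [bC b hb]; exact (bQ a ha).2.le
      · exact (bQ a ha).2.le.trans (bR b hb)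
    · intro a ha b hb
      have := (bM a ha).2.2
      simp only [List.mem_append] at hb
      rcases hb with hb | hb | hb
      · exact this.trans (bQ b hb).1
      · rw [bC b hb]; exact this.trans h34.le
      · exact this.trans (h34.le.trans (bR b hb))
    · intro a ha b hb
      rw [List.mem_reverse] at ha
      have := (bP a ha).2
      simp only [List.mem_append] at hb
      rcases hb with hb | hb | hb | hb
      · exact this.trans (bM b hb).2.1
      · exact this.trans (h23.le.trans (bQ b hb).1)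
      · rw [bC b hb]; exact this.trans h24.le
      · exact this.trans (h24.le.trans (bR b hb))
    · intro a ha b hb
      rw [bA a ha]
      simp only [List.mem_append, List.mem_reverse] at hb
      rcases hb with hb | hb | hb | hb | hb
      · exact (bP b hb).1.le
      · exact h12.le.trans (bM b hb).2.1
      · exact (h12.trans h23).le.trans (bQ b hb).1
      · rw [bC b hb]; exact h14.le
      · exact h14.le.trans (bR b hb)
    · intro a ha b hb
      have := bL a ha
      simp only [List.mem_append, List.mem_reverse] at hb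
      rcases hb with hb | hb | hb | hb | hb | hb
      · rw [bA b hb]; exact this
      · exact this.trans (bP b hb).1.le
      · exact this.trans (h12.le.trans (bM b hb).2.1)
      · exact this.trans ((h12.trans h23).le.trans (bQ b hb).1)
      · rw [bC b hb]; exact this.trans h14.le
      · exact this.trans (h14.le.trans (bR b hb))
  · -- ties
    have dis : ∀ a, a ∈ V → a ∈ Vw → False := fun a h h' => Finset.disjoint_left.1 hd h h'
    have no : ∀ {s s' : ℕ × Fin m}, s.1 ≠ s'.1 → Tie2 ((false, P) :: T) s s' :=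
      fun h e => absurd e h
    have ow : ∀ {s s' : ℕ × Fin m}, s.1 ∈ V → s'.1 ∈ Vw → s.1 ≠ s'.1 :=
      fun h h' e => dis _ h (e ▸ h')
    have on : ∀ {s s' : ℕ × Fin m}, s.1 ∈ V → s'.1 ∉ V ∪ Vw → s.1 ≠ s'.1 :=
      fun h h' e => h' (by rw [← e]; simp [h])
    have wn : ∀ {s s' : ℕ × Fin m}, s.1 ∈ Vw → s'.1 ∉ V ∪ Vw → s.1 ≠ s'.1 :=
      fun h h' e => h' (by rw [← e]; simp [h])
    have fstm : ∀ {Z : List (ℕ × Fin m)} {Y : List ℕ}, Z.map Prod.fst = Y → ∀ s ∈ Z, s.1 ∈ Y := by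
      intro Z Y h s hs
      exact h ▸ List.mem_map.2 ⟨s, hs, rfl⟩
    have nodupP : ∀ {Z : List (ℕ × Fin m)} {Y : List ℕ}, Z.map Prod.fst = Y → Y.Nodup →
        Z.Pairwise (fun s s' => s.1 ≠ s'.1) := by
      intro Z Y h hY
      rw [← h] at hY
      exact List.pairwise_map.1 hY
    -- new on the left, new on the right
    have nn : ∀ {s s' : ℕ × Fin m}, (s ∈ ZL ∨ s ∈ ZA) → s.1 ∉ V ∪ Vw → (s' ∈ ZR ∨ s' ∈ ZC) →
        s.1 ≠ s'.1 := by
      intro s s' hs hn hs' e
      have hy : s.1 ∈ Yp ∨ s.1 ∈ Za' := by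
        rcases hs with hs | hs
        · exact Or.inl (fstm hZL1 s hs)
        · exact Or.inr (fstm hZA1 s hs)
      have := c11 s.1 hy hn
      rcases hs' with hs' | hs'
      · exact this.1 (e ▸ fstm hZR1 s' hs')
      · exact this.2 (e ▸ fstm hZC1 s' hs')
    have pP : ∀ {s s' : ℕ × Fin m}, s.2 ∈ P → s'.2 ∈ P → s.2 ≠ s'.2 →
        Tie2 ((false, P) :: T) s s' := fun h h' hne _ => ⟨hne, (false, P), by simp, h, h'⟩
    -- vertices of the middle part
    have cLo : ∀ s ∈ Sl, ∀ s', (s' ∈ SA ∨ s' ∈ SM ∨ s' ∈ SC) → s.1 ≠ s'.1 := by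
      intro s hs s' hs'
      refine ow (hVl s hs) ?_
      rcases hs' with h | h | h
      · exact hWa _ h
      · exact hWm _ h
      · exact hWc _ h
    -- ZA against ZL
    have tAL : ∀ s ∈ ZA, ∀ s' ∈ ZL, Tie2 ((false, P) :: T) s s' := by
      intro s hs s' hs' _
      obtain ⟨b1, t, ht, hm⟩ := lZL s' hs'
      refine ⟨by rw [lZA s hs]; exact b1.1.ne, t, by simp [ht], ?_, hm⟩
      rw [lZA s hs]
      rcases (hF t ht _ hm b1.1 (b1.2.trans_lt h24)).2 with h | h
      · exact h.2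
      · exact absurd (h.1.trans b1.2) (not_le.2 h23)
    have tRC : ∀ s ∈ ZR, ∀ s' ∈ ZC, Tie2 ((false, P) :: T) s s' := by
      intro s hs s' hs' _
      obtain ⟨b1, t, ht, hm⟩ := lZR s hs
      refine ⟨by rw [lZC s' hs']; exact b1.2.ne, t, by simp [ht], hm, ?_⟩
      rw [lZC s' hs']
      rcases (hF t ht _ hm ((h12.trans h23).trans_le b1.1) b1.2).2 with h | h
      · exact absurd (b1.1.trans h.1) (not_le.2 h23)
      · exact h.2
    rw [List.pairwise_append, List.pairwise_append, List.pairwise_append, List.pairwise_append,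
      List.pairwise_append, List.pairwise_append, List.pairwise_reverse]
    refine ⟨tl.imp mono, ⟨(nodupP hZA1 c5).imp fun h => no h,
      ⟨(nodupP hZL1 c3).imp fun h => no h.symm, ⟨?_, ⟨(nodupP hZR1 c4).imp fun h => no h,
        ⟨(nodupP hZC1 c6).imp fun h => no h, tr.imp mono, ?_⟩, ?_⟩, ?_⟩, ?_⟩, ?_⟩, ?_⟩
    · -- SM internal
      refine List.Pairwise.imp_of_mem ?_ nm
      intro a b ha hb hab e
      exact ⟨fun h => hab (Prod.ext e h), (false, P), by simp, (hm1 a ha).1, (hm1 b hb).1⟩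
    · -- ZC, Sr
      intro a ha b hb
      rcases hZC3 a ha with h | h
      · exact no (ow (hVr b hb) (hWc a h)).symm
      · exact no (on (hVr b hb) h).symm
    · -- ZR against ZC, Sr
      intro a ha b hb
      rcases List.mem_append.1 hb with hb | hb
      · exact tRC a ha b hb
      · rcases hZR3 a ha with h | h
        · exact mono (tqr a h b hb)
        · exact no (on (hVr b hb) h).symm
    · -- SM against ZR, ZC, Sr
      intro a ha b hb
      simp only [List.mem_append] at hb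
      rcases hb with hb | hb | hb
      · rcases hZR3 b hb with h | h
        · exact no (ow (hVq b h) (hWm a ha)).symm
        · exact no (wn (hWm a ha) h)
      · rcases hZC3 b hb with h | h
        · refine pP (hm1 a ha).1 (by rw [lZC b hb]; exact m4) ?_
          rw [lZC b hb]
          exact ((hm1 a ha).2.2.trans_lt h34).ne
        · exact no (wn (hWm a ha) h)
      · exact no (ow (hVr b hb) (hWm a ha)).symm
    · -- ZL against SM, ZR, ZC, Sr
      intro a ha b hb
      rw [List.mem_reverse] at ha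
      simp only [List.mem_append] at hb
      rcases hb with hb | hb | hb | hb
      · rcases hZL3 a ha with h | h
        · exact no (ow (hVp a h) (hWm b hb))
        · exact no (wn (hWm b hb) h).symm
      · rcases hZL3 a ha with h | h
        · rcases hZR3 b hb with h' | h'
          · exact mono (tpqr a (by simp [h]) b (by simp [h']))
          · exact no (on (hVp a h) h')
        · exact no (nn (Or.inl ha) h (Or.inl hb))
      · rcases hZL3 a ha with h | h
        · rcases hZC3 b hb with h' | h'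
          · exact no (ow (hVp a h) (hWc b h'))
          · exact no (on (hVp a h) h')
        · exact no (nn (Or.inl ha) h (Or.inr hb))
      · rcases hZL3 a ha with h | h
        · exact mono (tpqr a (by simp [h]) b (by simp [hb]))
        · exact no (on (hVr b hb) h).symm
    · -- ZA against the rest
      intro a ha b hb
      simp only [List.mem_append, List.mem_reverse] at hb
      rcases hb with hb | hb | hb | hb | hb
      · exact tAL a ha b hb
      · rcases hZA3 a ha with h | h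
        · refine pP (by rw [lZA a ha]; exact m1) (hm1 b hb).1 ?_
          rw [lZA a ha]
          exact (h12.trans_le (hm1 b hb).2.1).ne
        · exact no (wn (hWm b hb) h).symm
      · rcases hZA3 a ha with h | h
        · rcases hZR3 b hb with h' | h'
          · exact no (ow (hVq b h') (hWa a h)).symm
          · exact no (wn (hWa a h) h')
        · exact no (nn (Or.inr ha) h (Or.inl hb))
      · rcases hZA3 a ha with h | h
        · rcases hZC3 b hb with h' | h'
          · refine pP (by rw [lZA a ha]; exact m1) (by rw [lZC b hb]; exact m4) ?_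
            rw [lZA a ha, lZC b hb]
            exact h14.ne
          · exact no (wn (hWa a h) h')
        · exact no (nn (Or.inr ha) h (Or.inr hb))
      · rcases hZA3 a ha with h | h
        · exact no (ow (hVr b hb) (hWa a h)).symm
        · exact no (on (hVr b hb) h).symm
    · -- Sl against the rest
      intro a ha b hb
      simp only [List.mem_append, List.mem_reverse] at hb
      rcases hb with hb | hb | hb | hb | hb | hb
      · rcases hZA3 b hb with h | h
        · exact no (ow (hVl a ha) (hWa b h))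
        · exact no (on (hVl a ha) h)
      · rcases hZL3 b hb with h | h
        · exact mono (tlr a ha b (by simp [h]))
        · exact no (on (hVl a ha) h)
      · exact no (ow (hVl a ha) (hWm b hb))
      · rcases hZR3 b hb with h | h
        · exact mono (tlr a ha b (by simp [h]))
        · exact no (on (hVl a ha) h)
      · rcases hZC3 b hb with h | h
        · exact no (ow (hVl a ha) (hWc b h))
        · exact no (on (hVl a ha) h)
      · exact mono (tlr a ha b (by simp [hb]))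
  · rw [hlab]
    exact DP.poly T _ _ _ _ _ _ _ _ _ P p1 p2 p3 p4 hD' h12 h23 h34 m1 m2 m3 m4 bA bM bC bL bP bQ
      bR sp sq hF hW hM.toV
  · intro v
    have := main_poly T _ _ _ _ _ _ _ _ _ _ p1 p2 p3 p4 hD' h12 h23 h34 bA bC bL bP bQ bR sp sq
      hF hM v
    rw [← hlab] at this
    have e1 : ∀ A : List (ℕ × Fin m), (A.map fun s => v s.2) = (A.map Prod.snd).map v := by
      intro A; simp
    rw [e1]
    refine this.trans ?_
    have e2 := hv v
    rw [e1] at e2
    have e3 : (Sl ++ (Sp.reverse ++ (Sq ++ Sr))).map Prod.snd = Sl.map Prod.snd ++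
        ((Sp.map Prod.snd).reverse ++ (Sq.map Prod.snd ++ Sr.map Prod.snd)) := by simp
    rw [e3] at e2
    have e4 := w6' v
    rw [e1] at e4
    have e5 : (SA ++ (SM ++ SC)).map Prod.snd = SA.map Prod.snd ++ (SM.map Prod.snd ++
        SC.map Prod.snd) := by simp
    rw [e5] at e4
    show ev _ _ * ev _ F = f v * φ v
    rw [e2, e4]

end Pool.Agent.H7.WB
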