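import Pool.Agent.H7.WB.PQ
import Pool.Agent.H7.WB.PC

namespace Pool.Agent.H7.WB

open Finset BigOperators

/-- the factors: tripods and web invariants on polygons -/
abbrev Item (m : ℕ) := (Fin m × Fin m × Fin m) ⊕ (Finset (Fin m) × ((Fin m → Vec) → ℂ))

/-- largest difference of two elements -/
def spanF {m : ℕ} (P : Finset (Fin m)) : ℕ := (P ×ˢ P).sup fun p => (p.1 : ℕ) - (p.2 : ℕ)

theorem spanF_eq {m : ℕ} (P : Finset (Fin m)) (p1 p4 : Fin m) (m1 : p1 ∈ P) (m4 : p4 ∈ P)
    (hlo : ∀ p ∈ P, p1 ≤ p) (hhi : ∀ p ∈ P, p ≤ p4) : spanF P = (p4 : ℕ) - (p1 : ℕ) := by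
  apply le_antisymm
  · refine Finset.sup_le ?_
    rintro ⟨a, b⟩ hab
    rw [Finset.mem_product] at hab
    have h1 := hhi a hab.1
    have h2 := hlo b hab.2
    simp only
    rw [Fin.le_def] at h1 h2
    omega
  · exact Finset.le_sup (f := fun p : Fin m × Fin m => (p.1 : ℕ) - (p.2 : ℕ))
      (b := (p4, p1)) (Finset.mem_product.2 ⟨m4, m1⟩)

theorem exists_four {m : ℕ} (P : Finset (Fin m)) (h : 4 ≤ P.card) :
    ∃ p1 p2 p3 p4 : Fin m, p1 < p2 ∧ p2 < p3 ∧ p3 < p4 ∧ p1 ∈ P ∧ p2 ∈ P ∧ p3 ∈ P ∧ p4 ∈ P ∧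
      (∀ p ∈ P, p1 ≤ p) ∧ (∀ p ∈ P, p ≤ p4) ∧ (∀ p ∈ P, p1 < p → p2 ≤ p) ∧
      (∀ p ∈ P, p < p4 → p ≤ p3) := by
  classical
  have hne : P.Nonempty := Finset.card_pos.1 (by omega)
  set p1 := P.min' hne with hp1
  set p4 := P.max' hne with hp4
  have m1 : p1 ∈ P := P.min'_mem hne
  have m4 : p4 ∈ P := P.max'_mem hne
  have hlo : ∀ p ∈ P, p1 ≤ p := fun p hp => P.min'_le p hp
  have hhi : ∀ p ∈ P, p ≤ p4 := fun p hp => P.le_max' p hp
  have c1 : 3 ≤ (P.erase p1).card := by rw [Finset.card_erase_of_mem m1]; omega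
  have c4 : 3 ≤ (P.erase p4).card := by rw [Finset.card_erase_of_mem m4]; omega
  have hne1 : (P.erase p1).Nonempty := Finset.card_pos.1 (by omega)
  have hne4 : (P.erase p4).Nonempty := Finset.card_pos.1 (by omega)
  set p2 := (P.erase p1).min' hne1 with hp2
  set p3 := (P.erase p4).max' hne4 with hp3
  have m2' : p2 ∈ P.erase p1 := (P.erase p1).min'_mem hne1
  have m3' : p3 ∈ P.erase p4 := (P.erase p4).max'_mem hne4
  have m2 := Finset.mem_of_mem_erase m2'
  have m3 := Finset.mem_of_mem_erase m3'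
  have h12 : p1 < p2 := lt_of_le_of_ne (hlo _ m2) (Finset.ne_of_mem_erase m2').symm
  have h34 : p3 < p4 := lt_of_le_of_ne (hhi _ m3) (Finset.ne_of_mem_erase m3')
  have hlo2 : ∀ p ∈ P, p1 < p → p2 ≤ p := fun p hp h =>
    (P.erase p1).min'_le p (Finset.mem_erase.2 ⟨h.ne', hp⟩)
  have hhi2 : ∀ p ∈ P, p < p4 → p ≤ p3 := fun p hp h =>
    (P.erase p4).le_max' p (Finset.mem_erase.2 ⟨h.ne, hp⟩)
  refine ⟨p1, p2, p3, p4, h12, ?_, h34, m1, m2, m3, m4, hlo, hhi, hlo2, hhi2⟩
  by_contra hcon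
  have hcon' := not_lt.1 hcon
  -- P has at most three elements
  have : P ⊆ {p1, p2, p4} := by
    intro p hp
    simp only [Finset.mem_insert, Finset.mem_singleton]
    rcases eq_or_lt_of_le (hlo p hp) with h | h
    · exact Or.inl h.symm
    · rcases eq_or_lt_of_le (hhi p hp) with h' | h'
      · exact Or.inr (Or.inr h')
      · exact Or.inr (Or.inl (le_antisymm ((hhi2 p hp h').trans hcon') (hlo2 p hp h)))
  have := (Finset.card_le_card this).trans Finset.card_le_three
  omega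

def Item.key {m : ℕ} : Item m → ℕ
  | Sum.inl z => 2 * ((z.2.2 : ℕ) - (z.1 : ℕ)) + 1
  | Sum.inr g => 2 * spanF g.1

def Item.piece {m : ℕ} : Item m → Bool × Finset (Fin m)
  | Sum.inl z => (true, {z.1, z.2.1, z.2.2})
  | Sum.inr g => (false, g.1)

def Item.val {m : ℕ} : Item m → (Fin m → Vec) → ℂ
  | Sum.inl z => fun v => pluecker v z.1 z.2.1 z.2.2
  | Sum.inr g => g.2

def Item.Good {m : ℕ} : Item m → Prop
  | Sum.inl z => z.1 < z.2.1 ∧ z.2.1 < z.2.2
  | Sum.inr g => 4 ≤ g.1.card ∧ IsWebInvariantOn m g.1 g.2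

/-- compatibility of two factors -/
def Item.Comp {m : ℕ} : Item m → Item m → Prop
  | Sum.inl s, Sum.inl t => WeaklySeparated ({s.1, s.2.1, s.2.2} : Finset (Fin m))
      {t.1, t.2.1, t.2.2} ∧ WeaklySeparated ({t.1, t.2.1, t.2.2} : Finset (Fin m))
      {s.1, s.2.1, s.2.2}
  | Sum.inl t, Sum.inr g => ∀ I ⊆ g.1, I.card = 3 →
      WeaklySeparated ({t.1, t.2.1, t.2.2} : Finset (Fin m)) I
  | Sum.inr g, Sum.inl t => ∀ I ⊆ g.1, I.card = 3 →
      WeaklySeparated ({t.1, t.2.1, t.2.2} : Finset (Fin m)) I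
  | Sum.inr g, Sum.inr g' => NonCrossing g.1 g'.1

theorem NonCrossing.symm {m : ℕ} {P Q : Finset (Fin m)} (h : NonCrossing P Q) :
    NonCrossing Q P := by
  rintro ⟨a, b, c, d, h1, h2, h3, h4 | h4⟩
  · exact h ⟨a, b, c, d, h1, h2, h3, Or.inr h4⟩
  · exact h ⟨a, b, c, d, h1, h2, h3, Or.inl h4⟩

theorem Item.Comp.symm {m : ℕ} {i j : Item m} (h : Item.Comp i j) : Item.Comp j i := by
  rcases i with s | g <;> rcases j with t | g'
  · exact ⟨h.2, h.1⟩
  · exact h
  · exact h
  · exact NonCrossing.symm h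

theorem mem3_iff {m : ℕ} (p : Fin m) (t : Fin m × Fin m × Fin m) :
    p ∈ ({t.1, t.2.1, t.2.2} : Finset (Fin m)) ↔ Mem3 p t := by
  simp [Mem3]

theorem pw2_items {m : ℕ} (L : List (Item m)) (h1 : ∀ i ∈ L, Item.Good i)
    (h2 : L.Pairwise Item.Comp) (h3 : L.Pairwise fun i j => i.key ≤ j.key) :
    PW2 (L.map Item.piece) (fun v => (L.map fun i => i.val v).prod) := by
  induction L with
  | nil => simpa using pw2_nil m
  | cons i L ih =>
    rw [List.pairwise_cons] at h2 h3
    have ihL := ih (fun j hj => h1 j (by simp [hj])) h2.2 h3.2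
    have good : ∀ j ∈ L, Item.Good j := fun j hj => h1 j (by simp [hj])
    have hi := h1 i (by simp)
    rcases i with z | g
    · -- a tripod
      have pc : ∀ j ∈ L, (∀ p ∈ (Item.piece j).2, ∀ q ∈ (Item.piece j).2, z.1 < p → p < z.2.2 →
          z.1 < q → q < z.2.2 → p = q) ∧
          (∀ p ∈ (Item.piece j).2, z.1 < p → p < z.2.1 →
            (Item.piece j).1 = true ∧ z.1 ∈ (Item.piece j).2) ∧
          (∀ p ∈ (Item.piece j).2, z.2.1 < p → p < z.2.2 →
            (Item.piece j).1 = true ∧ z.2.2 ∈ (Item.piece j).2) := by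
        intro j hj
        have hc := h2.1 j hj
        have hk := h3.1 j hj
        have hg := good j hj
        rcases j with t | g'
        · have hk' : (z.2.2 : ℕ) - (z.1 : ℕ) ≤ (t.2.2 : ℕ) - (t.1 : ℕ) := by
            have : 2 * ((z.2.2 : ℕ) - (z.1 : ℕ)) + 1 ≤ 2 * ((t.2.2 : ℕ) - (t.1 : ℕ)) + 1 := hk
            omega
          have hg' : t.1 < t.2.1 ∧ t.2.1 < t.2.2 := hg
          have hw : WeaklySeparated ({t.1, t.2.1, t.2.2} : Finset (Fin m))
            {z.1, z.2.1, z.2.2} := hc.2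
          refine ⟨?_, ?_, ?_⟩
          · intro p hp q hq
            exact ws_one z t hi hg' hw hk' p q ((mem3_iff p t).1 hp) ((mem3_iff q t).1 hq)
          · intro p hp a b
            exact ⟨rfl, (mem3_iff _ t).2 (ws_left z t hi hg' hw hk' p ((mem3_iff p t).1 hp) a b)⟩
          · intro p hp a b
            exact ⟨rfl, (mem3_iff _ t).2 (ws_right z t hi hg' hw hk' p ((mem3_iff p t).1 hp) a b)⟩
        · have hg' : 4 ≤ g'.1.card ∧ IsWebInvariantOn m g'.1 g'.2 := hg
          obtain ⟨p1, p2, p3, p4, h12, h23, h34, m1, m2, m3, m4, hlo, hhi, _, _⟩ :=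
            exists_four g'.1 hg'.1
          have hk' : (z.2.2 : ℕ) - (z.1 : ℕ) < (p4 : ℕ) - (p1 : ℕ) := by
            have h : 2 * ((z.2.2 : ℕ) - (z.1 : ℕ)) + 1 ≤ 2 * spanF g'.1 := hk
            rw [spanF_eq g'.1 p1 p4 m1 m4 hlo hhi] at h
            omega
          have key := star_poly g'.1 p1 p4 z.1 z.2.1 z.2.2 hg'.1 m1 m4 hi hc hk'
          refine ⟨?_, ?_, ?_⟩
          · intro p hp q hq a b c d
            rw [key p hp a b, key q hq c d]
          · intro p hp a b
            exact absurd (key p hp a (b.trans hi.2)) b.ne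
          · intro p hp a b
            exact absurd (key p hp (hi.1.trans a) b) a.ne'
      have := pw2_star (L.map Item.piece) _ z hi.1 hi.2
        (by
          intro t ht
          obtain ⟨j, hj, rfl⟩ := List.mem_map.1 ht
          exact (pc j hj).1)
        (by
          intro t ht
          obtain ⟨j, hj, rfl⟩ := List.mem_map.1 ht
          exact (pc j hj).2.1)
        (by
          intro t ht
          obtain ⟨j, hj, rfl⟩ := List.mem_map.1 ht
          exact (pc j hj).2.2) ihL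
      simpa [Item.piece, Item.val] using this
    · -- a polygon
      have hi' : 4 ≤ g.1.card ∧ IsWebInvariantOn m g.1 g.2 := hi
      obtain ⟨p1, p2, p3, p4, h12, h23, h34, m1, m2, m3, m4, hlo, hhi, hlo2, hhi2⟩ :=
        exists_four g.1 hi'.1
      have sp := spanF_eq g.1 p1 p4 m1 m4 hlo hhi
      have pc : ∀ j ∈ L, (∀ y ∈ (Item.piece j).2, p1 < y → y < p4 →
          (Item.piece j).1 = true ∧ ((y ≤ p2 ∧ p1 ∈ (Item.piece j).2) ∨
            (p3 ≤ y ∧ p4 ∈ (Item.piece j).2))) ∧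
          (∀ p ∈ (Item.piece j).2, ∀ q ∈ (Item.piece j).2, p1 < p → p < p4 →
            p1 < q → q < p4 → p = q) := by
        intro j hj
        have hc := h2.1 j hj
        have hk := h3.1 j hj
        have hg := good j hj
        rcases j with t | g'
        · have hk' : (p4 : ℕ) - (p1 : ℕ) ≤ (t.2.2 : ℕ) - (t.1 : ℕ) := by
            have h : 2 * spanF g.1 ≤ 2 * ((t.2.2 : ℕ) - (t.1 : ℕ)) + 1 := hk
            rw [sp] at h
            omega
          have hg' : t.1 < t.2.1 ∧ t.2.1 < t.2.2 := hg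
          refine ⟨?_, ?_⟩
          · intro y hy a b
            exact ⟨rfl, poly_star_loc g.1 p1 p2 p3 p4 t.1 t.2.1 t.2.2 hi'.1 m1 m2 m3 m4 h12 h23
              h34 hlo hhi hg' hc hk' y hy a b⟩
          · exact poly_star_one g.1 p1 p4 t.1 t.2.1 t.2.2 hi'.1 m1 m4 hlo hhi hg' hc hk'
        · have hg' : 4 ≤ g'.1.card ∧ IsWebInvariantOn m g'.1 g'.2 := hg
          obtain ⟨q1, q2, q3, q4, _, _, _, n1, _, _, n4, hlo', hhi', _, _⟩ :=
            exists_four g'.1 hg'.1
          have sp' := spanF_eq g'.1 q1 q4 n1 n4 hlo' hhi'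
          have hk' : (p4 : ℕ) - (p1 : ℕ) ≤ (q4 : ℕ) - (q1 : ℕ) := by
            have h : 2 * spanF g.1 ≤ 2 * spanF g'.1 := hk
            rw [sp, sp'] at h
            omega
          have key := poly_poly g.1 g'.1 p1 p4 q1 q4 hi'.1 hg'.1 m1 m4 hlo hhi n1 n4 hlo' hhi'
            hc hk'
          refine ⟨?_, ?_⟩
          · intro y hy a b
            exact (key y hy a b).elim
          · intro p hp q hq a b c d
            exact (key p hp a b).elim
      have := pw2_poly (L.map Item.piece) _ g.1 g.2 hi'.2 p1 p2 p3 p4 h12 h23 h34 m1 m2 m3 m4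
        hlo hhi hlo2 hhi2
        (by
          intro t ht
          obtain ⟨j, hj, rfl⟩ := List.mem_map.1 ht
          exact (pc j hj).1)
        (by
          intro t ht
          obtain ⟨j, hj, rfl⟩ := List.mem_map.1 ht
          exact (pc j hj).2) ihL
      simpa [Item.piece, Item.val] using this

/-- Fusion of web invariants on noncrossing polygons and weakly separated Pluecker coordinates. -/
theorem fusion (m : ℕ) (T : List (Fin m × Fin m × Fin m))
    (G : List (Finset (Fin m) × ((Fin m → Fin 3 → ℂ) → ℂ)))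
    (h1 : ∀ t ∈ T, t.1 < t.2.1 ∧ t.2.1 < t.2.2)
    (h2 : ∀ s ∈ T, ∀ t ∈ T, WeaklySeparated ({s.1, s.2.1, s.2.2} : Finset (Fin m))
      {t.1, t.2.1, t.2.2})
    (h3 : ∀ g ∈ G, 4 ≤ g.1.card ∧ IsWebInvariantOn m g.1 g.2)
    (h4 : G.Pairwise fun g g' => NonCrossing g.1 g'.1)
    (h5 : ∀ g ∈ G, ∀ t ∈ T, ∀ I ⊆ g.1, I.card = 3 →
      WeaklySeparated ({t.1, t.2.1, t.2.2} : Finset (Fin m)) I) :
    IsWebInvariant m (fun v => (T.map fun t => pluecker v t.1 t.2.1 t.2.2).prod *
      (G.map fun g => g.2 v).prod) := by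
  classical
  set L0 : List (Item m) := T.map Sum.inl ++ G.map Sum.inr with hL0
  set le : Item m → Item m → Bool := fun i j => decide (i.key ≤ j.key) with hle
  have hp : (L0.mergeSort le).Perm L0 := List.mergeSort_perm L0 le
  have hsort : (L0.mergeSort le).Pairwise fun i j => i.key ≤ j.key := by
    have := List.pairwise_mergeSort (le := le) (fun a b c h h' => by
      simp only [hle, decide_eq_true_eq] at h h' ⊢
      exact h.trans h') (fun a b => by
      simp only [hle, Bool.or_eq_true, decide_eq_true_eq]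
      exact Nat.le_total _ _) L0
    exact this.imp fun h => by simpa [hle] using h
  have hgood : ∀ i ∈ L0, Item.Good i := by
    intro i hi
    rcases List.mem_append.1 hi with hi | hi
    · obtain ⟨t, ht, rfl⟩ := List.mem_map.1 hi
      exact h1 t ht
    · obtain ⟨g, hg, rfl⟩ := List.mem_map.1 hi
      exact h3 g hg
  have hcomp : L0.Pairwise Item.Comp := by
    rw [hL0, List.pairwise_append, List.pairwise_map, List.pairwise_map]
    refine ⟨?_, h4, ?_⟩
    · refine List.pairwise_of_forall_mem_list ?_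
      intro s hs t ht
      exact ⟨h2 s hs t ht, h2 t ht s hs⟩
    · intro a ha b hb
      obtain ⟨t, ht, rfl⟩ := List.mem_map.1 ha
      obtain ⟨g, hg, rfl⟩ := List.mem_map.1 hb
      exact h5 g hg t ht
  have hcomp' : (L0.mergeSort le).Pairwise Item.Comp :=
    (hp.pairwise_iff fun h => Item.Comp.symm h).2 hcomp
  obtain ⟨S, E, V, F, hP, hE, hs, ht, _, hv⟩ := pw2_items (L0.mergeSort le)
    (fun i hi => hgood i (hp.mem_iff.1 hi)) hcomp' hsort
  refine ⟨S, E, V, F, hP, hE, hs, ?_, ?_⟩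
  · exact ht.imp fun h e => by
      subst e
      exact (h rfl).1 rfl
  · intro v
    rw [hv v]
    show (T.map fun t => pluecker v t.1 t.2.1 t.2.2).prod * (G.map fun g => g.2 v).prod =
      ((L0.mergeSort le).map fun i => i.val v).prod
    have e1 : ((L0.mergeSort le).map fun i => i.val v).prod = (L0.map fun i => i.val v).prod :=
      (hp.map _).prod_eq
    rw [e1, hL0, List.map_append, List.prod_append, List.map_map, List.map_map]
    rfl

end Pool.Agent.H7.WB
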