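import Pool.Agent.H7.WB.Ladder

namespace Pool.Agent.H7.WB

open Finset BigOperators

theorem planar_mem {S : List (ℕ × Bool)} {E : List (ℕ × ℕ)} {V : Finset ℕ}
    {F : List (Fin 3) → ℂ} (h : Planar S E V F) :
    (∀ e ∈ E, e.1 ∈ V ∧ e.2 ∈ V) ∧ (∀ s ∈ S, s.1 ∈ V) := by
  induction h with
  | empty F hF => simp
  | star x c F hF => simp
  | insert L R S E E' V V' F F' G hA hB hd hG ihA ihB =>
    refine ⟨?_, ?_⟩
    · intro e he
      rcases List.mem_append.1 he with he | he
      · exact ⟨Finset.mem_union_left _ (ihA.1 e he).1, Finset.mem_union_left _ (ihA.1 e he).2⟩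
      · exact ⟨Finset.mem_union_right _ (ihB.1 e he).1, Finset.mem_union_right _ (ihB.1 e he).2⟩
    · intro s hs
      simp only [List.mem_append] at hs
      rcases hs with (hs | hs) | hs
      · exact Finset.mem_union_left _ (ihA.2 s (by simp [hs]))
      · exact Finset.mem_union_right _ (ihB.2 s hs)
      · exact Finset.mem_union_left _ (ihA.2 s (by simp [hs]))
  | joinWB L R E V F G w b hA hG ih =>
    refine ⟨?_, ?_⟩
    · intro e he
      rcases List.mem_cons.1 he with rfl | he
      · exact ⟨ih.2 (w, true) (by simp), ih.2 (b, false) (by simp)⟩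
      · exact ih.1 e he
    · intro s hs
      refine ih.2 s ?_
      rcases List.mem_append.1 hs with hs | hs <;> simp [hs]
  | joinBW L R E V F G w b hA hG ih =>
    refine ⟨?_, ?_⟩
    · intro e he
      rcases List.mem_cons.1 he with rfl | he
      · exact ⟨ih.2 (w, true) (by simp), ih.2 (b, false) (by simp)⟩
      · exact ih.1 e he
    · intro s hs
      refine ih.2 s ?_
      rcases List.mem_append.1 hs with hs | hs <;> simp [hs]
  | rotate a L E V F G hA hG ih =>
    refine ⟨ih.1, fun s hs => ih.2 s ?_⟩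
    rcases List.mem_append.1 hs with hs | hs
    · simp [hs]
    · simp at hs; simp [hs]

/-- renaming of the vertices -/
theorem planar_shift (k : ℕ) {S : List (ℕ × Bool)} {E : List (ℕ × ℕ)} {V : Finset ℕ}
    {F : List (Fin 3) → ℂ} (h : Planar S E V F) :
    Planar (S.map fun s => (s.1 + k, s.2)) (E.map fun e => (e.1 + k, e.2 + k))
      (V.image (· + k)) F := by
  induction h with
  | empty F hF => simpa using Planar.empty F hF
  | star x c F hF => simpa using Planar.star (x + k) c F hF
  | insert L R S E E' V V' F F' G hA hB hd hG ihA ihB =>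
    have := Planar.insert (L.map fun s => (s.1 + k, s.2)) (R.map fun s => (s.1 + k, s.2))
      (S.map fun s => (s.1 + k, s.2)) _ _ _ _ F F' G (by simpa using ihA) ihB
      (by
        rw [Finset.disjoint_image (add_left_injective k)]; exact hd)
      (fun l s r hl hs hr => hG l s r (by simpa using hl) (by simpa using hs) (by simpa using hr))
    rw [Finset.image_union]
    simpa using this
  | joinWB L R E V F G w b hA hG ih =>
    have := Planar.joinWB (L.map fun s => (s.1 + k, s.2)) (R.map fun s => (s.1 + k, s.2)) _ _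
      F G (w + k) (b + k) (by simpa using ih)
      (fun l r hl hr => hG l r (by simpa using hl) (by simpa using hr))
    simpa using this
  | joinBW L R E V F G w b hA hG ih =>
    have := Planar.joinBW (L.map fun s => (s.1 + k, s.2)) (R.map fun s => (s.1 + k, s.2)) _ _
      F G (w + k) (b + k) (by simpa using ih)
      (fun l r hl hr => hG l r (by simpa using hl) (by simpa using hr))
    simpa using this
  | rotate a L E V F G hA hG ih =>
    have := Planar.rotate (a.1 + k, a.2) (L.map fun s => (s.1 + k, s.2)) _ _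
      F G (by simpa using ih) (fun p l hl => hG p l (by simpa using hl))
    simpa using this

theorem nonElliptic_shift (k : ℕ) {E : List (ℕ × ℕ)} (h : NonElliptic E) :
    NonElliptic (E.map fun e => (e.1 + k, e.2 + k)) := by
  have inj : Function.Injective fun e : ℕ × ℕ => (e.1 + k, e.2 + k) := by
    rintro ⟨a, b⟩ ⟨c, d⟩ h
    simp only [Prod.mk.injEq] at h
    ext <;> simp <;> omega
  refine ⟨h.1.map inj, ?_⟩
  intro w w' b b' hw hb hh
  simp only [List.mem_map, Prod.mk.injEq, Prod.exists] at hh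
  obtain ⟨⟨w1, b1, h1, rfl, rfl⟩, ⟨w2, b2, h2, rfl, e2⟩, ⟨w3, b3, h3, e3, rfl⟩,
    ⟨w4, b4, h4, e4, e4'⟩⟩ := hh
  have a2 : b2 = b1 := by omega
  have a3 : w3 = w1 := by omega
  have a4 : w4 = w2 := by omega
  have a4' : b4 = b3 := by omega
  subst a2 a3 a4 a4'
  exact h.2 w3 w4 b2 b4 (fun h => hw (by rw [h])) (fun h => hb (by rw [h])) ⟨h1, h2, h3, h4⟩

theorem nonElliptic_append {E E' : List (ℕ × ℕ)} {V V' : Finset ℕ} (hE : NonElliptic E)
    (hE' : NonElliptic E') (hV : ∀ e ∈ E, e.1 ∈ V ∧ e.2 ∈ V)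
    (hV' : ∀ e ∈ E', e.1 ∈ V' ∧ e.2 ∈ V') (hd : Disjoint V V') : NonElliptic (E ++ E') := by
  have hd' : ∀ a, a ∈ V → a ∈ V' → False := fun a h h' => Finset.disjoint_left.1 hd h h'
  refine ⟨?_, ?_⟩
  · rw [List.nodup_append]
    exact ⟨hE.1, hE'.1, fun a ha b hb hab => hd' a.1 (hV a ha).1 (hab ▸ (hV' b hb).1)⟩
  · intro w w' b b' hw hb hh
    simp only [List.mem_append] at hh
    obtain ⟨h1, h2, h3, h4⟩ := hh
    rcases h1 with h1 | h1
    · have h2' : (w', b) ∈ E := h2.resolve_right fun h => hd' b (hV _ h1).2 (hV' _ h).2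
      have h3' : (w, b') ∈ E := h3.resolve_right fun h => hd' w (hV _ h1).1 (hV' _ h).1
      have h4' : (w', b') ∈ E := h4.resolve_right fun h => hd' w' (hV _ h2').1 (hV' _ h).1
      exact hE.2 w w' b b' hw hb ⟨h1, h2', h3', h4'⟩
    · have h2' : (w', b) ∈ E' := h2.resolve_left fun h => hd' b (hV _ h).2 (hV' _ h1).2
      have h3' : (w, b') ∈ E' := h3.resolve_left fun h => hd' w (hV _ h).1 (hV' _ h1).1
      have h4' : (w', b') ∈ E' := h4.resolve_left fun h => hd' w' (hV _ h).1 (hV' _ h2').1
      exact hE'.2 w w' b b' hw hb ⟨h1, h2', h3', h4'⟩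

end Pool.Agent.H7.WB
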