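import Pool.Agent.H7.WB.Alg

namespace Pool.Agent.H7.WB

open Finset BigOperators

/-- place one new vertex in a gap -/
theorem insert_star {L R : List (ℕ × Bool)} {E : List (ℕ × ℕ)} {V : Finset ℕ}
    {F : List (Fin 3) → ℂ} (h : Planar (L ++ R) E V F) (x : ℕ) (c : Bool) (hx : x ∉ V) :
    ∃ G, Planar (L ++ (x, c) :: (x, c) :: (x, c) :: R) E (V ∪ {x}) G ∧
      ∀ (l r : List (Fin 3)) (p q s : Fin 3), l.length = L.length →
        G (l ++ p :: q :: s :: r) = F (l ++ r) * sgn p q s := by
  let F' : List (Fin 3) → ℂ := fun t => match t with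
    | [p, q, s] => sgn p q s
    | _ => 0
  obtain ⟨G, hG⟩ := exists_ins F F' L.length 3
  have h1 := Planar.insert L R [(x, c), (x, c), (x, c)] E [] V {x} F F' G h
    (Planar.star x c F' fun p q r => rfl) (by simpa using hx)
    (fun l s r hl hs _ => hG l s r hl (by simpa using hs))
  refine ⟨G, ?_, fun l r p q s hl => ?_⟩
  · simpa using h1
  · have := hG l [p, q, s] r hl rfl
    simpa using this

/-- the H move on two neighbouring white ends: `crossing = identity + H` -/
theorem H_step {L R : List (ℕ × Bool)} {E : List (ℕ × ℕ)} {V : Finset ℕ}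
    {F : List (Fin 3) → ℂ} {z b : ℕ}
    (h : Planar (L ++ (z, true) :: (b, true) :: R) E V F) (x y : ℕ) (hx : x ∉ V) (hy : y ∉ V)
    (hxy : x ≠ y) :
    ∃ G, Planar (L ++ (y, true) :: (y, true) :: R) ((y, x) :: (b, x) :: (z, x) :: E)
        (V ∪ {x} ∪ {y}) G ∧
      ∀ (l r : List (Fin 3)) (p q : Fin 3), l.length = L.length → r.length = R.length →
        G (l ++ p :: q :: r) = F (l ++ q :: p :: r) - F (l ++ p :: q :: r) := by
  -- insert the black vertex x
  have h0 : Planar ((L ++ [(z, true)]) ++ (b, true) :: R) E V F := by simpa using h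
  obtain ⟨G1, h1, g1⟩ := insert_star h0 x false hx
  have h1' : Planar (L ++ (z, true) :: (x, false) :: ((x, false) :: (x, false) :: (b, true) :: R))
      E (V ∪ {x}) G1 := by simpa using h1
  obtain ⟨G2, g2⟩ := exists_join G1 L.length
  have h2 := Planar.joinWB L _ E _ G1 G2 z x h1' (fun l r hl _ => g2 l r hl)
  have h2' : Planar ((L ++ [(x, false)]) ++ (x, false) :: (b, true) :: R)
      ((z, x) :: E) (V ∪ {x}) G2 := by simpa using h2
  obtain ⟨G3, g3⟩ := exists_join G2 (L.length + 1)
  have h3 := Planar.joinBW (L ++ [(x, false)]) R _ _ G2 G3 b x h2'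
    (fun l r hl _ => g3 l r (by simpa using hl))
  -- insert the white vertex y
  obtain ⟨G4, h4, g4⟩ := insert_star h3 y true (by simp [hy, hxy.symm])
  have h4' : Planar (L ++ (x, false) :: (y, true) :: ((y, true) :: (y, true) :: R))
      ((b, x) :: (z, x) :: E) (V ∪ {x} ∪ {y}) G4 := by simpa using h4
  obtain ⟨G5, g5⟩ := exists_join G4 L.length
  have h5 := Planar.joinBW L _ _ _ G4 G5 y x h4' (fun l r hl _ => g5 l r hl)
  refine ⟨G5, h5, fun l r p q hl hr => ?_⟩
  rw [g5 l (p :: q :: r) hl]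
  have e4 : ∀ s : Fin 3, G4 (l ++ s :: s :: p :: q :: r) = G3 (l ++ s :: r) * sgn s p q := by
    intro s
    have := g4 (l ++ [s]) r s p q (by simp [hl])
    simpa using this
  have e3 : ∀ s : Fin 3, G3 (l ++ s :: r) = ∑ t, G2 (l ++ s :: t :: t :: r) := by
    intro s
    have := g3 (l ++ [s]) r (by simp [hl])
    simpa using this
  have e2 : ∀ s t : Fin 3, G2 (l ++ s :: t :: t :: r) =
      ∑ u, G1 (l ++ u :: u :: s :: t :: t :: r) := by
    intro s t
    exact g2 l (s :: t :: t :: r) hl
  have e1 : ∀ s t u : Fin 3, G1 (l ++ u :: u :: s :: t :: t :: r) =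
      F (l ++ u :: t :: r) * sgn u s t := by
    intro s t u
    have := g1 (l ++ [u]) (t :: r) u s t (by simp [hl])
    simpa using this
  simp only [e4, e3, e2, e1]
  have := sgn_contract (fun u t => F (l ++ u :: t :: r)) p q
  rw [← this]
  refine Finset.sum_congr rfl fun s _ => ?_
  rw [Finset.sum_comm]

end Pool.Agent.H7.WB
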